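import Pool.Agent.Lib.MP_a12917_nt_SC.SLs
import Pool.Agent.Lib.MP_a12917_nt_GT.MomZ

/-!
# MP_a12917_nt, project SC, module SAbs: first moment from the fourth moment of a test function
-/

set_option autoImplicit false

noncomputable section

namespace Pool.Agent.MP_a12917_nt_SC

open Finset Pool.Agent.MP_a12917_nt_GT

/-- The pointwise inequality behind `abs_low`, `K ^ 2 = 4 A B`. -/
private theorem SAbs_pt (f Z σ A B K : ℝ) (hσ : 0 < σ) (hA : 0 < A) (hB : 0 < B) (hK : 0 < K)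
    (hK2 : K ^ 2 = 4 * (A * B)) :
    f * Z ≤ K * σ * |f| + f ^ 2 / (4 * A) + Z ^ 4 / (4 * B * σ ^ 2) := by
  have n1 : 0 ≤ K * σ * |f| := by positivity
  have n2 : 0 ≤ f ^ 2 / (4 * A) := by positivity
  have n3 : 0 ≤ Z ^ 4 / (4 * B * σ ^ 2) := by positivity
  rcases le_or_gt |Z| (K * σ) with h | h
  · have h1 : f * Z ≤ |f| * |Z| := by
      rw [← abs_mul]
      exact le_abs_self _
    have h2 : |f| * |Z| ≤ |f| * (K * σ) := mul_le_mul_of_nonneg_left h (abs_nonneg f)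
    linarith
  · have h1 : f * Z ≤ f ^ 2 / (4 * A) + A * Z ^ 2 := by
      have e : f ^ 2 / (4 * A) + A * Z ^ 2 - f * Z = (f - 2 * A * Z) ^ 2 / (4 * A) := by
        field_simp
        ring
      have h3 : 0 ≤ (f - 2 * A * Z) ^ 2 / (4 * A) := by positivity
      linarith
    have h2 : (K * σ) ^ 2 ≤ Z ^ 2 := by
      rw [← sq_abs Z]
      exact pow_le_pow_left₀ (by positivity) h.le 2
    have h3 : A * Z ^ 2 ≤ Z ^ 4 / (4 * B * σ ^ 2) := by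
      rw [le_div_iff₀ (by positivity)]
      have e1 : A * Z ^ 2 * (4 * B * σ ^ 2) = Z ^ 2 * (K * σ) ^ 2 := by
        rw [mul_pow, hK2]
        ring
      have e2 : Z ^ 4 = Z ^ 2 * Z ^ 2 := by ring
      rw [e1, e2]
      exact mul_le_mul_of_nonneg_left h2 (sq_nonneg Z)
    linarith

/-- Proof: `K = 2 √(A B)`, `T x = Z x` if `|Z x| ≤ K σ` and `0` otherwise. `∑ f Z = ∑ f T + ∑ f (Z
- T)`;
`(Z - T)² ≤ Z⁴/(K σ)²` pointwise, so by Cauchy-Schwarz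
`|∑ f (Z - T)| ≤ √(A n σ²) √(B n σ⁴/(K σ)²) = n σ² √(A B)/K = n σ²/2`, so `n σ²/2 ≤ ∑ f T ≤ K σ ∑
|f|`. -/
theorem abs_low (s : Finset ℕ) (f Z : ℕ → ℝ) (n σ A B : ℝ) (hn : 0 < n) (hσ : 0 < σ)
    (hA : 0 < A) (hB : 0 < B) (h1 : n * σ ^ 2 ≤ ∑ x ∈ s, f x * Z x)
    (h2 : ∑ x ∈ s, f x ^ 2 ≤ A * n * σ ^ 2) (h4 : ∑ x ∈ s, Z x ^ 4 ≤ B * n * σ ^ 4) :
    n * σ / (4 * √(A * B)) ≤ ∑ x ∈ s, |f x| := by
  have hk : 0 < √(A * B) := Real.sqrt_pos.2 (mul_pos hA hB)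
  obtain ⟨K, hK⟩ : ∃ K, K = 2 * √(A * B) := ⟨_, rfl⟩
  have hK0 : 0 < K := by rw [hK]; positivity
  have hK2 : K ^ 2 = 4 * (A * B) := by
    rw [hK, mul_pow, Real.sq_sqrt (mul_pos hA hB).le]
    norm_num
  have h5 : ∑ x ∈ s, f x * Z x ≤ K * σ * ∑ x ∈ s, |f x| + (∑ x ∈ s, f x ^ 2) / (4 * A) +
      (∑ x ∈ s, Z x ^ 4) / (4 * B * σ ^ 2) := by
    rw [Finset.mul_sum, Finset.sum_div, Finset.sum_div, ← Finset.sum_add_distrib,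
      ← Finset.sum_add_distrib]
    exact Finset.sum_le_sum fun x _ => SAbs_pt (f x) (Z x) σ A B K hσ hA hB hK0 hK2
  have h6 : (∑ x ∈ s, f x ^ 2) / (4 * A) ≤ n * σ ^ 2 / 4 := by
    rw [div_le_div_iff₀ (by positivity) (by norm_num)]
    nlinarith
  have h7 : (∑ x ∈ s, Z x ^ 4) / (4 * B * σ ^ 2) ≤ n * σ ^ 2 / 4 := by
    rw [div_le_div_iff₀ (by positivity) (by norm_num)]
    have e : n * σ ^ 2 * (4 * B * σ ^ 2) = B * n * σ ^ 4 * 4 := by ring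
    rw [e]
    linarith
  have h8 : n * σ ^ 2 / 2 ≤ K * σ * ∑ x ∈ s, |f x| := by linarith
  have h9 : n * σ / 2 ≤ K * ∑ x ∈ s, |f x| := by
    have e1 : n * σ ^ 2 / 2 = σ * (n * σ / 2) := by ring
    have e2 : K * σ * ∑ x ∈ s, |f x| = σ * (K * ∑ x ∈ s, |f x|) := by ring
    rw [e1, e2] at h8
    exact le_of_mul_le_mul_left h8 hσ
  rw [div_le_iff₀ (by positivity)]
  rw [hK] at h9
  linarith

/-- Proof: `z ≥ 1`, `z⁴ ≤ z^(4+ε) ≤ Y`, so `4Y + z⁴/Y ≤ 5Y` in `ls`. Fourth moment: `mom_Z`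
(module
GT/MomZ) with `m = 4`, `ε' = ε`, `η = 1` (`gam 4 = 3`; `(4 + 1) / 2 = 2`) and `EY_div` give
`EY Y S⁴ ≤ 4 (EY Y S²)²`, `EY Y S² ≤ 5 mean`. -/
theorem four (ε : ℝ) (hε : 0 < ε) : ∃ z0 : ℕ, ∀ z : ℕ, z0 ≤ z → ∀ H : ℕ, (z : ℝ) ^ ε ≤ H →
    (H : ℝ) ≤ (z : ℝ) ^ (1 - ε) → ∀ Y : ℕ, (z : ℝ) ^ (4 + ε) ≤ Y →
    ∑ x ∈ Ico Y (2 * Y), S z H (x : ℤ) ^ 2 ≤ 5 * Y * mean (Lm z) (fun x => S z H x ^ 2) ∧
    ∑ x ∈ Ico Y (2 * Y), S z H (x : ℤ) ^ 4 ≤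
      100 * Y * mean (Lm z) (fun x => S z H x ^ 2) ^ 2 := by
  obtain ⟨z0, hz0⟩ := mom_Z 4 (by norm_num) ε ε 1 hε hε one_pos
  refine ⟨z0 + 1, fun z hz H hH1 hH2 Y hY => ?_⟩
  have hz1 : 1 ≤ z := by omega
  have hz1' : (1 : ℝ) ≤ z := by exact_mod_cast hz1
  have hz4 : (z : ℝ) ^ 4 ≤ Y := by
    have e : (z : ℝ) ^ (4 : ℝ) = (z : ℝ) ^ 4 := by
      rw [show (4 : ℝ) = ((4 : ℕ) : ℝ) by norm_num, Real.rpow_natCast]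
    rw [← e]
    exact (Real.rpow_le_rpow_of_exponent_le hz1' (by linarith)).trans hY
  have hY1' : (1 : ℝ) ≤ Y := (one_le_pow₀ hz1').trans hz4
  have hY1 : 1 ≤ Y := by exact_mod_cast hY1'
  have hY0 : (0 : ℝ) < Y := by linarith
  obtain ⟨σ2, hσ2⟩ : ∃ σ2, σ2 = mean (Lm z) (fun x => S z H x ^ 2) := ⟨_, rfl⟩
  have hσ0 : 0 ≤ σ2 := by
    rw [hσ2]
    exact mean_nonneg _ _ fun x => sq_nonneg _
  have h1 : ∑ x ∈ Ico Y (2 * Y), S z H (x : ℤ) ^ 2 ≤ 5 * Y * σ2 := by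
    refine (ls z H Y hz1 hY1).trans ?_
    rw [← hσ2]
    refine mul_le_mul_of_nonneg_right ?_ hσ0
    have h2 : (z : ℝ) ^ 4 / Y ≤ 1 := by
      rw [div_le_iff₀ hY0, one_mul]
      exact hz4
    linarith
  rw [← hσ2]
  refine ⟨h1, ?_⟩
  have hY' : (z : ℝ) ^ (2 * (((4 + 1) / 2 : ℕ) : ℝ) + ε) ≤ Y := by
    have e : (2 * (((4 + 1) / 2 : ℕ) : ℝ) + ε) = 4 + ε := by norm_num
    rw [e]
    exact hY
  obtain ⟨h3, h4⟩ := hz0 z (by omega) H hH1 hH2 Y hY'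
  obtain ⟨τ2, hτ2⟩ : ∃ τ2, τ2 = EY Y (fun x => S z H x ^ 2) := ⟨_, rfl⟩
  rw [← hτ2] at h3 h4
  have hg : gam 4 = 3 := by
    show ((2 : ℕ) + 1 : ℝ) * (((0 : ℕ) + 1 : ℝ) * 1) = 3
    norm_num
  rw [MomZ.EY_div, hg] at h4
  have h5 := (abs_le.1 h4).2
  have e4 : Real.sqrt τ2 ^ 4 = τ2 ^ 2 := by
    rw [show Real.sqrt τ2 ^ 4 = (Real.sqrt τ2 ^ 2) ^ 2 by ring, Real.sq_sqrt h3.le]
  rw [e4] at h5
  have h6 : EY Y (fun x => S z H x ^ 4) / τ2 ^ 2 ≤ 4 := by linarith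
  rw [div_le_iff₀ (by positivity)] at h6
  have h7 : τ2 ≤ 5 * σ2 := by
    rw [hτ2]
    unfold EY
    rw [div_le_iff₀ hY0]
    linarith
  have h8 : τ2 ^ 2 ≤ (5 * σ2) ^ 2 := pow_le_pow_left₀ h3.le h7 2
  have h9 : ∑ x ∈ Ico Y (2 * Y), S z H (x : ℤ) ^ 4 = EY Y (fun x => S z H x ^ 4) * Y := by
    unfold EY
    rw [div_mul_cancel₀ _ hY0.ne']
  rw [h9]
  have h10 : EY Y (fun x => S z H x ^ 4) ≤ 100 * σ2 ^ 2 := by nlinarith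
  calc EY Y (fun x => S z H x ^ 4) * Y ≤ 100 * σ2 ^ 2 * Y :=
        mul_le_mul_of_nonneg_right h10 hY0.le
    _ = 100 * Y * σ2 ^ 2 := by ring

end Pool.Agent.MP_a12917_nt_SC
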