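import Pool.Agent.Lib.MP_a12917_nt_SC.SHypA

/-!
# MP_a12917_nt, project SC, module SHyp: Dirichlet hyperbola method
-/

set_option autoImplicit false

noncomputable section

namespace Pool.Agent.MP_a12917_nt_SC

open Finset Pool.Agent.MP_a12917_nt_GT

private theorem SHyp_log (n : ℕ) (hn : 1 ≤ n) :
    Real.log ((n : ℝ) + 1) ≤ Real.log n + 1 / n := by
  have hn0 : (0 : ℝ) < n := by exact_mod_cast hn
  have h1 : (n : ℝ) + 1 = n * (1 + 1 / n) := by
    field_simp
  have h2 : (0 : ℝ) < 1 + 1 / n := by positivity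
  rw [h1, Real.log_mul hn0.ne' h2.ne']
  have h3 := Real.log_le_sub_one_of_pos h2
  linarith

/-- Proof: `Real.eulerMascheroniSeq_lt_eulerMascheroniConstant`,
`Real.eulerMascheroniConstant_lt_eulerMascheroniSeq'`, `harmonic_eq_sum_Icc`:
`hs n - log (n+1) < γ < hs n - log n` and `log (n+1) - log n ≤ 1/n`. -/
theorem hs_gamma (n : ℕ) (hn : 1 ≤ n) :
    |hs n - Real.log n - Real.eulerMascheroniConstant| ≤ 1 / n := by
  have hharm : hs n = ((harmonic n : ℚ) : ℝ) := by
    rw [harmonic_eq_sum_Icc]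
    unfold hs
    push_cast
    refine sum_congr rfl fun i _ => ?_
    rw [one_div]
  have h1 := Real.eulerMascheroniSeq_lt_eulerMascheroniConstant n
  have h2 := Real.eulerMascheroniConstant_lt_eulerMascheroniSeq' n
  unfold Real.eulerMascheroniSeq at h1
  unfold Real.eulerMascheroniSeq' at h2
  rw [if_neg (by omega)] at h2
  rw [← hharm] at h1 h2
  have h3 := SHyp_log n hn
  have hn0 : (0 : ℝ) < n := by exact_mod_cast hn
  have h4 : (0 : ℝ) < 1 / n := by positivity
  rw [abs_le]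
  constructor <;> linarith

/-- Proof: with `z = x / D` (natural division): `z D ≤ x < (z+1) D`, so
`0 ≤ log x - log z - log D ≤ log (1 + 1/z) ≤ 1/z`; `hs_gamma` for `D` and `z`; then
`H/D ≤ 1`, `H/z ≤ 1`. -/
theorem main_term (H D x : ℕ) (hH : 1 ≤ H) (hD : H ≤ D) (hx : H ≤ x / D) :
    |H * (hs D + hs (x / D)) - H * (Real.log x + 2 * Real.eulerMascheroniConstant)| ≤ 3 := by
  obtain ⟨z, hz⟩ : ∃ z : ℕ, z = x / D := ⟨_, rfl⟩
  rw [← hz] at hx ⊢
  have hD1 : 1 ≤ D := by omega
  have hz1 : 1 ≤ z := by omega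
  have hD0 : (0 : ℝ) < D := by exact_mod_cast hD1
  have hz0 : (0 : ℝ) < z := by exact_mod_cast hz1
  have hH0 : (0 : ℝ) < H := by exact_mod_cast hH
  have e1 : z * D ≤ x := by
    rw [hz]
    exact Nat.div_mul_le_self x D
  have e2 : x < (z + 1) * D := by
    rw [hz]
    have h1 := Nat.div_add_mod x D
    have h2 := Nat.mod_lt x hD1
    rw [add_mul, one_mul, mul_comm]
    omega
  have hx0 : 1 ≤ x := le_trans (Nat.mul_pos hz1 hD1) e1
  have hx1 : (0 : ℝ) < x := by exact_mod_cast hx0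
  have l1 : Real.log z + Real.log D ≤ Real.log x := by
    rw [← Real.log_mul hz0.ne' hD0.ne']
    exact Real.log_le_log (by positivity) (by exact_mod_cast e1)
  have l2 : Real.log x ≤ Real.log z + 1 / z + Real.log D := by
    have h1 : (x : ℝ) ≤ ((z : ℝ) + 1) * D := by exact_mod_cast e2.le
    have h2 := Real.log_le_log hx1 h1
    rw [Real.log_mul (by positivity) hD0.ne'] at h2
    have h3 := SHyp_log z hz1
    linarith
  have g1 := abs_le.1 (hs_gamma D hD1)
  have g2 := abs_le.1 (hs_gamma z hz1)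
  have i1 : (H : ℝ) * (1 / D) ≤ 1 := by
    rw [mul_one_div, div_le_one hD0]
    exact_mod_cast hD
  have i2 : (H : ℝ) * (1 / z) ≤ 1 := by
    rw [mul_one_div, div_le_one hz0]
    exact_mod_cast hx
  have hE : (H : ℝ) * (hs D + hs z) - H * (Real.log x + 2 * Real.eulerMascheroniConstant) =
      H * ((hs D - Real.log D - Real.eulerMascheroniConstant) +
        (hs z - Real.log z - Real.eulerMascheroniConstant) +
        (Real.log z + Real.log D - Real.log x)) := by ring
  rw [hE, abs_le]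
  constructor
  · have h1 : -(1 / (D : ℝ) + 1 / z + 1 / z) ≤
        (hs D - Real.log D - Real.eulerMascheroniConstant) +
        (hs z - Real.log z - Real.eulerMascheroniConstant) +
        (Real.log z + Real.log D - Real.log x) := by linarith [g1.1, g2.1]
    have h2 := mul_le_mul_of_nonneg_left h1 hH0.le
    nlinarith
  · have h1 : (hs D - Real.log D - Real.eulerMascheroniConstant) +
        (hs z - Real.log z - Real.eulerMascheroniConstant) +
        (Real.log z + Real.log D - Real.log x) ≤ 1 / (D : ℝ) + 1 / z := by linarith [g1.2, g2.2]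
    have h2 := mul_le_mul_of_nonneg_left h1 hH0.le
    nlinarith

/-- Proof: sum `div_split`, `div_split2` over `j ≤ H` (`one_mult` with `b = x / D + 1 ≥ H` for the
boundary term), `S_eq_sum` for `D` and for `x / D`, and `main_term`. -/
theorem hyp (H D x : ℕ) (hH : 1 ≤ H) (hD : H ≤ D) (hx : H ≤ x / D) :
    |Di H x - (S D H (x : ℤ) + S (x / D) H (x : ℤ))| ≤ 4 := by
  obtain ⟨z, hz⟩ : ∃ z : ℕ, z = x / D := ⟨_, rfl⟩
  have hm := abs_le.1 (main_term H D x hH hD hx)
  rw [S_eq_sum, S_eq_sum]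
  unfold Di
  obtain ⟨A, hA⟩ : ∃ A : ℕ → ℝ, ∀ j, A j =
      (((Icc 1 D).filter (fun a => a ∣ x + j)).card : ℝ) := ⟨_, fun _ => rfl⟩
  obtain ⟨B, hB⟩ : ∃ B : ℕ → ℝ, ∀ j, B j =
      (((Icc 1 (x / D)).filter (fun a => a ∣ x + j)).card : ℝ) := ⟨_, fun _ => rfl⟩
  have h1 : ∑ j ∈ Icc 1 H, (A j + B j) ≤
      ∑ j ∈ Icc 1 H, ((Nat.divisors (x + j)).card : ℝ) := by
    refine sum_le_sum fun j hj => ?_
    rw [mem_Icc] at hj
    rw [div_split (x + j) D (by omega), Nat.cast_add, hA, hB]
    have := (div_split2 x j D H hj.1 hj.2 hD).1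
    have h2 : (((Icc 1 (x / D)).filter (fun b => b ∣ x + j)).card : ℝ) ≤
        (((Nat.divisors (x + j)).filter (fun b => b * D < x + j)).card : ℝ) := by
      exact_mod_cast this
    linarith
  have h2 : ∑ j ∈ Icc 1 H, ((Nat.divisors (x + j)).card : ℝ) ≤
      ∑ j ∈ Icc 1 H, (A j + B j) + ∑ j ∈ Icc 1 H, (if (x / D + 1) ∣ x + j then (1 : ℝ) else 0) := by
    rw [← sum_add_distrib]
    refine sum_le_sum fun j hj => ?_
    rw [mem_Icc] at hj
    rw [div_split (x + j) D (by omega), Nat.cast_add, hA, hB]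
    have h3 := (div_split2 x j D H hj.1 hj.2 hD).2
    have h4 : (((Nat.divisors (x + j)).filter (fun b => b * D < x + j)).card : ℝ) ≤
        (((Icc 1 (x / D)).filter (fun b => b ∣ x + j)).card : ℝ) +
          (if (x / D + 1) ∣ x + j then (1 : ℝ) else 0) := by
      exact_mod_cast h3
    linarith
  have h3 := one_mult x (x / D + 1) H (by omega)
  have h4 : ∑ j ∈ Icc 1 H, (A j + B j) =
      ∑ j ∈ Icc 1 H, (((Icc 1 D).filter (fun a => a ∣ x + j)).card : ℝ) +
        ∑ j ∈ Icc 1 H, (((Icc 1 (x / D)).filter (fun a => a ∣ x + j)).card : ℝ) := by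
    rw [sum_add_distrib]
    congr 1
    · exact sum_congr rfl fun j _ => hA j
    · exact sum_congr rfl fun j _ => hB j
  rw [h4] at h1 h2
  rw [abs_le]
  constructor
  · nlinarith [hm.1]
  · nlinarith [hm.2]

end Pool.Agent.MP_a12917_nt_SC
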