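import Pool.Agent.Lib.MP_a12917_nt_SC.SPair
import Pool.Agent.Lib.MP_a12917_nt_SC.SHyp
import Pool.Agent.Lib.MP_a12917_nt_GT.LowA

/-!
# MP_a12917_nt, project SC, module SCor: correlation of the remainder with `S z H`
-/

set_option autoImplicit false

noncomputable section

namespace Pool.Agent.MP_a12917_nt_SC

open Finset Pool.Agent.MP_a12917_nt_GT

/-- The error `E` is distributed over the pairs `(a,b)`; only the `b ≤ z` have a main term. -/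
private theorem SCor_split (z D H : ℕ) (hzD : z ≤ D) {Y : ℝ} (F : ℕ → ℕ → ℝ)
    {G : ℕ → ℕ → ℝ} (hF : ∀ a b, F a b = Y * G a b) :
    Y * (∑ b ∈ Icc 1 z, ∑ a ∈ Icc 1 z, G a b) - 10 * (H : ℝ) ^ 2 * (z * D) =
      ∑ b ∈ Icc 1 D, ∑ a ∈ Icc 1 z, ((if b ≤ z then F a b else 0) - 10 * (H : ℝ) ^ 2) := by
  simp only [sum_sub_distrib, sum_const, Nat.card_Icc, nsmul_eq_mul, Nat.add_sub_cancel]
  have h1 : ∑ b ∈ Icc 1 D, ∑ a ∈ Icc 1 z, (if b ≤ z then F a b else 0) =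
      ∑ b ∈ Icc 1 z, ∑ a ∈ Icc 1 z, F a b := by
    have h2 : Icc 1 z = (Icc 1 D).filter (fun b => b ≤ z) := by
      ext b
      rw [mem_filter, mem_Icc, mem_Icc]
      constructor
      · rintro ⟨h3, h4⟩
        exact ⟨⟨h3, h4.trans hzD⟩, h4⟩
      · rintro ⟨⟨h3, -⟩, h4⟩
        exact ⟨h3, h4⟩
    rw [h2, sum_filter (s := Icc 1 D), ← h2]
    refine sum_congr rfl fun b _ => ?_
    split_ifs
    · rfl
    · rw [sum_const_zero]
  rw [h1]
  simp only [hF, mul_sum]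
  ring

/-- Proof: `S z H ^ 2 = ∑_{a,b ≤ z} Ua a Ua b`, `mean_sum`, and the mean of `Ua a Ua b` over `Lm
z` is the
mean over `lcm(a,b)` (`mean_of_dvd`, `Ua_per`, `dvd_Lm`). -/
theorem mean_S (z H : ℕ) : mean (Lm z) (fun x => S z H x ^ 2) =
    ∑ b ∈ Icc 1 z, ∑ a ∈ Icc 1 z, mean (Nat.lcm a b) (fun x => Ua a H x * Ua b H x) := by
  have hL := Lm_pos z
  have hexp : mean (Lm z) (fun x => S z H x ^ 2) =
      ∑ u ∈ Icc 1 z ×ˢ Icc 1 z, mean (Lm z) (fun x => Ua u.2 H x * Ua u.1 H x) := by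
    rw [← mean_sum]
    refine mean_congr _ _ _ fun x => ?_
    unfold S
    rw [sq, sum_mul_sum, sum_product]
    exact sum_congr rfl fun b _ => sum_congr rfl fun a _ => mul_comm _ _
  rw [hexp, sum_product]
  refine sum_congr rfl fun b hb => sum_congr rfl fun a ha => ?_
  rw [mem_Icc] at ha hb
  refine mean_of_dvd _ _ (Nat.lcm_dvd (dvd_Lm z a ha.1 ha.2) (dvd_Lm z b hb.1 hb.2)) hL _
    fun x => ?_
  simp only
  rw [Ua_per a H _ (Nat.dvd_lcm_left a b), Ua_per b H _ (Nat.dvd_lcm_right a b)]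

/-- Proof: `S D H x * S z H x = ∑_{b ≤ D} ∑_{a ≤ z} Ua a Ua b`; for every pair `pair` with `A =
Y`,
`B = 2Y`; the pairs with `b > z` have mean `≥ 0` (`cov_nonneg`), the other ones give `mean_S`. -/
theorem corD (z D H Y : ℕ) (hz : 1 ≤ z) (hzD : z ≤ D) (hH : 1 ≤ H) :
    Y * mean (Lm z) (fun x => S z H x ^ 2) - 10 * (H : ℝ) ^ 2 * (z * D) ≤
      ∑ x ∈ Ico Y (2 * Y), S D H (x : ℤ) * S z H (x : ℤ) := by
  have _ := hz
  have h1 : ∑ x ∈ Ico Y (2 * Y), S D H (x : ℤ) * S z H (x : ℤ) =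
      ∑ b ∈ Icc 1 D, ∑ a ∈ Icc 1 z, ∑ x ∈ Ico Y (2 * Y), Ua a H (x : ℤ) * Ua b H (x : ℤ) := by
    have h2 : ∀ x : ℕ, S D H (x : ℤ) * S z H (x : ℤ) =
        ∑ b ∈ Icc 1 D, ∑ a ∈ Icc 1 z, Ua a H (x : ℤ) * Ua b H (x : ℤ) := fun x => by
      unfold S
      rw [sum_mul_sum]
      exact sum_congr rfl fun b _ => sum_congr rfl fun a _ => mul_comm _ _
    simp only [h2]
    rw [sum_comm]
    refine sum_congr rfl fun b _ => ?_
    rw [sum_comm]
  rw [h1, mean_S, SCor_split z D H hzD (fun a b => Y * mean (Nat.lcm a b)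
    (fun x => Ua a H x * Ua b H x)) (fun a b => rfl)]
  · refine sum_le_sum fun b hb => sum_le_sum fun a ha => ?_
    rw [mem_Icc] at ha hb
    have h3 := pair a b H ha.1 hb.1 hH Y (2 * Y) (by omega)
    have h4 : 0 ≤ mean (Nat.lcm a b) (fun x => Ua a H x * Ua b H x) :=
      cov_nonneg a b H _ (Nat.dvd_lcm_left a b) (Nat.dvd_lcm_right a b)
        (Nat.lcm_pos ha.1 hb.1)
    have h5 : ((2 * Y : ℕ) : ℝ) - Y = Y := by push_cast; ring
    rw [h5] at h3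
    have h6 : (0 : ℝ) ≤ Y * mean (Nat.lcm a b) (fun x => Ua a H x * Ua b H x) :=
      mul_nonneg (Nat.cast_nonneg _) h4
    split_ifs
    · exact h3
    · linarith

/-- Proof: `S (x / D) H x * S z H x = ∑_{b ≤ x/D} ∑_{a ≤ z} Ua a Ua b`; `b ≤ x / D` iff `b D ≤ x`.
Exchange the
sums: `∑_{b ≤ 2Y/D} ∑_{a ≤ z} ∑_{x ∈ [max(Y, bD), 2Y)} Ua a Ua b` (`x < 2Y` and `b ≤ x/D` give
`b ≤ 2Y/D`). For `b ≤ z`: `b D ≤ z D ≤ Y`, so `x` runs over `[Y, 2Y)`, `pair`; for `b > z` the sum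
is
empty or `pair` with a mean `≥ 0` (`cov_nonneg`): `≥ -10 H²`. (`z ≤ 2Y/D` because `z D ≤ Y`.) -/
theorem corX (z D H Y : ℕ) (hz : 1 ≤ z) (hD : 1 ≤ D) (hzD : z * D ≤ Y) (hH : 1 ≤ H) :
    Y * mean (Lm z) (fun x => S z H x ^ 2) - 10 * (H : ℝ) ^ 2 * (z * (2 * Y / D : ℕ)) ≤
      ∑ x ∈ Ico Y (2 * Y), S (x / D) H (x : ℤ) * S z H (x : ℤ) := by
  have _ := hz
  have hzx : z ≤ 2 * Y / D := by
    rw [Nat.le_div_iff_mul_le (by omega)]
    omega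
  have h1 : ∑ x ∈ Ico Y (2 * Y), S (x / D) H (x : ℤ) * S z H (x : ℤ) =
      ∑ b ∈ Icc 1 (2 * Y / D), ∑ a ∈ Icc 1 z, ∑ x ∈ Ico (max Y (b * D)) (2 * Y),
        Ua a H (x : ℤ) * Ua b H (x : ℤ) := by
    have h2 : ∀ x ∈ Ico Y (2 * Y), S (x / D) H (x : ℤ) * S z H (x : ℤ) =
        ∑ b ∈ Icc 1 (2 * Y / D), ∑ a ∈ Icc 1 z,
          if b * D ≤ x then Ua a H (x : ℤ) * Ua b H (x : ℤ) else 0 := fun x hx => by
      rw [mem_Ico] at hx
      have h3 : x / D ≤ 2 * Y / D := Nat.div_le_div_right hx.2.le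
      have h4 : Icc 1 (x / D) = (Icc 1 (2 * Y / D)).filter (fun b => b * D ≤ x) := by
        ext b
        rw [mem_filter, mem_Icc, mem_Icc, ← Nat.le_div_iff_mul_le (by omega)]
        constructor
        · rintro ⟨h5, h6⟩
          exact ⟨⟨h5, h6.trans h3⟩, h6⟩
        · rintro ⟨⟨h5, -⟩, h6⟩
          exact ⟨h5, h6⟩
      unfold S
      rw [sum_mul_sum, h4, sum_filter]
      refine sum_congr rfl fun b _ => ?_
      split_ifs
      · exact sum_congr rfl fun a _ => mul_comm _ _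
      · rw [sum_const_zero]
    rw [sum_congr rfl h2, sum_comm]
    refine sum_congr rfl fun b _ => ?_
    rw [sum_comm]
    refine sum_congr rfl fun a _ => ?_
    rw [← sum_filter]
    refine sum_congr ?_ fun _ _ => rfl
    ext x
    rw [mem_filter, mem_Ico, mem_Ico, max_le_iff]
    constructor
    · rintro ⟨⟨h5, h6⟩, h7⟩
      exact ⟨⟨h5, h7⟩, h6⟩
    · rintro ⟨⟨h5, h7⟩, h6⟩
      exact ⟨⟨h5, h6⟩, h7⟩
  rw [h1, mean_S, SCor_split z (2 * Y / D) H hzx (fun a b => Y * mean (Nat.lcm a b)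
    (fun x => Ua a H x * Ua b H x)) (fun a b => rfl)]
  · refine sum_le_sum fun b hb => sum_le_sum fun a ha => ?_
    rw [mem_Icc] at ha hb
    have hbD : b * D ≤ 2 * Y := by
      have := hb.2
      rwa [Nat.le_div_iff_mul_le (by omega)] at this
    have h3 := pair a b H ha.1 hb.1 hH (max Y (b * D)) (2 * Y) (max_le (by omega) hbD)
    have h4 : 0 ≤ mean (Nat.lcm a b) (fun x => Ua a H x * Ua b H x) :=
      cov_nonneg a b H _ (Nat.dvd_lcm_left a b) (Nat.dvd_lcm_right a b)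
        (Nat.lcm_pos ha.1 hb.1)
    split_ifs with hbz
    · have h6 : max Y (b * D) = Y :=
        max_eq_left ((Nat.mul_le_mul_right D hbz).trans hzD)
      have h5 : ((2 * Y : ℕ) : ℝ) - Y = Y := by push_cast; ring
      rw [h6, h5] at h3
      rw [h6]
      exact h3
    · have h5 : ((max Y (b * D) : ℕ) : ℝ) ≤ ((2 * Y : ℕ) : ℝ) := by
        exact_mod_cast max_le (by omega) hbD
      have h6 := mul_nonneg (sub_nonneg.2 h5) h4
      linarith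

/-- Proof: `D = Nat.sqrt Y`; `H ≤ H² ≤ D`, `x / D ≥ D ≥ H` (`x ≥ Y ≥ D²`), so `hyp` applies to all
`x ∈ [Y,2Y)`: `Di H x * Z ≥ (S_D + S_{x/D}) Z - 4 |Z|`, `Z = S z H x`. Then `corD`, `corX` (`z D ≤
D² ≤ Y`) and
`2Y/D ≤ 6 D` (`Y ≤ D² + 2D ≤ 3D²`). -/
theorem corr (z H Y : ℕ) (hz : 1 ≤ z) (hH : 1 ≤ H) (hH2 : H ^ 2 ≤ Nat.sqrt Y)
    (hz2 : z ≤ Nat.sqrt Y) :
    2 * (Y * mean (Lm z) (fun x => S z H x ^ 2)) - 100 * (H : ℝ) ^ 2 * (z * √Y) -
        4 * ∑ x ∈ Ico Y (2 * Y), |S z H (x : ℤ)| ≤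
      ∑ x ∈ Ico Y (2 * Y), Di H x * S z H (x : ℤ) := by
  set D := Nat.sqrt Y with hDd
  have hD1 : 1 ≤ D := hz.trans hz2
  have hDD : D * D ≤ Y := Nat.sqrt_le Y
  have hDu : Y ≤ D * D + D + D := Nat.sqrt_le_add Y
  have hHD : H ≤ D := le_trans (by nlinarith) hH2
  have hzD : z * D ≤ Y := (Nat.mul_le_mul_right D hz2).trans hDD
  have h1 := corD z D H Y hz hz2 hH
  have h2 := corX z D H Y hz hD1 hzD hH
  have h3 : ∑ x ∈ Ico Y (2 * Y), (S D H (x : ℤ) * S z H (x : ℤ) +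
      S (x / D) H (x : ℤ) * S z H (x : ℤ) - 4 * |S z H (x : ℤ)|) ≤
      ∑ x ∈ Ico Y (2 * Y), Di H x * S z H (x : ℤ) := by
    refine sum_le_sum fun x hx => ?_
    rw [mem_Ico] at hx
    have h4 : H ≤ x / D := by
      rw [Nat.le_div_iff_mul_le (by omega)]
      exact ((Nat.mul_le_mul_right D hHD).trans hDD).trans hx.1
    have h5 := hyp H D x hH hHD h4
    have h6 : |(Di H x - (S D H (x : ℤ) + S (x / D) H (x : ℤ))) * S z H (x : ℤ)| ≤
        4 * |S z H (x : ℤ)| := by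
      rw [abs_mul]
      exact mul_le_mul_of_nonneg_right h5 (abs_nonneg _)
    have h7 := (abs_le.1 h6).1
    nlinarith
  rw [sum_sub_distrib, sum_add_distrib, ← mul_sum] at h3
  have h8 : (D : ℝ) ≤ √Y := Real.nat_sqrt_le_real_sqrt
  have h9 : (2 * Y / D : ℕ) ≤ 6 * D := by
    have h10 : 2 * Y / D ≤ (2 * (D * D + D + D)) / D := Nat.div_le_div_right (by omega)
    have h11 : (2 * (D * D + D + D)) / D = 2 * D + 4 := by
      rw [show 2 * (D * D + D + D) = (2 * D + 4) * D by ring]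
      exact Nat.mul_div_cancel _ (by omega)
    omega
  have h12 : ((2 * Y / D : ℕ) : ℝ) ≤ 6 * √Y := by
    have h13 : ((2 * Y / D : ℕ) : ℝ) ≤ 6 * (D : ℝ) := by exact_mod_cast h9
    linarith
  have h14 : (0 : ℝ) ≤ 10 * (H : ℝ) ^ 2 * z := by positivity
  have h15 : 10 * (H : ℝ) ^ 2 * (z * D) ≤ 10 * (H : ℝ) ^ 2 * z * √Y := by
    rw [← mul_assoc]
    exact mul_le_mul_of_nonneg_left h8 h14
  have h16 : 10 * (H : ℝ) ^ 2 * (z * (2 * Y / D : ℕ)) ≤ 10 * (H : ℝ) ^ 2 * z * (6 * √Y) := by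
    rw [← mul_assoc]
    exact mul_le_mul_of_nonneg_left h12 h14
  have h17 : (0 : ℝ) ≤ (H : ℝ) ^ 2 * (z * √Y) := by positivity
  nlinarith

end Pool.Agent.MP_a12917_nt_SC
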