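import Mathlib
import Pool.Agent.Lib.MP_a12917_nt_GT.Defs
import Pool.Agent.Lib.MP_a12917_nt_GT.Basic

/-!
# MP_a12917_nt, project SC (sign changes of the remainder in short intervals): definitions

Notation of project GT: `Ua a H x` (number of multiples of `a` in `(x, x+H]` minus `H/a`),
`S z H x = ∑_{a ≤ z} Ua a H x`, `mean L f`, `EY Y f`, `hs z = ∑_{a ≤ z} 1/a`, `Lm z`, `nd`, `ee`,
`Fk`. All functions on `ℤ`; in sums over `Ico Y (2 * Y)` the natural number `x` is cast to `ℤ`.
-/

set_option autoImplicit false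

noncomputable section

namespace Pool.Agent.MP_a12917_nt_SC

open Finset Pool.Agent.MP_a12917_nt_GT

/-- the remainder over `(x, x+H]` for integers `x`, `H` -/
def Di (H x : ℕ) : ℝ :=
  (∑ j ∈ Icc 1 H, ((Nat.divisors (x + j)).card : ℝ)) -
    H * (Real.log x + 2 * Real.eulerMascheroniConstant)

/-- `D` is the remainder term of the divisor problem -/
def IsD (D : ℝ → ℝ) : Prop :=
  ∀ x : ℝ, D x = (∑ n ∈ Finset.Icc 1 ⌊x⌋₊, ((Nat.divisors n).card : ℝ)) -
    x * (Real.log x + 2 * Real.eulerMascheroniConstant - 1)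

end Pool.Agent.MP_a12917_nt_SC
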