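import Pool.Agent.Lib.MP_a12917_nt_SC.SDefs

/-!
# MP_a12917_nt, project SC, module SFib: fibres of the map which sends D to x / D
-/

set_option autoImplicit false

noncomputable section

namespace Pool.Agent.MP_a12917_nt_SC

open Finset Pool.Agent.MP_a12917_nt_GT

private lemma fib_close (x D0 D D' : ℕ) (hx : D0 ^ 2 ≤ x) (hDpos : 0 < D)
    (hD' : D' < 2 * D0) (h : x / D = x / D') : D' < D + 4 := by
  by_contra hcon
  push Not at hcon
  have h1 : x < (x / D + 1) * D := by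
    have e1 := Nat.div_add_mod x D
    have e2 := Nat.mod_lt x hDpos
    nlinarith
  have h2 : x / D' * D' ≤ x := Nat.div_mul_le_self x D'
  rw [← h] at h2
  set z := x / D with hz
  have h3 : z * (D + 4) ≤ x := le_trans (Nat.mul_le_mul_left z hcon) h2
  have h4 : 4 * z < D := by nlinarith
  have h5 : D + 5 ≤ 2 * D0 := by omega
  have h6 : 4 * x < (D + 3) * D := by nlinarith
  nlinarith

private lemma fib_card (x D0 z : ℕ) (hx : D0 ^ 2 ≤ x) :
    ((Ico D0 (2 * D0)).filter (fun D => x / D = z)).card ≤ 4 := by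
  rcases ((Ico D0 (2 * D0)).filter (fun D => x / D = z)).eq_empty_or_nonempty with he | hne
  · rw [he]
    simp
  · obtain ⟨m, hm, hmin⟩ := exists_min_image _ (fun D : ℕ => D) hne
    have hsub : (Ico D0 (2 * D0)).filter (fun D => x / D = z) ⊆ Ico m (m + 4) := by
      intro D hD
      have h1 := hmin D hD
      rw [mem_filter, mem_Ico] at hD hm
      rw [mem_Ico]
      refine ⟨h1, ?_⟩
      exact fib_close x D0 m D hx (by omega) hD.1.2 (by rw [hm.2, hD.2])
    calc _ ≤ (Ico m (m + 4)).card := card_le_card hsub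
      _ = 4 := by simp

/-- Proof: `x / D ∈ Icc 1 (2 * Y / D0)` for `D ∈ [D0, 2 D0)`: `D ≤ 2 D0 - 1 ≤ D0² ≤ Y ≤ x`. Every
value is
taken at most `4` times: if `D < D'` and `x / D = x / D'` (natural division), then
`x/D - x/D' < 1` (real numbers), so `x (D' - D) < D D' < 4 D0² ≤ 4 x` and `D' - D < 4`
(the fibre is contained in `{D, D+1, D+2, D+3}` for its smallest element `D`). Then
`Finset.sum_fiberwise_of_maps_to` or `Finset.sum_comp`-like. -/
theorem fib (Y x D0 : ℕ) (h0 : 1 ≤ D0) (hD : D0 ^ 2 ≤ Y) (hx : Y ≤ x) (hx2 : x < 2 * Y)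
    (G : ℕ → ℝ) (hG : ∀ z, 0 ≤ G z) :
    ∑ D ∈ Ico D0 (2 * D0), G (x / D) ≤ 4 * ∑ z ∈ Icc 1 (2 * Y / D0), G z := by
  have hmaps : ∀ D ∈ Ico D0 (2 * D0), x / D ∈ Icc 1 (2 * Y / D0) := by
    intro D hDm
    rw [mem_Ico] at hDm
    rw [mem_Icc]
    constructor
    · have h1 : D ≤ x := by
        obtain ⟨e, rfl⟩ : ∃ e, D0 = e + 1 := ⟨D0 - 1, by omega⟩
        nlinarith
      exact Nat.div_pos h1 (by omega)
    · exact Nat.div_le_div hx2.le hDm.1 (by omega)
  rw [← sum_fiberwise_of_maps_to hmaps, mul_sum]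
  refine sum_le_sum fun z _ => ?_
  have h1 : ∑ D ∈ Ico D0 (2 * D0) with x / D = z, G (x / D)
      = (((Ico D0 (2 * D0)).filter (fun D => x / D = z)).card : ℝ) * G z := by
    rw [← nsmul_eq_mul, ← sum_const]
    refine sum_congr rfl fun D hD' => ?_
    rw [(mem_filter.mp hD').2]
  rw [h1]
  refine mul_le_mul_of_nonneg_right ?_ (hG z)
  exact_mod_cast fib_card x D0 z (hD.trans hx)

end Pool.Agent.MP_a12917_nt_SC
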