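import Pool.Agent.Lib.MP_a12917_nt_SC.SDefs

/-!
# MP_a12917_nt, project SC, module SHypA: Dirichlet hyperbola method, counting
-/

set_option autoImplicit false

noncomputable section

namespace Pool.Agent.MP_a12917_nt_SC

open Finset Pool.Agent.MP_a12917_nt_GT

/-- Proof: the divisors `a ≤ D` of `n`, and the divisors `a > D` of `n`; the map `a ↦ b = n/a` is
a
bijection from the latter onto the divisors `b` of `n` with `b * D < n` (`b * D < b * a = n`). -/
theorem div_split (n D : ℕ) (hn : 1 ≤ n) :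
    (Nat.divisors n).card = ((Icc 1 D).filter (fun a => a ∣ n)).card +
      ((Nat.divisors n).filter (fun b => b * D < n)).card := by
  have hn0 : n ≠ 0 := by omega
  have h1 : (Nat.divisors n).card = ((Nat.divisors n).filter (fun a => a ≤ D)).card +
      ((Nat.divisors n).filter (fun a => ¬ a ≤ D)).card :=
    (card_filter_add_card_filter_not (fun a => a ≤ D)).symm
  have h2 : (Nat.divisors n).filter (fun a => a ≤ D) = (Icc 1 D).filter (fun a => a ∣ n) := by
    ext a
    simp only [mem_filter, Nat.mem_divisors, mem_Icc]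
    constructor
    · rintro ⟨⟨h3, -⟩, h4⟩
      exact ⟨⟨Nat.pos_of_dvd_of_pos h3 (by omega), h4⟩, h3⟩
    · rintro ⟨⟨-, h4⟩, h3⟩
      exact ⟨⟨h3, hn0⟩, h4⟩
  have h5 : ((Nat.divisors n).filter (fun a => ¬ a ≤ D)).card =
      ((Nat.divisors n).filter (fun b => b * D < n)).card := by
    refine card_nbij' (fun a => n / a) (fun b => n / b) ?_ ?_ ?_ ?_
    · intro a ha
      simp only [coe_filter, Set.mem_ofPred_eq, Nat.mem_divisors] at ha ⊢
      obtain ⟨⟨h3, -⟩, h4⟩ := ha
      refine ⟨⟨Nat.div_dvd_of_dvd h3, hn0⟩, ?_⟩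
      have h6 : n / a * a = n := Nat.div_mul_cancel h3
      have h7 : 0 < n / a := Nat.div_pos (Nat.le_of_dvd (by omega) h3)
        (Nat.pos_of_dvd_of_pos h3 (by omega))
      calc n / a * D < n / a * a := Nat.mul_lt_mul_of_pos_left (by omega) h7
        _ = n := h6
    · intro b hb
      simp only [coe_filter, Set.mem_ofPred_eq, Nat.mem_divisors] at hb ⊢
      obtain ⟨⟨h3, -⟩, h4⟩ := hb
      refine ⟨⟨Nat.div_dvd_of_dvd h3, hn0⟩, ?_⟩
      have h6 : b * (n / b) = n := Nat.mul_div_cancel' h3
      intro h7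
      have h8 : b * (n / b) ≤ b * D := Nat.mul_le_mul_left _ h7
      omega
    · intro a ha
      simp only [coe_filter, Set.mem_ofPred_eq, Nat.mem_divisors] at ha
      exact Nat.div_div_self ha.1.1 hn0
    · intro b hb
      simp only [coe_filter, Set.mem_ofPred_eq, Nat.mem_divisors] at hb
      exact Nat.div_div_self hb.1.1 hn0
  rw [h1, h2, h5]

/-- Proof: let `n = x + j`, `1 ≤ j ≤ H ≤ D`. A divisor `b` of `n` with `b D < n` either satisfies
`b ≤ x / D`, or `b > x / D`, i.e. `x < b D`, and then `b D < x + D`, so `b = x / D + 1`.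
Conversely
every `b ≤ x / D` satisfies `b D ≤ x < n`. -/
theorem div_split2 (x j D H : ℕ) (hj : 1 ≤ j) (hjH : j ≤ H) (hD : H ≤ D) :
    ((Icc 1 (x / D)).filter (fun b => b ∣ x + j)).card ≤
        ((Nat.divisors (x + j)).filter (fun b => b * D < x + j)).card ∧
      ((Nat.divisors (x + j)).filter (fun b => b * D < x + j)).card ≤
        ((Icc 1 (x / D)).filter (fun b => b ∣ x + j)).card +
          (if (x / D + 1) ∣ x + j then 1 else 0) := by
  have hD0 : 0 < D := by omega
  constructor
  · apply card_le_card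
    intro b hb
    simp only [mem_filter, Nat.mem_divisors, mem_Icc] at hb ⊢
    obtain ⟨⟨-, h1⟩, h2⟩ := hb
    have h3 : b * D ≤ x := (Nat.le_div_iff_mul_le hD0).1 h1
    exact ⟨⟨h2, by omega⟩, by omega⟩
  · have hsub : (Nat.divisors (x + j)).filter (fun b => b * D < x + j) ⊆
        (Icc 1 (x / D)).filter (fun b => b ∣ x + j) ∪
          (if (x / D + 1) ∣ x + j then {x / D + 1} else ∅) := by
      intro b hb
      simp only [mem_filter, Nat.mem_divisors] at hb
      obtain ⟨⟨h1, h2⟩, h3⟩ := hb
      have hb0 : 0 < b := Nat.pos_of_dvd_of_pos h1 (by omega)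
      rw [mem_union]
      by_cases h4 : b ≤ x / D
      · left
        simp only [mem_filter, mem_Icc]
        exact ⟨⟨hb0, h4⟩, h1⟩
      · right
        have h5 : b - 1 ≤ x / D := by
          rw [Nat.le_div_iff_mul_le hD0, Nat.sub_mul]
          omega
        have h6 : b = x / D + 1 := by omega
        rw [if_pos (h6 ▸ h1), h6]
        exact mem_singleton_self _
    refine (card_le_card hsub).trans ((card_union_le _ _).trans ?_)
    gcongr
    split_ifs
    · simp
    · simp

/-- Proof: two different multiples of `b` in `(x, x+H]` would differ by less than `H ≤ b`. -/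
theorem one_mult (x b H : ℕ) (hb : H ≤ b) :
    ∑ j ∈ Icc 1 H, (if b ∣ x + j then (1 : ℝ) else 0) ≤ 1 := by
  rw [sum_boole]
  have h1 : ((Icc 1 H).filter (fun j => b ∣ x + j)).card ≤ 1 := by
    rw [card_le_one]
    intro i hi j hj
    simp only [mem_filter, mem_Icc] at hi hj
    obtain ⟨⟨i1, i2⟩, i3⟩ := hi
    obtain ⟨⟨j1, j2⟩, j3⟩ := hj
    rcases lt_trichotomy i j with h | h | h
    · exfalso
      have h2 := (Nat.dvd_sub j3 i3)
      have h3 : x + j - (x + i) = j - i := by omega
      rw [h3] at h2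
      have h4 := Nat.le_of_dvd (by omega) h2
      omega
    · exact h
    · exfalso
      have h2 := (Nat.dvd_sub i3 j3)
      have h3 : x + i - (x + j) = i - j := by omega
      rw [h3] at h2
      have h4 := Nat.le_of_dvd (by omega) h2
      omega
  exact_mod_cast h1

/-- Proof: definition of `S`, `Ua`; exchange the sums; `(a : ℤ) ∣ (x : ℤ) + (j : ℤ)` iff `a ∣ x +
j`
(`Int.natCast_dvd_natCast`). -/
theorem S_eq_sum (z H x : ℕ) :
    S z H (x : ℤ) = (∑ j ∈ Icc 1 H, (((Icc 1 z).filter (fun a => a ∣ x + j)).card : ℝ)) -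
      H * hs z := by
  unfold S Ua hs
  rw [sum_sub_distrib, sum_comm, mul_sum]
  congr 1
  · apply sum_congr rfl
    intro j _
    rw [card_filter]
    push_cast
    apply sum_congr rfl
    intro a _
    have h1 : ((a : ℤ) ∣ (x : ℤ) + (j : ℤ)) ↔ a ∣ x + j := by
      rw [← Int.natCast_dvd_natCast]
      push_cast
      rfl
    by_cases h2 : a ∣ x + j
    · rw [if_pos h2, if_pos (h1.2 h2)]
    · rw [if_neg h2, if_neg (fun h => h2 (h1.1 h))]
  · apply sum_congr rfl
    intro a _
    rw [mul_one_div]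

end Pool.Agent.MP_a12917_nt_SC
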