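import Pool.Agent.Lib.MP_a12917_nt_SC.SDefs
import Pool.Agent.Lib.MP_a12917_nt_GT.LowB

/-!
# MP_a12917_nt, project SC, module SPar: choice of the parameter `z`
-/

set_option autoImplicit false

noncomputable section

namespace Pool.Agent.MP_a12917_nt_SC

open Finset Pool.Agent.MP_a12917_nt_GT

/-- Proof: for `Y ≥ 2`, `Y^ε ≤ Y^(1/4-ε)` gives `ε ≤ 1/8`. `z = ⌊Y^(1/4 - ε/2)⌋₊`, so
`Y^(1/4-ε/2)/2 ≤ z ≤ Y^(1/4-ε/2)` for large `Y`. Then: `z^ε ≤ Y^(ε/4) ≤ Y^ε ≤ H`;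
`z^(1-ε) ≥ (1/2) Y^((1/4-ε/2)(1-ε)) = (1/2) Y^(1/4-3ε/4+ε²/2) ≥ Y^(1/4-ε) ≥ H` for large `Y`;
`z^(4+ε) ≤ Y^((1/4-ε/2)(4+ε)) = Y^(1-7ε/4-ε²/2) ≤ Y`; `hs Y ≤ 1 + log Y ≤ 8 (1/4-ε/2) log Y - 8
log 2 ≤ 8 log z
≤ 8 hs z` for large `Y` (`hs_le_log`, `log_le_hs`, `8 (1/4 - ε/2) ≥ 3/2`);
`H z ≤ Y^(1/4-ε+1/4-ε/2) = Y^(1/2-3ε/2) ≤ η √Y` for large `Y`; `H⁴ ≤ Y^(1-4ε) ≤ Y`, `H² ≤
Y^(1/2-2ε)`
and `z ≤ Y^(1/4)` are at most `Nat.sqrt Y` (`Nat.le_sqrt`); `H ≥ Y^ε ≥ M` for large `Y`. -/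
theorem param (ε η : ℝ) (hε : 0 < ε) (hη : 0 < η) (z0 M : ℕ) : ∃ Y0 : ℕ, ∀ Y H : ℕ, Y0 ≤ Y →
    (Y : ℝ) ^ ε ≤ H → (H : ℝ) ≤ (Y : ℝ) ^ (1 / 4 - ε) →
    2 ≤ Y ∧ M ≤ H ∧ H ^ 4 ≤ Y ∧ H ^ 2 ≤ Nat.sqrt Y ∧ ∃ z : ℕ, z0 ≤ z ∧ 1 ≤ z ∧
      (z : ℝ) ^ ε ≤ H ∧ (H : ℝ) ≤ (z : ℝ) ^ (1 - ε) ∧ (z : ℝ) ^ (4 + ε) ≤ Y ∧
      hs Y ≤ 8 * hs z ∧ (H : ℝ) * z ≤ η * √Y ∧ z ≤ Nat.sqrt Y := by
  by_cases hε8 : ε ≤ 1 / 8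
  swap
  · refine ⟨2, fun Y H hY h1 h2 => ?_⟩
    exfalso
    push Not at hε8
    have hY1 : (1 : ℝ) < Y := by exact_mod_cast (by omega : 1 < Y)
    have h3 := h1.trans h2
    have h4 : (Y : ℝ) ^ (1 / 4 - ε) < (Y : ℝ) ^ ε :=
      Real.rpow_lt_rpow_of_exponent_lt hY1 (by linarith)
    linarith
  obtain ⟨α, hα⟩ : ∃ α : ℝ, α = 1 / 4 - ε / 2 := ⟨_, rfl⟩
  have hα0 : 3 / 16 ≤ α := by rw [hα]; linarith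
  have hα1 : α ≤ 1 / 4 := by rw [hα]; linarith
  have hcast : Filter.Tendsto (fun Y : ℕ => (Y : ℝ)) Filter.atTop Filter.atTop :=
    tendsto_natCast_atTop_atTop
  have ev : ∀ (t c : ℝ), 0 < t → ∀ᶠ Y : ℕ in Filter.atTop, c ≤ (Y : ℝ) ^ t := fun t c ht =>
    ((tendsto_rpow_atTop ht).comp hcast).eventually_ge_atTop c
  have e1 := ev ε M hε
  have e2 := ev α (max z0 2) (by linarith)
  have e3 := ev (ε / 4) 2 (by linarith)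
  have e4 := ev (3 * ε / 2) (1 / η) (by linarith)
  have e5 : ∀ᶠ Y : ℕ in Filter.atTop, 2 ≤ Real.log (Y : ℝ) :=
    (Real.tendsto_log_atTop.comp hcast).eventually_ge_atTop 2
  have e6 : ∀ᶠ Y : ℕ in Filter.atTop, 2 ≤ Y := Filter.eventually_ge_atTop 2
  obtain ⟨Y0, hY0⟩ := Filter.eventually_atTop.1
    (e1.and (e2.and (e3.and (e4.and (e5.and e6)))))
  refine ⟨Y0, fun Y H hY h1 h2 => ?_⟩
  obtain ⟨f1, f2, f3, f4, f5, f6⟩ := hY0 Y hY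
  have hy1 : (1 : ℝ) ≤ Y := by exact_mod_cast (by omega : 1 ≤ Y)
  have hy0 : (0 : ℝ) < Y := by linarith
  have mono : ∀ {s t : ℝ}, s ≤ t → (Y : ℝ) ^ s ≤ (Y : ℝ) ^ t := fun h =>
    Real.rpow_le_rpow_of_exponent_le hy1 h
  have hH0 : (0 : ℝ) ≤ H := Nat.cast_nonneg H
  have hMH : M ≤ H := by exact_mod_cast f1.trans h1
  have hH4 : H ^ 4 ≤ Y := by
    have h3 : ((H : ℝ)) ^ 4 ≤ ((Y : ℝ) ^ (1 / 4 - ε)) ^ 4 := pow_le_pow_left₀ hH0 h2 4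
    have h4 : ((Y : ℝ) ^ (1 / 4 - ε)) ^ 4 = (Y : ℝ) ^ ((1 / 4 - ε) * 4) := by
      rw [← Real.rpow_natCast, ← Real.rpow_mul hy0.le]
      norm_num
    have h5 : (Y : ℝ) ^ ((1 / 4 - ε) * 4) ≤ (Y : ℝ) ^ (1 : ℝ) := mono (by linarith)
    rw [Real.rpow_one] at h5
    rw [h4] at h3
    exact_mod_cast h3.trans h5
  obtain ⟨z, hz⟩ : ∃ z : ℕ, z = ⌊(Y : ℝ) ^ α⌋₊ := ⟨_, rfl⟩
  have hyα : (0 : ℝ) < (Y : ℝ) ^ α := Real.rpow_pos_of_pos hy0 α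
  have hzle : (z : ℝ) ≤ (Y : ℝ) ^ α := by
    rw [hz]
    exact Nat.floor_le hyα.le
  have hzlt : (Y : ℝ) ^ α < (z : ℝ) + 1 := by
    rw [hz]
    exact Nat.lt_floor_add_one _
  have hmax1 : (z0 : ℝ) ≤ (Y : ℝ) ^ α := (le_max_left _ _).trans f2
  have hmax2 : (2 : ℝ) ≤ (Y : ℝ) ^ α := (le_max_right _ _).trans f2
  have hz0 : z0 ≤ z := by
    rw [hz]
    exact Nat.le_floor hmax1
  have hz1 : 1 ≤ z := by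
    rw [hz]
    exact Nat.le_floor (by push_cast; linarith)
  have hzr0 : (0 : ℝ) ≤ z := Nat.cast_nonneg z
  have hzhalf : (Y : ℝ) ^ α / 2 ≤ z := by linarith
  refine ⟨f6, hMH, hH4, ?_, z, hz0, hz1, ?_, ?_, ?_, ?_, ?_, ?_⟩
  · rw [Nat.le_sqrt]
    calc H ^ 2 * H ^ 2 = H ^ 4 := by ring
      _ ≤ Y := hH4
  · calc (z : ℝ) ^ ε ≤ ((Y : ℝ) ^ α) ^ ε := Real.rpow_le_rpow hzr0 hzle hε.le
      _ = (Y : ℝ) ^ (α * ε) := by rw [← Real.rpow_mul hy0.le]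
      _ ≤ (Y : ℝ) ^ ε := mono (by nlinarith)
      _ ≤ H := h1
  · have h3 : ((Y : ℝ) ^ α / 2) ^ (1 - ε) ≤ (z : ℝ) ^ (1 - ε) :=
      Real.rpow_le_rpow (by positivity) hzhalf (by linarith)
    have h4 : ((Y : ℝ) ^ α / 2) ^ (1 - ε) = (Y : ℝ) ^ (α * (1 - ε)) / 2 ^ (1 - ε) := by
      rw [Real.div_rpow hyα.le (by norm_num), ← Real.rpow_mul hy0.le]
    have h5 : (2 : ℝ) ^ (1 - ε) ≤ 2 := by
      calc (2 : ℝ) ^ (1 - ε) ≤ (2 : ℝ) ^ (1 : ℝ) :=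
            Real.rpow_le_rpow_of_exponent_le (by norm_num) (by linarith)
        _ = 2 := Real.rpow_one 2
    have h6 : (Y : ℝ) ^ (1 / 4 - ε) * (Y : ℝ) ^ (ε / 4) ≤ (Y : ℝ) ^ (α * (1 - ε)) := by
      rw [← Real.rpow_add hy0]
      refine mono ?_
      rw [hα]
      nlinarith [sq_nonneg ε]
    have hp : (0 : ℝ) < (Y : ℝ) ^ (1 / 4 - ε) := Real.rpow_pos_of_pos hy0 _
    have h7 : (Y : ℝ) ^ (1 / 4 - ε) ≤ (Y : ℝ) ^ (α * (1 - ε)) / 2 ^ (1 - ε) := by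
      have h2p : (0 : ℝ) < (2 : ℝ) ^ (1 - ε) := Real.rpow_pos_of_pos (by norm_num) _
      rw [le_div_iff₀ h2p]
      calc (Y : ℝ) ^ (1 / 4 - ε) * 2 ^ (1 - ε) ≤ (Y : ℝ) ^ (1 / 4 - ε) * 2 :=
            mul_le_mul_of_nonneg_left h5 hp.le
        _ ≤ (Y : ℝ) ^ (1 / 4 - ε) * (Y : ℝ) ^ (ε / 4) := mul_le_mul_of_nonneg_left f3 hp.le
        _ ≤ _ := h6
    rw [← h4] at h7
    exact h2.trans (h7.trans h3)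
  · calc (z : ℝ) ^ (4 + ε) ≤ ((Y : ℝ) ^ α) ^ (4 + ε) :=
          Real.rpow_le_rpow hzr0 hzle (by linarith)
      _ = (Y : ℝ) ^ (α * (4 + ε)) := by rw [← Real.rpow_mul hy0.le]
      _ ≤ (Y : ℝ) ^ (1 : ℝ) := mono (by rw [hα]; nlinarith [sq_nonneg ε])
      _ = Y := Real.rpow_one _
  · have h3 := hs_le_log Y
    have h4 := log_le_hs z
    have h5 : α * Real.log Y ≤ Real.log ((z : ℝ) + 1) := by
      rw [← Real.log_rpow hy0]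
      exact Real.log_le_log hyα hzlt.le
    nlinarith
  · have h3 : (H : ℝ) * z ≤ (Y : ℝ) ^ (1 / 4 - ε) * (Y : ℝ) ^ α :=
      mul_le_mul h2 hzle hzr0 (Real.rpow_pos_of_pos hy0 _).le
    have h4 : (Y : ℝ) ^ (1 / 4 - ε) * (Y : ℝ) ^ α * (Y : ℝ) ^ (3 * ε / 2) = √Y := by
      rw [← Real.rpow_add hy0, ← Real.rpow_add hy0, Real.sqrt_eq_rpow]
      refine congrArg _ ?_
      rw [hα]
      ring
    have h5 : 1 ≤ η * (Y : ℝ) ^ (3 * ε / 2) := by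
      rw [div_le_iff₀ hη] at f4
      linarith
    have hp : (0 : ℝ) ≤ (Y : ℝ) ^ (1 / 4 - ε) * (Y : ℝ) ^ α := by positivity
    calc (H : ℝ) * z ≤ (Y : ℝ) ^ (1 / 4 - ε) * (Y : ℝ) ^ α * 1 := by rw [mul_one]; exact h3
      _ ≤ (Y : ℝ) ^ (1 / 4 - ε) * (Y : ℝ) ^ α * (η * (Y : ℝ) ^ (3 * ε / 2)) :=
          mul_le_mul_of_nonneg_left h5 hp
      _ = η * √Y := by rw [← h4]; ring
  · rw [Nat.le_sqrt]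
    have h3 : (z : ℝ) * z ≤ (Y : ℝ) ^ α * (Y : ℝ) ^ α := mul_le_mul hzle hzle hzr0 hyα.le
    have h4 : (Y : ℝ) ^ α * (Y : ℝ) ^ α ≤ Y := by
      rw [← Real.rpow_add hy0]
      calc (Y : ℝ) ^ (α + α) ≤ (Y : ℝ) ^ (1 : ℝ) := mono (by linarith)
        _ = Y := Real.rpow_one _
    exact_mod_cast h3.trans h4

end Pool.Agent.MP_a12917_nt_SC
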