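import Pool.Agent.Lib.MP_a12917_nt_SC.SUpp
import Pool.Agent.Lib.MP_a12917_nt_SC.SCor
import Pool.Agent.Lib.MP_a12917_nt_SC.SPar
import Pool.Agent.Lib.MP_a12917_nt_SC.SAbs
import Pool.Agent.Lib.MP_a12917_nt_GT.LowB

/-!
# MP_a12917_nt, project SC, module SLow: lower bound for the first moment, integer variables
-/

set_option autoImplicit false

noncomputable section

namespace Pool.Agent.MP_a12917_nt_SC

open Finset Pool.Agent.MP_a12917_nt_GT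

/-- Proof: take `c0` from `low_b` (module GT/LowB; `ε < 1` since otherwise `Y^ε ≤ Y^(1/4-ε)` is
impossible for `Y ≥ 2`), `C` from `upper`, `z` from `param` with `η = c0/200`, `M` large, `z0`
large, and
`σ = √(mean S²)`, so `σ² ≥ c0 H hs(z)³ ≥ c0 H`, and `σ² ≥ (c0/512) H hs(Y)³` because `hs Y ≤ 8 hs
z`.
`corr` gives `∑ Di S ≥ 2Yσ² - 100 H (H z) √Y - 4 ∑ |S| ≥ Yσ²`, because
`100 H (H z) √Y ≤ 100 η H Y ≤ Yσ²/2` and `∑ |S| ≤ √Y √(5 Y σ²)`, `4 √5 Y σ ≤ Yσ²/2` for `σ ≥ 8 √5`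
(`σ² ≥ c0 H ≥ c0 M`). Now `abs_low` with `n = Y`, `A = 512 C/c0`, `B = 100` (`upper`, `four`). -/
theorem lower (ε : ℝ) (hε : 0 < ε) : ∃ c : ℝ, 0 < c ∧ ∃ Y0 : ℕ, ∀ Y H : ℕ, Y0 ≤ Y →
    (Y : ℝ) ^ ε ≤ H → (H : ℝ) ≤ (Y : ℝ) ^ (1 / 4 - ε) →
    c * Y * √(H * hs Y ^ 3) ≤ ∑ x ∈ Ico Y (2 * Y), |Di H x| := by
  by_cases hε1 : ε < 1
  swap
  · refine ⟨1, one_pos, 2, fun Y H hY h1 h2 => ?_⟩
    exfalso
    push Not at hε1
    have hY1 : (1 : ℝ) < Y := by exact_mod_cast (by omega : 1 < Y)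
    have h3 := h1.trans h2
    have h4 : (Y : ℝ) ^ (1 / 4 - ε) < (Y : ℝ) ^ ε :=
      Real.rpow_lt_rpow_of_exponent_lt hY1 (by linarith)
    linarith
  obtain ⟨c0, hc0, z1, hlow⟩ := low_b ε hε hε1
  obtain ⟨C, hC, hup⟩ := upper
  obtain ⟨z2, hfour⟩ := four ε hε
  obtain ⟨Y0, hpar⟩ := param ε (c0 / 200) hε (by positivity) (max z1 z2) (max 1 ⌈320 / c0⌉₊)
  set A : ℝ := 512 * C / c0 with hAdef
  have hA : 0 < A := by positivity
  refine ⟨√(c0 / 512) / (4 * √(A * 100)), by positivity, Y0, fun Y H hY h1 h2 => ?_⟩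
  obtain ⟨hY2, hMH, hH4, hH2, z, hz0, hz1, hzH, hHz, hzY, h8, hHzY, hzs⟩ := hpar Y H hY h1 h2
  have hH1 : 1 ≤ H := (le_max_left _ _).trans hMH
  have hHr : (1 : ℝ) ≤ H := by exact_mod_cast hH1
  have hYr : (0 : ℝ) < Y := by exact_mod_cast (by omega : 0 < Y)
  obtain ⟨m, hm⟩ : ∃ m : ℝ, m = mean (Lm z) (fun x => S z H x ^ 2) := ⟨_, rfl⟩
  have hlow1 : c0 * H * hs z ^ 3 ≤ m := by
    rw [hm]
    exact hlow z ((le_max_left _ _).trans hz0) H hH1 hHz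
  obtain ⟨hf2, hf4⟩ := hfour z ((le_max_right _ _).trans hz0) H hzH hHz Y hzY
  rw [← hm] at hf2 hf4
  have hhs1 : 1 ≤ hs z := one_le_hs z hz1
  have hhs3 : 1 ≤ hs z ^ 3 := one_le_pow₀ hhs1
  have hcH : c0 * H ≤ m := by
    have h3 : c0 * H * 1 ≤ c0 * H * hs z ^ 3 :=
      mul_le_mul_of_nonneg_left hhs3 (by positivity)
    linarith
  have h320 : 320 ≤ m := by
    have h3 : 320 / c0 ≤ H := by
      have h4 : (⌈320 / c0⌉₊ : ℝ) ≤ H := by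
        exact_mod_cast (le_max_right _ _).trans hMH
      exact (Nat.le_ceil _).trans h4
    have h5 : 320 ≤ c0 * H := by
      rw [div_le_iff₀ hc0] at h3
      linarith
    linarith
  have hm0 : 0 < m := by linarith
  have hσ : 0 < √m := Real.sqrt_pos.2 hm0
  have hσ2 : √m ^ 2 = m := Real.sq_sqrt hm0.le
  -- the correlation
  have hcor := corr z H Y hz1 hH1 hH2 hzs
  rw [← hm] at hcor
  have hb1 : 100 * (H : ℝ) ^ 2 * (z * √Y) ≤ Y * m / 2 := by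
    have e1 : 100 * (H : ℝ) ^ 2 * (z * √Y) = 100 * H * ((H * z) * √Y) := by ring
    have e2 : (H : ℝ) * z * √Y ≤ c0 / 200 * √Y * √Y :=
      mul_le_mul_of_nonneg_right hHzY (Real.sqrt_nonneg _)
    have e3 : c0 / 200 * √Y * √Y = c0 / 200 * Y := by
      rw [mul_assoc, Real.mul_self_sqrt hYr.le]
    rw [e3] at e2
    have e4 : 100 * (H : ℝ) * ((H * z) * √Y) ≤ 100 * H * (c0 / 200 * Y) :=
      mul_le_mul_of_nonneg_left e2 (by positivity)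
    have e5 : 100 * (H : ℝ) * (c0 / 200 * Y) = Y * (c0 * H) / 2 := by ring
    have e6 : (Y : ℝ) * (c0 * H) ≤ Y * m := mul_le_mul_of_nonneg_left hcH hYr.le
    rw [e1]
    linarith
  have hb2 : ∑ x ∈ Ico Y (2 * Y), |S z H (x : ℤ)| ≤ Y * m / 8 := by
    have e1 : (∑ x ∈ Ico Y (2 * Y), |S z H (x : ℤ)|) ^ 2 ≤
        Y * ∑ x ∈ Ico Y (2 * Y), S z H (x : ℤ) ^ 2 := by
      have e2 := sq_sum_le_card_mul_sum_sq (s := Ico Y (2 * Y))
        (f := fun x : ℕ => |S z H (x : ℤ)|)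
      have e3 : ((Ico Y (2 * Y)).card : ℝ) = Y := by
        rw [Nat.card_Ico]
        have : 2 * Y - Y = Y := by omega
        rw [this]
      rw [e3] at e2
      simpa only [sq_abs] using e2
    have e4 : (∑ x ∈ Ico Y (2 * Y), |S z H (x : ℤ)|) ^ 2 ≤ (Y * m / 8) ^ 2 := by
      have e5 : (Y : ℝ) * ∑ x ∈ Ico Y (2 * Y), S z H (x : ℤ) ^ 2 ≤ Y * (5 * Y * m) :=
        mul_le_mul_of_nonneg_left hf2 hYr.le
      have e6 : (Y : ℝ) * (5 * Y * m) ≤ (Y * m / 8) ^ 2 := by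
        have e7 : (Y * m / 8) ^ 2 - (Y : ℝ) * (5 * Y * m) = Y ^ 2 * m * (m - 320) / 64 := by ring
        have e8 : 0 ≤ (Y : ℝ) ^ 2 * m * (m - 320) / 64 := by
          have : 0 ≤ m - 320 := by linarith
          positivity
        linarith
      linarith
    exact le_of_sq_le_sq e4 (by positivity)
  have hk1 : (Y : ℝ) * √m ^ 2 ≤ ∑ x ∈ Ico Y (2 * Y), Di H x * S z H (x : ℤ) := by
    rw [hσ2]
    linarith
  have hhY : hs Y ^ 3 ≤ 512 * hs z ^ 3 := by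
    have e1 : hs Y ^ 3 ≤ (8 * hs z) ^ 3 := pow_le_pow_left₀ (hs_nonneg _) h8 3
    have e2 : (8 * hs z) ^ 3 = 512 * hs z ^ 3 := by ring
    linarith
  have hHY : c0 / 512 * (H * hs Y ^ 3) ≤ m := by
    have e1 : (H : ℝ) * hs Y ^ 3 ≤ H * (512 * hs z ^ 3) :=
      mul_le_mul_of_nonneg_left hhY (by positivity)
    have e2 : c0 / 512 * (H * hs Y ^ 3) ≤ c0 / 512 * (H * (512 * hs z ^ 3)) :=
      mul_le_mul_of_nonneg_left e1 (by positivity)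
    have e3 : c0 / 512 * (H * (512 * hs z ^ 3)) = c0 * H * hs z ^ 3 := by ring
    linarith
  have hk2 : ∑ x ∈ Ico Y (2 * Y), Di H x ^ 2 ≤ A * Y * √m ^ 2 := by
    rw [hσ2]
    refine (hup Y H hH1 hH4).trans ?_
    have e1 : C * Y * (H * hs Y ^ 3) = (512 * C / c0) * Y * (c0 / 512 * (H * hs Y ^ 3)) := by
      field_simp
    rw [e1, ← hAdef]
    exact mul_le_mul_of_nonneg_left hHY (by positivity)
  have hk4 : ∑ x ∈ Ico Y (2 * Y), S z H (x : ℤ) ^ 4 ≤ 100 * Y * √m ^ 4 := by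
    have e1 : √m ^ 4 = m ^ 2 := by
      have : √m ^ 4 = (√m ^ 2) ^ 2 := by ring
      rw [this, hσ2]
    rw [e1]
    exact hf4
  have hfin := abs_low (Ico Y (2 * Y)) (fun x => Di H x) (fun x => S z H (x : ℤ)) Y (√m) A 100
    hYr hσ hA (by norm_num) hk1 hk2 hk4
  refine le_trans ?_ hfin
  have hsq : √(c0 / 512) * √(H * hs Y ^ 3) ≤ √m := by
    rw [← Real.sqrt_mul (by positivity)]
    exact Real.sqrt_le_sqrt hHY
  have e1 : √(c0 / 512) / (4 * √(A * 100)) * Y * √(H * hs Y ^ 3) =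
      Y * (√(c0 / 512) * √(H * hs Y ^ 3)) / (4 * √(A * 100)) := by ring
  rw [e1]
  exact div_le_div_of_nonneg_right (mul_le_mul_of_nonneg_left hsq hYr.le) (by positivity)

end Pool.Agent.MP_a12917_nt_SC
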