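import Pool.Agent.Lib.MP_a12917_nt_SC.SDefs
import Pool.Agent.Lib.MP_a12917_nt_GT.Bil
import Pool.Agent.Lib.MP_a12917_nt_GT.Fk

/-!
# MP_a12917_nt, project SC, module SLs: large sieve inequality without loss of a logarithm
-/

set_option autoImplicit false

noncomputable section

namespace Pool.Agent.MP_a12917_nt_SC

open Finset Pool.Agent.MP_a12917_nt_GT

private theorem SLs_nd_neg_le (ρ : ℚ) : nd (-ρ) ≤ nd ρ := by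
  have h1 := round_le (-ρ) (-round ρ)
  have h2 : nd (-ρ) = ((|-ρ - round (-ρ)| : ℚ) : ℝ) := by
    unfold nd
    rw [Rat.cast_abs]
  have h3 : nd ρ = ((|-ρ - ((-round ρ : ℤ) : ℚ)| : ℚ) : ℝ) := by
    unfold nd
    rw [Rat.cast_abs, ← abs_neg]
    congr 1
    push_cast
    ring
  rw [h2, h3]
  exact_mod_cast h1

private theorem SLs_nd_neg (ρ : ℚ) : nd (-ρ) = nd ρ := by
  refine le_antisymm (SLs_nd_neg_le ρ) ?_
  have h := SLs_nd_neg_le (-ρ)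
  rwa [neg_neg] at h

private theorem SLs_sq (N : ℕ) : ∑ i ∈ Icc 1 N, ((i : ℝ) ^ 2)⁻¹ ≤ 2 := by
  rcases Nat.eq_zero_or_pos N with h0 | h0
  · rw [h0]
    simp
  · obtain ⟨M, rfl⟩ : ∃ M, N = M + 1 := ⟨N - 1, by omega⟩
    have h : ∀ M : ℕ, ∑ i ∈ Icc 1 (M + 1), ((i : ℝ) ^ 2)⁻¹ ≤ 2 - 1 / ((M : ℝ) + 1) := by
      intro M
      induction M with
      | zero => simp; norm_num
      | succ M ih =>
        rw [sum_Icc_succ_top (by omega)]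
        refine (add_le_add_left ih _).trans ?_
        push_cast
        have h1 : (0 : ℝ) < (M : ℝ) + 1 := by positivity
        have h2 : (0 : ℝ) < (M : ℝ) + 1 + 1 := by positivity
        have h3 : 1 / ((M : ℝ) + 1) - 1 / ((M : ℝ) + 1 + 1) =
            1 / (((M : ℝ) + 1) * ((M : ℝ) + 1 + 1)) := by
          field_simp
          ring
        have h4 : (((M : ℝ) + 1 + 1) ^ 2)⁻¹ ≤ 1 / (((M : ℝ) + 1) * ((M : ℝ) + 1 + 1)) := by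
          rw [inv_eq_one_div]
          refine one_div_le_one_div_of_le (by positivity) ?_
          nlinarith
        linarith
    have h1 := h M
    have h2 : (0 : ℝ) ≤ 1 / ((M : ℝ) + 1) := by positivity
    linarith

/-- Proof: copy of the proof of `Pool.Agent.MP_a12917_nt_GT.spc` (module GT/Spc): the `τ` with
`j = ⌊nd (τ + α) / δ⌋` satisfy `j ≥ 1`, `nd (τ + α) ≥ j δ`, and there are at most two of them for
every `j`. So the sum is `≤ ∑_j 2/(jδ)² ≤ (2/δ²) ∑_{j ≥ 1} 1/j² ≤ 4/δ²`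
(`∑_{j ≤ N} 1/j² ≤ 2 - 1/N` by induction, or `sum_Ioc_inv_sq_le_sub`-type lemmas). -/
theorem spc2 (T : Finset ℚ) (δ : ℝ) (hδ : 0 < δ) (hδ1 : δ ≤ 1)
    (hs : ∀ τ ∈ T, ∀ τ' ∈ T, τ ≠ τ' → δ ≤ nd (τ - τ')) (α : ℚ)
    (hα : ∀ τ ∈ T, nd (τ + α) ≠ 0 → δ ≤ nd (τ + α)) :
    ∑ τ ∈ T, 1 / nd (τ + α) ^ 2 ≤ 4 / δ ^ 2 := by
  obtain ⟨T', hT'⟩ : ∃ T', T' = T.filter (fun τ => nd (τ + α) ≠ 0) := ⟨_, rfl⟩
  have hred : ∑ τ ∈ T, 1 / nd (τ + α) ^ 2 = ∑ τ ∈ T', 1 / nd (τ + α) ^ 2 := by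
    rw [hT', sum_filter]
    refine sum_congr rfl fun τ _ => ?_
    split_ifs with h
    · rfl
    · rw [not_not] at h
      rw [h]
      norm_num
  rw [hred]
  obtain ⟨N, hN⟩ : ∃ N : ℕ, N = ⌊1 / (2 * δ)⌋₊ := ⟨_, rfl⟩
  obtain ⟨j, hj⟩ : ∃ j : ℚ → ℕ, ∀ τ, j τ = ⌊nd (τ + α) / δ⌋₊ := ⟨_, fun _ => rfl⟩
  obtain ⟨r, hr⟩ : ∃ r : ℚ → ℝ, ∀ τ, r τ = ((τ + α - round (τ + α) : ℚ) : ℝ) :=
    ⟨_, fun _ => rfl⟩
  have hnd : ∀ τ, nd (τ + α) = |r τ| := fun τ => by rw [hr]; rfl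
  have hj1 : ∀ τ, (j τ : ℝ) * δ ≤ nd (τ + α) := by
    intro τ
    have h1 := Nat.floor_le (div_nonneg (nd_nonneg (τ + α)) hδ.le)
    rw [← hj, le_div_iff₀ hδ] at h1
    exact h1
  have hj2 : ∀ τ, nd (τ + α) < ((j τ : ℝ) + 1) * δ := by
    intro τ
    have h1 := Nat.lt_floor_add_one (nd (τ + α) / δ)
    rw [← hj, div_lt_iff₀ hδ] at h1
    exact h1
  have hmem : ∀ τ ∈ T', τ ∈ T ∧ δ ≤ nd (τ + α) := by
    intro τ hτ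
    rw [hT'] at hτ
    obtain ⟨h1, h2⟩ := mem_filter.1 hτ
    exact ⟨h1, hα τ h1 h2⟩
  have hj3 : ∀ τ ∈ T', 1 ≤ j τ := by
    intro τ hτ
    rw [hj]
    refine Nat.le_floor ?_
    rw [Nat.cast_one, le_div_iff₀ hδ, one_mul]
    exact (hmem τ hτ).2
  have hj4 : ∀ τ, j τ ≤ N := by
    intro τ
    rw [hj, hN]
    refine Nat.floor_le_floor ?_
    rw [div_le_div_iff₀ hδ (by positivity)]
    have := nd_le_half (τ + α)
    nlinarith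
  have hinj : Set.InjOn (fun τ => (j τ, decide (0 < r τ))) (T' : Set ℚ) := by
    intro τ hτ τ' hτ' hE
    have hE1 : j τ = j τ' := congrArg Prod.fst hE
    have hE2 : decide (0 < r τ) = decide (0 < r τ') := congrArg Prod.snd hE
    by_contra hne
    have h1 := hs τ (hmem τ hτ).1 τ' (hmem τ' hτ').1 hne
    have h2 : |r τ - r τ'| < δ := by
      have a1 := hj1 τ
      have a2 := hj2 τ
      have b1 := hj1 τ'
      have b2 := hj2 τ'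
      rw [hnd] at a1 a2 b1 b2
      rw [← hE1] at b1 b2
      by_cases h3 : 0 < r τ
      · have h4 : 0 < r τ' := by
          rw [decide_eq_true h3] at hE2
          exact of_decide_eq_true hE2.symm
        rw [abs_of_pos h3] at a1 a2
        rw [abs_of_pos h4] at b1 b2
        rw [abs_lt]
        constructor <;> nlinarith
      · have h4 : ¬ 0 < r τ' := by
          rw [decide_eq_false h3] at hE2
          exact of_decide_eq_false hE2.symm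
        rw [abs_of_nonpos (not_lt.1 h3)] at a1 a2
        rw [abs_of_nonpos (not_lt.1 h4)] at b1 b2
        rw [abs_lt]
        constructor <;> nlinarith
    rw [hr, hr] at h2
    have h5 := Spc.close τ τ' α δ h2
    linarith
  have hF : ∑ τ ∈ T', 1 / nd (τ + α) ^ 2 ≤
      ∑ τ ∈ T', (fun x : ℕ × Bool => 1 / ((x.1 : ℝ) * δ) ^ 2) (j τ, decide (0 < r τ)) := by
    refine sum_le_sum fun τ hτ => ?_
    have h1 : (1 : ℝ) ≤ j τ := by exact_mod_cast hj3 τ hτ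
    have h2 : 0 < (j τ : ℝ) * δ := mul_pos (by linarith) hδ
    exact one_div_le_one_div_of_le (by positivity) (pow_le_pow_left₀ h2.le (hj1 τ) 2)
  refine hF.trans ?_
  have hI := sum_image (f := fun x : ℕ × Bool => 1 / ((x.1 : ℝ) * δ) ^ 2) hinj
  refine hI.symm.le.trans ?_
  have hsub : T'.image (fun τ => (j τ, decide (0 < r τ))) ⊆
      (Icc 1 N) ×ˢ (univ : Finset Bool) := by
    intro x hx
    obtain ⟨τ, hτ, rfl⟩ := mem_image.1 hx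
    exact mem_product.2 ⟨mem_Icc.2 ⟨hj3 τ hτ, hj4 τ⟩, mem_univ _⟩
  refine (sum_le_sum_of_subset_of_nonneg hsub fun x _ _ => by positivity).trans ?_
  rw [sum_product]
  have h1 : ∀ i ∈ Icc 1 N, ∑ _b : Bool, 1 / ((i : ℝ) * δ) ^ 2 = 2 / δ ^ 2 * ((i : ℝ) ^ 2)⁻¹ := by
    intro i _
    rw [sum_const, card_univ, Fintype.card_bool, nsmul_eq_mul, mul_pow, one_div, mul_inv,
      div_eq_mul_inv]
    push_cast
    ring
  rw [sum_congr rfl h1, ← mul_sum]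
  have h2 : (0 : ℝ) < 2 / δ ^ 2 := by positivity
  calc 2 / δ ^ 2 * ∑ i ∈ Icc 1 N, ((i : ℝ) ^ 2)⁻¹ ≤ 2 / δ ^ 2 * 2 :=
        mul_le_mul_of_nonneg_left (SLs_sq N) h2.le
    _ = 4 / δ ^ 2 := by ring

/-- Proof: `x = Y + m` with `m < Y`; there are `2Y - m ≥ Y` pairs `(j, k)` of numbers `< 2Y` with
`j - k = m` (namely `(k + m, k)`, `k < 2Y - m`), so
`∑_{j,k} g(Y+j-k) ≥ ∑_{m<Y} ∑_{k<2Y-m} g(Y+m) ≥ Y ∑_{m<Y} g(Y+m)` (`g ≥ 0`, injectivity of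
`(m, k) ↦ (k+m, k)`). -/
theorem tri (g : ℤ → ℝ) (hg : ∀ x, 0 ≤ g x) (Y : ℕ) :
    Y * ∑ x ∈ Ico Y (2 * Y), g (x : ℤ) ≤
      ∑ j ∈ range (2 * Y), ∑ k ∈ range (2 * Y), g ((Y : ℤ) + (j : ℤ) - (k : ℤ)) := by
  rw [sum_comm]
  have h1 : ∀ k ∈ range Y, ∑ x ∈ Ico Y (2 * Y), g (x : ℤ) ≤
      ∑ j ∈ range (2 * Y), g ((Y : ℤ) + (j : ℤ) - (k : ℤ)) := by
    intro k hk
    have hk' := mem_range.1 hk
    have e : ∑ x ∈ Ico Y (2 * Y), g (x : ℤ) =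
        ∑ j ∈ Ico k (k + Y), g ((Y : ℤ) + (j : ℤ) - (k : ℤ)) := by
      rw [sum_Ico_eq_sum_range, sum_Ico_eq_sum_range]
      have a1 : 2 * Y - Y = Y := by omega
      have a2 : k + Y - k = Y := by omega
      rw [a1, a2]
      refine sum_congr rfl fun i _ => ?_
      congr 1
      push_cast
      ring
    rw [e]
    refine sum_le_sum_of_subset_of_nonneg ?_ (fun _ _ _ => hg _)
    intro j hj
    rw [mem_Ico] at hj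
    rw [mem_range]
    omega
  calc (Y : ℝ) * ∑ x ∈ Ico Y (2 * Y), g (x : ℤ) =
        ∑ k ∈ range Y, ∑ x ∈ Ico Y (2 * Y), g (x : ℤ) := by
        rw [sum_const, card_range, nsmul_eq_mul]
    _ ≤ ∑ k ∈ range Y, ∑ j ∈ range (2 * Y), g ((Y : ℤ) + (j : ℤ) - (k : ℤ)) := sum_le_sum h1
    _ ≤ _ := sum_le_sum_of_subset_of_nonneg (range_subset_range.2 (by omega))
        (fun k _ _ => sum_nonneg fun j _ => hg _)

private theorem SLs_dbl (K : ℕ) (ρ : ℚ) (c : ℤ) :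
    ∑ j ∈ range K, ∑ k ∈ range K, ee ρ (c + (j : ℤ) - (k : ℤ)) =
      (∑ j ∈ range K, ee ρ (c + (j : ℤ))) * ∑ k ∈ range K, ee (-ρ) (0 + (k : ℤ)) := by
  rw [sum_mul_sum]
  refine sum_congr rfl fun j _ => sum_congr rfl fun k _ => ?_
  have h := ee_mul_right ρ (-1) (k : ℤ)
  have h2 : c + (j : ℤ) - (k : ℤ) = c + (j : ℤ) + -1 * (k : ℤ) := by ring
  have h3 : ((-1 : ℤ) : ℚ) * ρ = -ρ := by
    push_cast
    ring
  rw [h2, ee_add_right, h, zero_add, h3]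

private theorem SLs_norm (K : ℕ) (ρ : ℚ) (c : ℤ) (h : nd ρ ≠ 0) :
    ‖∑ j ∈ range K, ∑ k ∈ range K, ee ρ (c + (j : ℤ) - (k : ℤ))‖ ≤
      1 / 4 * (1 / nd ρ ^ 2) := by
  rw [SLs_dbl, norm_mul]
  have h1 := FKb.geo K ρ c h
  have h2 := FKb.geo K (-ρ) 0 (by rw [SLs_nd_neg]; exact h)
  rw [SLs_nd_neg] at h2
  have hnd : 0 < nd ρ := lt_of_le_of_ne (nd_nonneg ρ) (Ne.symm h)
  refine (mul_le_mul h1 h2 (norm_nonneg _) (by positivity)).trans (le_of_eq ?_)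
  field_simp
  norm_num

private theorem SLs_norm0 (K : ℕ) (ρ : ℚ) (c : ℤ) :
    ‖∑ j ∈ range K, ∑ k ∈ range K, ee ρ (c + (j : ℤ) - (k : ℤ))‖ ≤ (K : ℝ) ^ 2 := by
  rw [SLs_dbl, norm_mul, sq]
  exact mul_le_mul (FKb.norm_le K ρ fun j => c + (j : ℤ))
    (FKb.norm_le K (-ρ) fun j => 0 + (j : ℤ)) (norm_nonneg _) (Nat.cast_nonneg _)

private theorem SLs_sq_ee (T : Finset ℚ) (a : ℚ → ℂ) (f : ℤ → ℝ)
    (hf : ∀ x, (f x : ℂ) = ∑ τ ∈ T, a τ * ee τ x) (x : ℤ) :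
    ((f x ^ 2 : ℝ) : ℂ) =
      ∑ τ ∈ T, ∑ σ ∈ T, a τ * (starRingEnd ℂ) (a σ) * ee (τ + -σ) x := by
  have h1 : ((f x ^ 2 : ℝ) : ℂ) = (f x : ℂ) * (starRingEnd ℂ) (f x : ℂ) := by
    rw [Complex.conj_ofReal]
    push_cast
    ring
  rw [h1, hf, map_sum, sum_mul_sum]
  refine sum_congr rfl fun τ _ => sum_congr rfl fun σ _ => ?_
  rw [map_mul, conj_ee, ee_add_left]
  ring

/-- Proof: `f(x)² = |∑_τ a_τ ee τ x|² = ∑_{τ,σ} a_τ conj(a_σ) ee (τ-σ) x` (see `GT/Pars`). By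
`tri`
with `g = f²`:
`Y ∑_{x ∈ [Y,2Y)} f(x)² ≤ ∑_{τ,σ} a_τ conj(a_σ) ∑_{j,k<2Y} ee (τ-σ) (Y+j-k)`, and
`∑_{j,k<K} ee ρ (Y+j-k) = ee ρ Y (∑_j ee ρ j)(∑_k ee (-ρ) k)` has absolute value
`|∑_{j<K} ee ρ j|²` (`conj_ee`), which is `≤ K²` for `τ = σ` and `≤ 1/(4 nd(τ-σ)²)` for `τ ≠ σ`
(`FKb.geo`; for `τ ≠ σ` `nd (τ-σ) ≥ δ > 0`). With `1/0 = 0` (`nd 0 = 0`) the bound is
`≤ ∑_τ K² ‖a_τ‖² + (1/4) ∑_{τ,σ} ‖a_τ‖ ‖a_σ‖ / nd(τ-σ)² ≤ (4Y² + (1/4)(4/δ²)) ∑ ‖a_τ‖²` by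
`Bil.schur` and
`spc2` with `α = -σ` (`nd (-x) = nd x` may be needed for the other order: or use that
`(τ, σ) ↦ nd (τ - σ)` is symmetric). Finally `∑ ‖a_τ‖² = mean L f²` (`Bil.pars`); divide by `Y`.
-/
theorem large_sieve (T : Finset ℚ) (hT : ∀ τ ∈ T, 0 ≤ τ ∧ τ < 1) (L : ℕ) (hL0 : 0 < L)
    (hL : ∀ τ ∈ T, τ.den ∣ L) (a : ℚ → ℂ) (f : ℤ → ℝ)
    (hf : ∀ x, (f x : ℂ) = ∑ τ ∈ T, a τ * ee τ x) (δ : ℝ) (hδ : 0 < δ) (hδ1 : δ ≤ 1)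
    (hs : ∀ τ ∈ T, ∀ τ' ∈ T, τ ≠ τ' → δ ≤ nd (τ - τ')) (Y : ℕ) (hY : 1 ≤ Y) :
    ∑ x ∈ Ico Y (2 * Y), f (x : ℤ) ^ 2 ≤
      (4 * Y + 1 / (δ ^ 2 * Y)) * mean L (fun x => f x ^ 2) := by
  have hY0 : (0 : ℝ) < Y := by exact_mod_cast hY
  obtain ⟨K, hK⟩ : ∃ K : ℕ, K = 2 * Y := ⟨_, rfl⟩
  have htri := tri (fun x => f x ^ 2) (fun x => sq_nonneg (f x)) Y
  have hE : ((∑ j ∈ range K, ∑ k ∈ range K, f ((Y : ℤ) + (j : ℤ) - (k : ℤ)) ^ 2 : ℝ) : ℂ) =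
      ∑ τ ∈ T, ∑ σ ∈ T, a τ * (starRingEnd ℂ) (a σ) *
        ∑ j ∈ range K, ∑ k ∈ range K, ee (τ + -σ) ((Y : ℤ) + (j : ℤ) - (k : ℤ)) := by
    rw [Complex.ofReal_sum]
    have e1 : ∀ j ∈ range K, ((∑ k ∈ range K, f ((Y : ℤ) + (j : ℤ) - (k : ℤ)) ^ 2 : ℝ) : ℂ) =
        ∑ τ ∈ T, ∑ σ ∈ T, a τ * (starRingEnd ℂ) (a σ) *
          ∑ k ∈ range K, ee (τ + -σ) ((Y : ℤ) + (j : ℤ) - (k : ℤ)) := by
      intro j _
      rw [Complex.ofReal_sum, sum_congr rfl fun k _ => SLs_sq_ee T a f hf _, sum_comm]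
      refine sum_congr rfl fun τ _ => ?_
      rw [sum_comm]
      refine sum_congr rfl fun σ _ => ?_
      rw [mul_sum]
    rw [sum_congr rfl e1, sum_comm]
    refine sum_congr rfl fun τ _ => ?_
    rw [sum_comm]
    refine sum_congr rfl fun σ _ => ?_
    rw [mul_sum]
  have hB : ∑ j ∈ range K, ∑ k ∈ range K, f ((Y : ℤ) + (j : ℤ) - (k : ℤ)) ^ 2 ≤
      (K : ℝ) ^ 2 * ∑ τ ∈ T, ‖a τ‖ ^ 2 +
        1 / 4 * ∑ τ ∈ T, ∑ σ ∈ T, ‖a τ‖ * ‖a σ‖ * (1 / nd (τ + -σ) ^ 2) := by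
    have h0 : ∑ j ∈ range K, ∑ k ∈ range K, f ((Y : ℤ) + (j : ℤ) - (k : ℤ)) ^ 2 ≤
        ‖((∑ j ∈ range K, ∑ k ∈ range K, f ((Y : ℤ) + (j : ℤ) - (k : ℤ)) ^ 2 : ℝ) : ℂ)‖ := by
      rw [Complex.norm_real, Real.norm_eq_abs]
      exact le_abs_self _
    refine h0.trans ?_
    rw [hE]
    refine (norm_sum_le _ _).trans ?_
    rw [mul_sum, mul_sum, ← sum_add_distrib]
    refine sum_le_sum fun τ hτ => ?_
    refine (norm_sum_le _ _).trans ?_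
    have e2 : (K : ℝ) ^ 2 * ‖a τ‖ ^ 2 = ∑ σ ∈ T, if τ = σ then (K : ℝ) ^ 2 * ‖a τ‖ ^ 2 else 0 := by
      rw [sum_ite_eq, if_pos hτ]
    rw [e2, mul_sum, ← sum_add_distrib]
    refine sum_le_sum fun σ hσ => ?_
    rw [norm_mul, norm_mul, Complex.norm_conj]
    by_cases h : τ = σ
    · subst h
      rw [if_pos rfl]
      have h1 := SLs_norm0 K (τ + -τ) (Y : ℤ)
      have h2 : 0 ≤ 1 / 4 * (‖a τ‖ * ‖a τ‖ * (1 / nd (τ + -τ) ^ 2)) := by positivity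
      calc ‖a τ‖ * ‖a τ‖ * _ ≤ ‖a τ‖ * ‖a τ‖ * (K : ℝ) ^ 2 :=
            mul_le_mul_of_nonneg_left h1 (by positivity)
        _ = (K : ℝ) ^ 2 * ‖a τ‖ ^ 2 := by ring
        _ ≤ _ := by linarith
    · rw [if_neg h, zero_add]
      have hnz : nd (τ + -σ) ≠ 0 := by
        have h3 := hs τ hτ σ hσ h
        rw [← sub_eq_add_neg]
        exact (lt_of_lt_of_le hδ h3).ne'
      calc ‖a τ‖ * ‖a σ‖ * _ ≤ ‖a τ‖ * ‖a σ‖ * (1 / 4 * (1 / nd (τ + -σ) ^ 2)) :=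
            mul_le_mul_of_nonneg_left (SLs_norm K (τ + -σ) (Y : ℤ) hnz) (by positivity)
        _ = _ := by ring
  have hspc : ∀ σ ∈ T, ∑ τ ∈ T, 1 / nd (τ + -σ) ^ 2 ≤ 4 / δ ^ 2 := by
    intro σ hσ
    refine spc2 T δ hδ hδ1 hs (-σ) fun τ hτ hne => ?_
    rw [← sub_eq_add_neg]
    refine hs τ hτ σ hσ fun h => hne ?_
    rw [h, add_neg_cancel]
    exact (nd_eq_zero 0).2 rfl
  have hS := Bil.schur T T (fun τ => ‖a τ‖) (fun σ => ‖a σ‖) (fun τ σ => 1 / nd (τ + -σ) ^ 2)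
    (fun τ σ => by positivity) (4 / δ ^ 2) (by positivity)
    (fun τ hτ => by
      refine le_trans (le_of_eq (sum_congr rfl fun σ _ => ?_)) (hspc τ hτ)
      have e3 : τ + -σ = -(σ + -τ) := by ring
      rw [e3, SLs_nd_neg])
    (fun σ hσ => hspc σ hσ)
  have hA0 : 0 ≤ ∑ τ ∈ T, ‖a τ‖ ^ 2 := sum_nonneg fun _ _ => sq_nonneg _
  rw [Real.mul_self_sqrt hA0] at hS
  rw [← hK] at htri
  have hfin : (Y : ℝ) * ∑ x ∈ Ico Y K, f (x : ℤ) ^ 2 ≤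
      (4 * (Y : ℝ) ^ 2 + 1 / δ ^ 2) * ∑ τ ∈ T, ‖a τ‖ ^ 2 := by
    refine htri.trans (hB.trans ?_)
    have h5 : (K : ℝ) = 2 * Y := by
      rw [hK]
      push_cast
      ring
    rw [h5]
    have h6 : 1 / 4 * (4 / δ ^ 2 * ∑ τ ∈ T, ‖a τ‖ ^ 2) = 1 / δ ^ 2 * ∑ τ ∈ T, ‖a τ‖ ^ 2 := by
      ring
    nlinarith
  rw [Bil.pars T hT L hL0 hL a f hf, ← hK]
  have h7 : (4 * (Y : ℝ) + 1 / (δ ^ 2 * Y)) * ∑ τ ∈ T, ‖a τ‖ ^ 2 =
      ((4 * (Y : ℝ) ^ 2 + 1 / δ ^ 2) * ∑ τ ∈ T, ‖a τ‖ ^ 2) / Y := by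
    field_simp
  rw [h7, le_div_iff₀ hY0, mul_comm]
  exact hfin

/-- Proof: `large_sieve` with `T = Fk z 1`, `L = Lm z`, `f = S z H`, `δ = 1/z²` (`S_pow` with `k =
1`,
`Fk_mem`, `Fk_sp z 1 1`), as in the proof of `transfer2` (module GT/TrB). -/
theorem ls (z H Y : ℕ) (hz : 1 ≤ z) (hY : 1 ≤ Y) :
    ∑ x ∈ Ico Y (2 * Y), S z H (x : ℤ) ^ 2 ≤
      (4 * Y + (z : ℝ) ^ 4 / Y) * mean (Lm z) (fun x => S z H x ^ 2) := by
  obtain ⟨a, ha⟩ := S_pow z H 1 hz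
  have hz1 : (1 : ℝ) ≤ (z : ℝ) := by exact_mod_cast hz
  have hz0 : (0 : ℝ) < (z : ℝ) := by linarith
  have hL0 : 0 < Lm z := pow_pos (Nat.factorial_pos z) z
  have h := large_sieve (Fk z 1)
    (fun τ hτ => ⟨((Fk_mem z 1 τ).1 hτ).1, ((Fk_mem z 1 τ).1 hτ).2.1⟩)
    (Lm z) hL0 (fun τ hτ => ((Fk_mem z 1 τ).1 hτ).2.2.1) a (fun x => S z H x)
    (fun x => by
      have h1 := ha x
      rwa [pow_one] at h1)
    (1 / (z : ℝ) ^ 2) (by positivity)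
    (by
      rw [div_le_one (by positivity)]
      exact one_le_pow₀ hz1)
    (fun τ hτ τ' hτ' hne => (Fk_sp z 1 1 hz τ τ' hτ hτ').1 hne) Y hY
  have e : (4 * (Y : ℝ) + 1 / ((1 / (z : ℝ) ^ 2) ^ 2 * Y)) = 4 * Y + (z : ℝ) ^ 4 / Y := by
    have hY0 : (Y : ℝ) ≠ 0 := by
      have : (1 : ℝ) ≤ (Y : ℝ) := by exact_mod_cast hY
      linarith
    field_simp
  rw [e] at h
  exact h

end Pool.Agent.MP_a12917_nt_SC
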