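import Pool.Agent.Lib.MP_a12917_nt_SC.SWin

/-!
# MP_a12917_nt, project SC, module SReS: integrals and sums
-/

set_option autoImplicit false

noncomputable section

namespace Pool.Agent.MP_a12917_nt_SC

open Finset MeasureTheory

private theorem SReS_lb (G : ℕ → ℝ) : LB (fun y => G ⌊y⌋₊) := by
  refine ⟨Measurable.of_discrete.comp Nat.measurable_floor, fun R => ?_⟩
  refine ⟨∑ x ∈ range (⌊R⌋₊ + 1), |G x|, fun y hy => ?_⟩
  refine Finset.single_le_sum (f := fun x => |G x|) (fun x _ => abs_nonneg _) ?_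
  rw [Finset.mem_range, Nat.lt_succ_iff]
  exact Nat.floor_mono ((le_abs_self y).trans hy)

private theorem SReS_sum (G : ℕ → ℝ) (A B : ℕ) (hAB : A ≤ B) :
    ∫ y in (A : ℝ)..B, G ⌊y⌋₊ = ∑ x ∈ Ico A B, G x := by
  have h1 : ∀ k : ℕ, ∫ y in (k : ℝ)..((k + 1 : ℕ) : ℝ), G ⌊y⌋₊ = G k := by
    intro k
    have h2 : ∫ y in (k : ℝ)..((k + 1 : ℕ) : ℝ), G ⌊y⌋₊ =
        ∫ _ in (k : ℝ)..((k + 1 : ℕ) : ℝ), G k := by
      have h4 : (k : ℝ) ≤ ((k + 1 : ℕ) : ℝ) := by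
        push_cast
        linarith
      have h3 : ∀ y ∈ Set.Ioo (k : ℝ) ((k + 1 : ℕ) : ℝ), G ⌊y⌋₊ = G k := by
        intro y hy
        have h5 : ⌊y⌋₊ = k := by
          rw [Nat.floor_eq_iff ((Nat.cast_nonneg k).trans hy.1.le)]
          refine ⟨hy.1.le, ?_⟩
          have := hy.2
          push_cast at this
          exact this
        rw [h5]
      apply le_antisymm
      · exact intervalIntegral.integral_mono_on_of_le_Ioo h4 ((SReS_lb G).ii _ _)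
          intervalIntegrable_const fun y hy => (h3 y hy).le
      · exact intervalIntegral.integral_mono_on_of_le_Ioo h4 intervalIntegrable_const
          ((SReS_lb G).ii _ _) fun y hy => (h3 y hy).ge
    rw [h2, intervalIntegral.integral_const]
    push_cast
    rw [add_sub_cancel_left, one_smul]
  rw [← intervalIntegral.sum_integral_adjacent_intervals_Ico (a := fun k : ℕ => (k : ℝ)) hAB
    fun k _ => (SReS_lb G).ii _ _]
  exact Finset.sum_congr rfl fun k _ => h1 k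

/-- Proof: the intervals `[x, x+1]`, `A ≤ x < B`, cover `[a, b]`, and on `[x, x+1)` `⌊y⌋₊ = x`;
split the
integral (`intervalIntegral.sum_integral_adjacent_intervals_Ico`,
`intervalIntegral.integral_mono_on`; the endpoint `x + 1` is a null set, or use `[x, x+1)` and
`intervalIntegral.integral_congr_ae`), `g ≥ 0`. -/
theorem int_le_sum (g : ℝ → ℝ) (hg : LB g) (h0 : ∀ y, 0 ≤ g y) (A B : ℕ) (hAB : A ≤ B)
    (a b : ℝ) (hab : a ≤ b) (hA : (A : ℝ) ≤ a) (hB : b ≤ B) (G : ℕ → ℝ)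
    (hG : ∀ y : ℝ, a ≤ y → y < b → g y ≤ G ⌊y⌋₊)
    (hG0 : ∀ x, 0 ≤ G x) :
    ∫ y in a..b, g y ≤ ∑ x ∈ Ico A B, G x := by
  rw [← SReS_sum G A B hAB]
  calc ∫ y in a..b, g y ≤ ∫ y in a..b, G ⌊y⌋₊ :=
        intervalIntegral.integral_mono_on_of_le_Ioo hab (hg.ii _ _) ((SReS_lb G).ii _ _)
          fun y hy => hG y hy.1.le hy.2
    _ ≤ ∫ y in (A : ℝ)..B, G ⌊y⌋₊ :=
        intervalIntegral.integral_mono_interval hA hab hB
          (Filter.Eventually.of_forall fun y => hG0 _) ((SReS_lb G).ii _ _)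

/-- Proof: same decomposition, from below: `[A, B] ⊆ [a, b]`, `g ≥ 0`. -/
theorem sum_le_int (g : ℝ → ℝ) (hg : LB g) (h0 : ∀ y, 0 ≤ g y) (A B : ℕ) (hAB : A ≤ B)
    (a b : ℝ) (hA : a ≤ (A : ℝ)) (hB : (B : ℝ) ≤ b) (G : ℕ → ℝ)
    (hG : ∀ y : ℝ, (A : ℝ) ≤ y → y < B → G ⌊y⌋₊ ≤ g y) :
    ∑ x ∈ Ico A B, G x ≤ ∫ y in a..b, g y := by
  rw [← SReS_sum G A B hAB]
  have h1 : (A : ℝ) ≤ B := Nat.cast_le.2 hAB
  calc ∫ y in (A : ℝ)..B, G ⌊y⌋₊ ≤ ∫ y in (A : ℝ)..B, g y :=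
        intervalIntegral.integral_mono_on_of_le_Ioo h1 ((SReS_lb G).ii _ _) (hg.ii _ _)
          fun y hy => hG y hy.1.le hy.2
    _ ≤ ∫ y in a..b, g y :=
        intervalIntegral.integral_mono_interval hA h1 hB
          (Filter.Eventually.of_forall fun y => h0 _) (hg.ii _ _)

end Pool.Agent.MP_a12917_nt_SC
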