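import Pool.Agent.Lib.MP_a12917_nt_SC.SRe
import Pool.Agent.Lib.MP_a12917_nt_SC.SReS
import Pool.Agent.Lib.MP_a12917_nt_SC.SLow

/-!
# MP_a12917_nt, project SC, module SReL: lower bound for the first moment, real variables
-/

set_option autoImplicit false

noncomputable section

namespace Pool.Agent.MP_a12917_nt_SC

open Finset Pool.Agent.MP_a12917_nt_GT MeasureTheory

private theorem SReL_X0 (ε : ℝ) (hε : 0 < ε) (K1 K2 K3 : ℝ) : ∃ X0 : ℝ, 3 ≤ X0 ∧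
    ∀ X : ℝ, X0 ≤ X →
    16 ≤ X ∧ K1 ≤ X ∧ K2 ≤ √X ∧ K3 ≤ X ^ ε ∧ 2 * (2 * X) ^ (ε / 2) ≤ X ^ ε := by
  have e1 := Filter.eventually_ge_atTop (16 : ℝ)
  have e2 := Filter.eventually_ge_atTop K1
  have e3 := Real.tendsto_sqrt_atTop.eventually_ge_atTop K2
  have e4 := (tendsto_rpow_atTop hε).eventually_ge_atTop K3
  have e5 := (tendsto_rpow_atTop (half_pos hε)).eventually_ge_atTop (2 * 2 ^ (ε / 2))
  obtain ⟨X1, hX1⟩ := Filter.eventually_atTop.1 (e1.and (e2.and (e3.and (e4.and e5))))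
  refine ⟨max X1 3, le_max_right _ _, fun X hX => ?_⟩
  obtain ⟨a1, a2, a3, a4, a5⟩ := hX1 X ((le_max_left _ _).trans hX)
  refine ⟨a1, a2, a3, a4, ?_⟩
  have hX0 : 0 < X := by linarith
  rw [Real.mul_rpow (by norm_num) hX0.le]
  have h1 : X ^ ε = X ^ (ε / 2) * X ^ (ε / 2) := by
    rw [← Real.rpow_add hX0]
    congr 1
    ring
  rw [h1]
  have h2 : 0 ≤ X ^ (ε / 2) := by positivity
  nlinarith

private theorem SReL_sum (C1 C2 c0 : ℝ) (hC1 : 0 < C1) (hC2 : 0 < C2) (Y H : ℕ) (hY : 3 ≤ Y)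
    (hlow : c0 * Y * √(H * hs Y ^ 3) ≤ ∑ x ∈ Ico Y (2 * Y), |Di H x|)
    (hup : ∑ x ∈ Ico Y (2 * Y), Di H x ^ 2 ≤ C1 * Y * (H * hs Y ^ 3))
    (h8 : ∑ x ∈ Ico Y (8 * Y), ((Nat.divisors (x + H + 1)).card : ℝ) ^ 2 ≤ C2 * Y * hs Y ^ 3)
    (hK1 : 8 * √C1 ≤ c0 * √Y) (hK2 : 4 * (√C2 + 8) ≤ c0 * √H) :
    c0 / 2 * Y * √(H * hs Y ^ 3) ≤ ∑ x ∈ Ico Y (2 * Y - 2),
      (|Di H x| - (((Nat.divisors (x + H + 1)).card : ℝ) + (Real.log x + 6))) := by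
  have hY0 : (3 : ℝ) ≤ Y := by exact_mod_cast hY
  have hs1 : 1 ≤ hs Y := one_le_hs Y (by omega)
  have hW0 : 0 ≤ hs Y ^ 3 := by positivity
  set W := √(hs Y ^ 3) with hW
  have hsW : hs Y ≤ W := by
    rw [hW]
    refine Real.le_sqrt_of_sq_le ?_
    exact pow_le_pow_right₀ hs1 (by norm_num)
  have hsq : √(H * hs Y ^ 3) = √H * W := by
    rw [Real.sqrt_mul (Nat.cast_nonneg _)]
  have hYY : √(Y : ℝ) * √(Y : ℝ) = Y := Real.mul_self_sqrt (by linarith)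
  have hsY0 : 0 ≤ √(Y : ℝ) := Real.sqrt_nonneg _
  have hsH0 : 0 ≤ √(H : ℝ) := Real.sqrt_nonneg _
  -- single terms
  have hone : ∀ x ∈ Ico Y (2 * Y), |Di H x| ≤ √C1 * √Y * (√H * W) := by
    intro x hx
    have h1 : Di H x ^ 2 ≤ C1 * Y * (H * hs Y ^ 3) :=
      (Finset.single_le_sum (f := fun x => Di H x ^ 2) (fun _ _ => sq_nonneg _) hx).trans hup
    have h2 := Real.abs_le_sqrt h1
    rw [Real.sqrt_mul (by positivity), Real.sqrt_mul hC1.le, hsq] at h2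
    exact h2
  have hsplit : ∑ x ∈ Ico Y (2 * Y), |Di H x| =
      ∑ x ∈ Ico Y (2 * Y - 2), |Di H x| + |Di H (2 * Y - 2)| + |Di H (2 * Y - 1)| := by
    have h1 : 2 * Y = (2 * Y - 2) + 1 + 1 := by omega
    have h2 : 2 * Y - 1 = (2 * Y - 2) + 1 := by omega
    have h3 : Y ≤ 2 * Y - 2 := by omega
    rw [h2]
    conv_lhs => rw [h1]
    rw [Finset.sum_Ico_succ_top (by omega), Finset.sum_Ico_succ_top h3]
  have t1 := hone (2 * Y - 2) (by rw [Finset.mem_Ico]; omega)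
  have t2 := hone (2 * Y - 1) (by rw [Finset.mem_Ico]; omega)
  -- divisors
  have hdiv : ∑ x ∈ Ico Y (2 * Y - 2), ((Nat.divisors (x + H + 1)).card : ℝ) ≤
      Y * (√C2 * W) := by
    have h1 : ∑ x ∈ Ico Y (2 * Y - 2), ((Nat.divisors (x + H + 1)).card : ℝ) ≤
        ∑ x ∈ Ico Y (2 * Y), ((Nat.divisors (x + H + 1)).card : ℝ) :=
      Finset.sum_le_sum_of_subset_of_nonneg (Finset.Ico_subset_Ico_right (by omega))
        fun _ _ _ => Nat.cast_nonneg _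
    have h2 : ∑ x ∈ Ico Y (2 * Y), ((Nat.divisors (x + H + 1)).card : ℝ) ^ 2 ≤
        C2 * Y * hs Y ^ 3 :=
      (Finset.sum_le_sum_of_subset_of_nonneg (Finset.Ico_subset_Ico_right (by omega))
        fun _ _ _ => sq_nonneg _).trans h8
    have h3 := sq_sum_le_card_mul_sum_sq (s := Ico Y (2 * Y))
      (f := fun x => ((Nat.divisors (x + H + 1)).card : ℝ))
    rw [Nat.card_Ico, show 2 * Y - Y = Y by omega] at h3
    have h4 : (∑ x ∈ Ico Y (2 * Y), ((Nat.divisors (x + H + 1)).card : ℝ)) ^ 2 ≤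
        (Y * (√C2 * W)) ^ 2 := by
      refine h3.trans ?_
      have h5 : (Y * (√C2 * W)) ^ 2 = (Y : ℝ) * (C2 * Y * hs Y ^ 3) := by
        rw [mul_pow, mul_pow, Real.sq_sqrt hC2.le, hW, Real.sq_sqrt hW0]
        ring
      rw [h5]
      exact mul_le_mul_of_nonneg_left h2 (by linarith)
    exact h1.trans (abs_le_of_sq_le_sq' h4 (by positivity)).2
  have hlog : ∑ x ∈ Ico Y (2 * Y - 2), (Real.log x + 6) ≤ Y * (8 * W) := by
    have h1 : ∀ x ∈ Ico Y (2 * Y - 2), Real.log x + 6 ≤ 8 * W := by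
      intro x hx
      rw [Finset.mem_Ico] at hx
      have h2 : Real.log x ≤ Real.log (2 * (Y + 1)) := by
        refine Real.log_le_log ?_ ?_
        · have : 0 < x := by omega
          exact_mod_cast this
        · have : x ≤ 2 * (Y + 1) := by omega
          exact_mod_cast this
      rw [Real.log_mul (by norm_num) (by positivity)] at h2
      have h3 := log_le_hs Y
      have h4 := Real.log_two_lt_d9
      linarith
    refine (Finset.sum_le_card_nsmul _ _ _ h1).trans ?_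
    rw [Nat.card_Ico, nsmul_eq_mul]
    refine mul_le_mul_of_nonneg_right ?_ (by positivity)
    have : 2 * Y - 2 - Y ≤ Y := by omega
    exact_mod_cast this
  rw [Finset.sum_sub_distrib, Finset.sum_add_distrib]
  rw [hsplit, hsq] at hlow
  rw [hsq]
  have hb1 : 2 * (√C1 * √Y * (√H * W)) ≤ c0 / 4 * Y * (√H * W) := by
    have h1 : 8 * √C1 * √Y ≤ c0 * √Y * √Y := mul_le_mul_of_nonneg_right hK1 hsY0
    have h2 : 0 ≤ √(H : ℝ) * W := by positivity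
    rw [mul_assoc c0, hYY] at h1
    have h3 : 2 * (√C1 * √Y) ≤ c0 / 4 * Y := by linarith
    nlinarith
  have hb2 : Y * (√C2 * W) + Y * (8 * W) ≤ c0 / 4 * Y * (√H * W) := by
    have h2 : 0 ≤ (Y : ℝ) * W := by positivity
    have h3 := mul_le_mul_of_nonneg_right hK2 h2
    nlinarith
  nlinarith

/-- Proof: `Y = ⌈X⌉₊`, `H = ⌊h⌋₊ ≥ h/2`; for large `X` `Y^(ε/2) ≤ H ≤ Y^(1/4-ε/2)`, so by `lower`
(with
`ε/2`) `∑_{Y ≤ x < 2Y} |Di H x| ≥ c Y √(H hs(Y)³)`. For `Y ≤ x < 2Y - 2` one has `[x, x+1] ⊆ [X,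
2X]`
(`2Y < 2X + 2`) and, for `y ∈ [x, x+1)`, `|D (y+h) - D y| ≥ |Di H x| - d(x+H+1) - log x - 6`
(`re_pt`), so
(`sum_le_int`) the integral is at least `∑_{Y ≤ x < 2Y} |Di H x| - |Di H (2Y-2)| - |Di H (2Y-1)| -
∑_{Y ≤ x < 2Y} (d(x+H+1) + log x + 6)`. The subtracted terms: `|Di H x| ≤ √(∑_{[Y,2Y)} Di²) ≤
√(C Y H hs(Y)³)` (`upper`), `∑ d(x+H+1) ≤ √Y √(C Y hs(Y)³)` (Cauchy-Schwarz and `div8`),
`log x + 6 ≤ 8 hs Y`; each is at most `(c/8) Y √(H hs(Y)³)` for large `X`, since `H ≥ Y^(ε/2) → ∞`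
and
`Y → ∞`. So the integral is `≥ (c/2) Y √(H hs(Y)³)`, and `Y ≥ X`, `H ≥ h/2`, `hs Y ≥ log Y ≥ log
X`. -/
theorem lower_re (ε : ℝ) (hε : 0 < ε) : ∃ c X0 : ℝ, 0 < c ∧ 3 ≤ X0 ∧ ∀ D : ℝ → ℝ, IsD D →
    ∀ X h : ℝ, X0 ≤ X → X ^ ε ≤ h → h ≤ X ^ (1 / 4 - ε) →
    c * X * √(h * Real.log X ^ 3) ≤ ∫ y in X..(2 * X), |D (y + h) - D y| := by
  obtain ⟨c0, hc0, Y0, hlow⟩ := lower (ε / 2) (half_pos hε)
  obtain ⟨C1, hC1, hup⟩ := upper
  obtain ⟨C2, hC2, h8⟩ := div8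
  obtain ⟨X0, hX0, hX⟩ := SReL_X0 ε hε (Y0 : ℝ) (8 * √C1 / c0)
    (2 * (4 * (√C2 + 8) / c0) ^ 2)
  refine ⟨c0 / 4, X0, by positivity, hX0, fun D hD X h hXX hh1 hh2 => ?_⟩
  obtain ⟨a1, a2, a3, a4, a5⟩ := hX X hXX
  have hXpos : 0 < X := by linarith
  have hX1 : 1 < X := by linarith
  have hε4 : ε ≤ 1 / 4 - ε := (Real.rpow_le_rpow_left_iff hX1).1 (hh1.trans hh2)
  set Y := ⌈X⌉₊ with hY
  set H := ⌊h⌋₊ with hH
  have hXY : X ≤ Y := Nat.le_ceil X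
  have hYX : (Y : ℝ) < X + 1 := Nat.ceil_lt_add_one hXpos.le
  have hY16 : (16 : ℝ) ≤ Y := a1.trans hXY
  have hY3 : 3 ≤ Y := by
    have : (3 : ℝ) ≤ Y := by linarith
    exact_mod_cast this
  have hh1' : 1 ≤ h := (Real.one_le_rpow hX1.le hε.le).trans hh1
  have hHh : (H : ℝ) ≤ h := Nat.floor_le (by linarith)
  have hH1 : 1 ≤ H := Nat.le_floor (by exact_mod_cast hh1')
  have hH1' : (1 : ℝ) ≤ H := by exact_mod_cast hH1
  have hHh2 : h / 2 ≤ H := by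
    have := Nat.lt_floor_add_one h
    linarith
  have hh4 : h ≤ X ^ ((1 : ℝ) / 4) :=
    hh2.trans (Real.rpow_le_rpow_of_exponent_le hX1.le (by linarith))
  have hh44 : h ^ 4 ≤ X := by
    calc h ^ 4 ≤ (X ^ ((1 : ℝ) / 4)) ^ 4 := pow_le_pow_left₀ (by linarith) hh4 4
      _ = X := by
        rw [← Real.rpow_natCast, ← Real.rpow_mul hXpos.le]
        norm_num
  have hh24 : 4 * h ^ 2 ≤ X := by
    nlinarith [sq_nonneg (h ^ 2 - 4)]
  have hH4 : H ^ 4 ≤ Y := by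
    have h1 : (H : ℝ) ^ 4 ≤ Y :=
      (pow_le_pow_left₀ (Nat.cast_nonneg _) hHh 4).trans (hh44.trans hXY)
    exact_mod_cast h1
  have hlo1 : (Y : ℝ) ^ (ε / 2) ≤ H := by
    have h1 : (Y : ℝ) ^ (ε / 2) ≤ (2 * X) ^ (ε / 2) :=
      Real.rpow_le_rpow (by linarith) (by linarith) (by linarith)
    linarith
  have hlo2 : (H : ℝ) ≤ (Y : ℝ) ^ (1 / 4 - ε / 2) := by
    calc (H : ℝ) ≤ X ^ (1 / 4 - ε) := hHh.trans hh2
      _ ≤ X ^ (1 / 4 - ε / 2) := Real.rpow_le_rpow_of_exponent_le hX1.le (by linarith)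
      _ ≤ (Y : ℝ) ^ (1 / 4 - ε / 2) := Real.rpow_le_rpow hXpos.le hXY (by linarith)
  have hYY0 : Y0 ≤ Y := by
    have : (Y0 : ℝ) ≤ Y := a2.trans hXY
    exact_mod_cast this
  have hK1 : 8 * √C1 ≤ c0 * √Y := by
    have h1 : 8 * √C1 / c0 ≤ √Y := a3.trans (Real.sqrt_le_sqrt hXY)
    rw [div_le_iff₀ hc0] at h1
    linarith
  have hK2 : 4 * (√C2 + 8) ≤ c0 * √H := by
    have h1 : (4 * (√C2 + 8) / c0) ^ 2 ≤ H := by linarith
    have h2 := Real.le_sqrt_of_sq_le h1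
    rw [div_le_iff₀ hc0] at h2
    linarith
  have hsum := SReL_sum C1 C2 c0 hC1 hC2 Y H hY3 (hlow Y H hYY0 hlo1 hlo2)
    (hup Y H hH1 hH4) (h8 Y H hH1 hH4) hK1 hK2
  have hint := sum_le_int (fun y => |D (y + h) - D y|) (lb_f hD h).abs (fun y => abs_nonneg _)
    Y (2 * Y - 2) (by omega) X (2 * X) hXY
    (by
      rw [Nat.cast_sub (by omega)]
      push_cast
      linarith)
    (fun x => |Di H x| - (((Nat.divisors (x + H + 1)).card : ℝ) + (Real.log x + 6)))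
    (by
      intro y hy _
      have h1 := re_pt hD (y := y) (h := h) (by linarith) hh1' (by linarith)
      have h2 := abs_sub_abs_le_abs_sub (Di ⌊h⌋₊ ⌊y⌋₊) (D (y + h) - D y)
      rw [abs_sub_comm (Di ⌊h⌋₊ ⌊y⌋₊)] at h2
      linarith)
  refine le_trans ?_ (hsum.trans hint)
  have hl0 : 0 ≤ Real.log X := Real.log_nonneg hX1.le
  have hlX : Real.log X ≤ hs Y := by
    refine le_trans (Real.log_le_log hXpos ?_) (log_le_hs Y)
    linarith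
  have hq : √(h * Real.log X ^ 3) ≤ 2 * √(H * hs Y ^ 3) := by
    have h1 : h * Real.log X ^ 3 ≤ 2 ^ 2 * (H * hs Y ^ 3) := by
      have h3 : Real.log X ^ 3 ≤ hs Y ^ 3 := pow_le_pow_left₀ hl0 hlX 3
      have h4 : 0 ≤ hs Y ^ 3 := by
        have := hs_nonneg Y
        positivity
      calc h * Real.log X ^ 3 ≤ h * hs Y ^ 3 := mul_le_mul_of_nonneg_left h3 (by linarith)
        _ ≤ (4 * H) * hs Y ^ 3 := mul_le_mul_of_nonneg_right (by linarith) h4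
        _ = 2 ^ 2 * (H * hs Y ^ 3) := by ring
    calc √(h * Real.log X ^ 3) ≤ √(2 ^ 2 * (H * hs Y ^ 3)) := Real.sqrt_le_sqrt h1
      _ = 2 * √(H * hs Y ^ 3) := by
        rw [Real.sqrt_mul (by norm_num), Real.sqrt_sq (by norm_num)]
  have hq0 : 0 ≤ √(H * hs Y ^ 3) := Real.sqrt_nonneg _
  calc c0 / 4 * X * √(h * Real.log X ^ 3) ≤ c0 / 4 * X * (2 * √(H * hs Y ^ 3)) :=
        mul_le_mul_of_nonneg_left hq (by positivity)
    _ = c0 / 2 * X * √(H * hs Y ^ 3) := by ring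
    _ ≤ c0 / 2 * Y * √(H * hs Y ^ 3) := by gcongr

end Pool.Agent.MP_a12917_nt_SC
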