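import Pool.Agent.Lib.MP_a12917_nt_SC.SWinM

/-!
# MP_a12917_nt, project SC, module SWinB: the window lemma
-/

set_option autoImplicit false

noncomputable section

namespace Pool.Agent.MP_a12917_nt_SC

open Finset MeasureTheory Set

/-- monotonicity in the interval for a nonnegative function -/
private theorem int_sub {g : ℝ → ℝ} (hg : LB g) (h0 : ∀ y, 0 ≤ g y) {a b c d : ℝ} (hca : c ≤ a)
    (hab : a ≤ b) (hbd : b ≤ d) : ∫ y in a..b, g y ≤ ∫ y in c..d, g y :=
  intervalIntegral.integral_mono_interval hca hab hbd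
    (Filter.Eventually.of_forall fun y => h0 y) (hg.ii c d)

/-- Proof: `L = K h`. `∫_X^{2X} ∫_x^{x+L} |f| ≥ L ∫_{X+L}^{2X} |f| = L (∫_X^{2X} |f| - ∫_X^{X+L}
|f|)` (`win_lower`), and
`∫_X^{X+L} |f| ≤ √(L C0 X s²) ≤ (c0/4) X s` (`cs_int`; `L ≤ c0² X/(16 C0)`). With
`g y = ∑_{k<K} f (y + k h)`: `|∫_x^{x+L} f| = |∫_x^{x+h} g| ≤ ∫_x^{x+h} |g|` (`win_shift`), so
`∫_X^{2X} |∫_x^{x+L} f| ≤ h ∫_X^{2X+h} |g| ≤ h √((X+h) C0 K X s²) ≤ h √(2 C0 K) X s = √(2 C0/K) L
X s
≤ (c0/4) L X s` (`win_upper`, `cs_int`; `K ≥ 32 C0/c0²`). Together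
`∫_X^{2X} M ≥ (1/2)(3/4 - 1/4) c0 L X s`. -/
theorem mean_min {f : ℝ → ℝ} (hf : LB f) {c0 C0 X h s : ℝ} {K : ℕ} (hc : 0 < c0) (hC : 0 < C0)
    (hX : 0 < X) (hh : 0 < h) (hs : 0 < s) (hK : 1 ≤ K) (hK2 : 32 * C0 ≤ c0 ^ 2 * K)
    (hL : 16 * C0 * (K * h) ≤ c0 ^ 2 * X) (hL2 : K * h ≤ X)
    (h1 : c0 * X * s ≤ ∫ y in X..(2 * X), |f y|)
    (h2 : ∫ y in X..(4 * X), f y ^ 2 ≤ C0 * X * s ^ 2)
    (h3 : ∫ y in X..(4 * X), (∑ k ∈ Finset.range K, f (y + k * h)) ^ 2 ≤ C0 * K * X * s ^ 2) :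
    c0 / 4 * (K * h) * X * s ≤
      ∫ x in X..(2 * X), ((∫ y in x..(x + K * h), |f y|) - |∫ y in x..(x + K * h), f y|) / 2 := by
  have hK' : (1 : ℝ) ≤ (K : ℝ) := by exact_mod_cast hK
  have hK0 : (0 : ℝ) < (K : ℝ) := by linarith
  have hLpos : 0 < (K : ℝ) * h := mul_pos hK0 hh
  have hhL : h ≤ (K : ℝ) * h := by nlinarith
  have hXs : 0 < X * s := mul_pos hX hs
  -- the lower bound for the first part
  have hlow := win_lower (g := fun y => |f y|) hf.abs (fun y => abs_nonneg _)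
    (a := X) (b := 2 * X) (L := (K : ℝ) * h) (by linarith) hLpos.le
  have hsplit : (∫ y in X..(X + K * h), |f y|) + (∫ y in (X + K * h)..(2 * X), |f y|) =
      ∫ y in X..(2 * X), |f y| :=
    intervalIntegral.integral_add_adjacent_intervals (hf.abs.ii _ _) (hf.abs.ii _ _)
  have hcs := cs_int hf (a := X) (b := X + K * h) (by linarith)
  have hsq1 : ∫ y in X..(X + K * h), f y ^ 2 ≤ C0 * X * s ^ 2 :=
    le_trans (int_sub (g := fun y => f y ^ 2) hf.sq (fun y => sq_nonneg _) le_rfl (by linarith)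
      (by linarith)) h2
  have hnn1 : 0 ≤ ∫ y in X..(X + K * h), |f y| :=
    intervalIntegral.integral_nonneg (by linarith) fun y _ => abs_nonneg _
  have hsmall : ∫ y in X..(X + K * h), |f y| ≤ c0 / 4 * (X * s) := by
    refine abs_le_of_sq_le_sq' ?_ (by positivity) |>.2
    refine le_trans hcs ?_
    have e1 : X + K * h - X = K * h := by ring
    rw [e1]
    calc (K : ℝ) * h * ∫ y in X..(X + K * h), f y ^ 2 ≤ K * h * (C0 * X * s ^ 2) :=
          mul_le_mul_of_nonneg_left hsq1 hLpos.le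
      _ = (16 * C0 * (K * h)) * (X * s ^ 2 / 16) := by ring
      _ ≤ (c0 ^ 2 * X) * (X * s ^ 2 / 16) := mul_le_mul_of_nonneg_right hL (by positivity)
      _ = (c0 / 4 * (X * s)) ^ 2 := by ring
  have hA : (K : ℝ) * h * (3 / 4 * c0 * (X * s)) ≤
      ∫ x in X..(2 * X), (∫ y in x..(x + K * h), |f y|) := by
    refine le_trans (mul_le_mul_of_nonneg_left ?_ hLpos.le) hlow
    have : c0 * X * s = c0 * (X * s) := by ring
    linarith
  -- the second part
  have hgLB : LB (fun y => ∑ k ∈ Finset.range K, f (y + k * h)) := hf.shift K h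
  have hup := win_upper (g := fun y => |∑ k ∈ Finset.range K, f (y + k * h)|) hgLB.abs
    (fun y => abs_nonneg _) (a := X) (b := 2 * X) (L := h) (by linarith) hh.le
  have hcs2 := cs_int hgLB (a := X) (b := 2 * X + h) (by linarith)
  have hsq2 : ∫ y in X..(2 * X + h), (∑ k ∈ Finset.range K, f (y + k * h)) ^ 2 ≤
      C0 * K * X * s ^ 2 :=
    le_trans (int_sub (g := fun y => (∑ k ∈ Finset.range K, f (y + k * h)) ^ 2) hgLB.sq
      (fun y => sq_nonneg _) le_rfl (by linarith) (by linarith)) h3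
  have hsmall2 : ∫ y in X..(2 * X + h), |∑ k ∈ Finset.range K, f (y + k * h)| ≤
      c0 / 4 * K * (X * s) := by
    refine abs_le_of_sq_le_sq' ?_ (by positivity) |>.2
    refine le_trans hcs2 ?_
    have hnn : 0 ≤ ∫ y in X..(2 * X + h), (∑ k ∈ Finset.range K, f (y + k * h)) ^ 2 :=
      intervalIntegral.integral_nonneg (by linarith) fun y _ => sq_nonneg _
    calc (2 * X + h - X) * ∫ y in X..(2 * X + h), (∑ k ∈ Finset.range K, f (y + k * h)) ^ 2
        ≤ (2 * X) * ∫ y in X..(2 * X + h), (∑ k ∈ Finset.range K, f (y + k * h)) ^ 2 :=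
          mul_le_mul_of_nonneg_right (by linarith) hnn
      _ ≤ (2 * X) * (C0 * K * X * s ^ 2) := mul_le_mul_of_nonneg_left hsq2 (by linarith)
      _ = (32 * C0) * (K * X ^ 2 * s ^ 2 / 16) := by ring
      _ ≤ (c0 ^ 2 * K) * (K * X ^ 2 * s ^ 2 / 16) :=
          mul_le_mul_of_nonneg_right hK2 (by positivity)
      _ = (c0 / 4 * K * (X * s)) ^ 2 := by ring
  have hcontA : Continuous (fun x => ∫ y in x..(x + K * h), |f y|) := win_cont hf.abs _
  have hcontB : Continuous (fun x => |∫ y in x..(x + K * h), f y|) := (win_cont hf _).abs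
  have hcontC : Continuous (fun x => ∫ y in x..(x + h),
      |∑ k ∈ Finset.range K, f (y + k * h)|) := win_cont hgLB.abs _
  have hB : ∫ x in X..(2 * X), |∫ y in x..(x + K * h), f y| ≤
      (K : ℝ) * h * (1 / 4 * c0 * (X * s)) := by
    have hle : ∫ x in X..(2 * X), |∫ y in x..(x + K * h), f y| ≤
        ∫ x in X..(2 * X), (∫ y in x..(x + h), |∑ k ∈ Finset.range K, f (y + k * h)|) := by
      refine intervalIntegral.integral_mono_on (by linarith) (hcontB.intervalIntegrable _ _)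
        (hcontC.intervalIntegrable _ _) fun x _ => ?_
      rw [← win_shift hf K h x]
      exact intervalIntegral.abs_integral_le_integral_abs (by linarith)
    refine le_trans hle (le_trans hup ?_)
    refine le_trans (mul_le_mul_of_nonneg_left hsmall2 hh.le) (le_of_eq ?_)
    ring
  have hfin : ∫ x in X..(2 * X),
      ((∫ y in x..(x + K * h), |f y|) - |∫ y in x..(x + K * h), f y|) / 2 =
      ((∫ x in X..(2 * X), (∫ y in x..(x + K * h), |f y|)) -
        ∫ x in X..(2 * X), |∫ y in x..(x + K * h), f y|) / 2 := by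
    rw [intervalIntegral.integral_div, intervalIntegral.integral_sub
      (hcontA.intervalIntegrable _ _) (hcontB.intervalIntegrable _ _)]
  rw [hfin]
  have e2 : c0 / 4 * (K * h) * X * s =
      ((K : ℝ) * h * (3 / 4 * c0 * (X * s)) - (K : ℝ) * h * (1 / 4 * c0 * (X * s))) / 2 := by
    ring
  rw [e2]
  linarith

/-- a function with a large window integral of its positive part is often large -/
private theorem many_aux {f : ℝ → ℝ} (hf : LB f) {x L s a B m c : ℝ} (hL : 0 < L) (hs : 0 < s)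
    (ha : 0 < a) (hB : 0 < B)
    (h1 : a * (L * s) ≤ ((∫ y in x..(x + L), |f y|) - |∫ y in x..(x + L), f y|) / 2)
    (h2 : ∫ y in x..(x + L), f y ^ 2 ≤ B * (L * s ^ 2)) (hca : c ≤ a / 2)
    (hm : m ≤ a ^ 2 / (4 * B) * L) :
    m ≤ (volume {y | y ∈ Icc x (x + L) ∧ c * s ≤ f y}).toReal := by
  have hint : ∫ y in x..(x + L), max (f y) 0 =
      ((∫ y in x..(x + L), |f y|) + ∫ y in x..(x + L), f y) / 2 := by
    rw [← intervalIntegral.integral_add (hf.abs.ii _ _) (hf.ii _ _),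
      ← intervalIntegral.integral_div]
    congr 1
    funext y
    rcases le_total 0 (f y) with h | h
    · rw [max_eq_left h, abs_of_nonneg h]; ring
    · rw [max_eq_right h, abs_of_nonpos h]; ring
  have h3 : a * L * s ≤ ∫ y in x..(x + L), max (f y) 0 := by
    rw [hint]
    have := neg_abs_le (∫ y in x..(x + L), f y)
    have e : a * L * s = a * (L * s) := by ring
    rw [e]
    linarith
  have h4 := many hf hL hs ha hB h3 (by rw [mul_assoc]; exact h2)
  refine le_trans hm (le_trans h4 ?_)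
  refine ENNReal.toReal_mono ?_ (measure_mono ?_)
  · refine ne_top_of_le_ne_top ?_ (measure_mono (fun y hy => hy.1 : _ ⊆ Icc x (x + L)))
    rw [Real.volume_Icc]
    exact ENNReal.ofReal_ne_top
  · intro y hy
    refine ⟨hy.1, le_trans ?_ hy.2⟩
    exact mul_le_mul_of_nonneg_right hca hs.le

/-- Proof: `K = ⌈32 C0/c0²⌉₊ + 1`, `c1 = c0/4`, `L = K h`, `M x = (∫_x^{x+L} |f| - |∫_x^{x+L}
f|)/2`,
`F x = ∫_x^{x+L} f²`. `mean_min` gives `∫ M ≥ c1 L X s`; `win_upper`: `∫_X^{2X} F ≤ L ∫_X^{2X+L}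
f² ≤
C0 L X s²`; `0 ≤ M x ≤ ∫_x^{x+L} |f|`, so `M² ≤ L F` (`cs_int`). `big_set` with `B = C0` gives a
set `A` of
measure `≥ c1² X/(8 C0)`, and for `x ∈ A` `many` (for `f` and for `-f`) with `a = c1/4` and
`B = (2 C0/c1)²` applies, since `∫ max f 0 = (∫|f| + ∫ f)/2 ≥ M x` and `∫ max (-f) 0 = (∫|f| - ∫
f)/2 ≥ M x`. Take
`c = min` of `c1²/(8 C0)`, `a/2`, `a² K/(4B)`, `c0²/(16 C0 K)`, `1/K` (`h ≤ c X`). The outer set
contains `A`
and is contained in `[X, 2X]` (`measure_mono`, `ENNReal.toReal_mono`). -/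
theorem window (c0 C0 : ℝ) (hc : 0 < c0) (hC : 0 < C0) : ∃ (K : ℕ) (c : ℝ), 1 ≤ K ∧ 0 < c ∧
    ∀ (f : ℝ → ℝ) (X h s : ℝ), LB f → 0 < X → 0 < h → 0 < s → h ≤ c * X →
    c0 * X * s ≤ ∫ y in X..(2 * X), |f y| →
    ∫ y in X..(4 * X), f y ^ 2 ≤ C0 * X * s ^ 2 →
    ∫ y in X..(4 * X), (∑ k ∈ Finset.range K, f (y + k * h)) ^ 2 ≤ C0 * K * X * s ^ 2 →
    c * X ≤ (volume {x | x ∈ Icc X (2 * X) ∧
      c * h ≤ (volume {y | y ∈ Icc x (x + K * h) ∧ c * s ≤ f y}).toReal ∧
      c * h ≤ (volume {y | y ∈ Icc x (x + K * h) ∧ f y ≤ -(c * s)}).toReal}).toReal := by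
  obtain ⟨K, hKdef⟩ : ∃ K : ℕ, K = ⌈32 * C0 / c0 ^ 2⌉₊ + 1 := ⟨_, rfl⟩
  have hK : 1 ≤ K := by omega
  have hK' : (1 : ℝ) ≤ (K : ℝ) := by exact_mod_cast hK
  have hK0 : (0 : ℝ) < (K : ℝ) := by linarith
  have hK2 : 32 * C0 ≤ c0 ^ 2 * K := by
    have h1 : 32 * C0 / c0 ^ 2 ≤ (K : ℝ) := by
      rw [hKdef]
      push_cast
      have := Nat.le_ceil (32 * C0 / c0 ^ 2)
      linarith
    rw [div_le_iff₀ (by positivity)] at h1
    linarith
  obtain ⟨c1, hc1⟩ : ∃ c1 : ℝ, c1 = c0 / 4 := ⟨_, rfl⟩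
  have hc1p : 0 < c1 := by rw [hc1]; linarith
  obtain ⟨a, ha⟩ : ∃ a : ℝ, a = c1 / 4 := ⟨_, rfl⟩
  have hap : 0 < a := by rw [ha]; linarith
  obtain ⟨B, hB⟩ : ∃ B : ℝ, B = (2 * C0 / c1) ^ 2 := ⟨_, rfl⟩
  have hBp : 0 < B := by rw [hB]; positivity
  obtain ⟨c, hcdef⟩ : ∃ c : ℝ, c = min (min (c1 ^ 2 / (8 * C0)) (a / 2))
      (min (a ^ 2 * K / (4 * B)) (min (c0 ^ 2 / (16 * C0 * K)) (1 / K))) := ⟨_, rfl⟩
  have hcp : 0 < c := by
    rw [hcdef]
    refine lt_min (lt_min (by positivity) (by positivity)) (lt_min (by positivity)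
      (lt_min (by positivity) (by positivity)))
  have hm1 : c ≤ c1 ^ 2 / (8 * C0) := by
    rw [hcdef]; exact le_trans (min_le_left _ _) (min_le_left _ _)
  have hm2 : c ≤ a / 2 := by
    rw [hcdef]; exact le_trans (min_le_left _ _) (min_le_right _ _)
  have hm3 : c ≤ a ^ 2 * K / (4 * B) := by
    rw [hcdef]; exact le_trans (min_le_right _ _) (min_le_left _ _)
  have hm4 : c ≤ c0 ^ 2 / (16 * C0 * K) := by
    rw [hcdef]
    exact le_trans (min_le_right _ _) (le_trans (min_le_right _ _) (min_le_left _ _))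
  have hm5 : c ≤ 1 / K := by
    rw [hcdef]
    exact le_trans (min_le_right _ _) (le_trans (min_le_right _ _) (min_le_right _ _))
  refine ⟨K, c, hK, hcp, ?_⟩
  intro f X h s hf hX hh hs hhX h1 h2 h3
  have hLpos : 0 < (K : ℝ) * h := mul_pos hK0 hh
  have hL : 16 * C0 * (K * h) ≤ c0 ^ 2 * X := by
    have e1 : h ≤ c0 ^ 2 / (16 * C0 * K) * X :=
      le_trans hhX (mul_le_mul_of_nonneg_right hm4 hX.le)
    calc 16 * C0 * (K * h) = (16 * C0 * K) * h := by ring
      _ ≤ (16 * C0 * K) * (c0 ^ 2 / (16 * C0 * K) * X) :=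
          mul_le_mul_of_nonneg_left e1 (by positivity)
      _ = c0 ^ 2 * X := by field_simp
  have hL2 : K * h ≤ X := by
    have e1 : h ≤ 1 / K * X := le_trans hhX (mul_le_mul_of_nonneg_right hm5 hX.le)
    calc (K : ℝ) * h ≤ K * (1 / K * X) := mul_le_mul_of_nonneg_left e1 hK0.le
      _ = X := by field_simp
  have hmm := mean_min hf hc hC hX hh hs hK hK2 hL hL2 h1 h2 h3
  have hMc : Continuous (fun x =>
      ((∫ y in x..(x + K * h), |f y|) - |∫ y in x..(x + K * h), f y|) / 2) :=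
    ((win_cont hf.abs _).sub (win_cont hf _).abs).div_const 2
  have hFc : Continuous (fun x => ∫ y in x..(x + K * h), f y ^ 2) := win_cont hf.sq _
  have hF0 : ∀ x, 0 ≤ ∫ y in x..(x + K * h), f y ^ 2 := fun x =>
    intervalIntegral.integral_nonneg (by linarith) fun y _ => sq_nonneg _
  have hMF : ∀ x, (((∫ y in x..(x + K * h), |f y|) - |∫ y in x..(x + K * h), f y|) / 2) ^ 2 ≤
      (K * h) * ∫ y in x..(x + K * h), f y ^ 2 := by
    intro x
    have e1 := cs_int hf (a := x) (b := x + K * h) (by linarith)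
    have e2 : x + K * h - x = K * h := by ring
    rw [e2] at e1
    refine le_trans ?_ e1
    have e3 : |∫ y in x..(x + K * h), f y| ≤ ∫ y in x..(x + K * h), |f y| :=
      intervalIntegral.abs_integral_le_integral_abs (by linarith)
    have e4 := abs_nonneg (∫ y in x..(x + K * h), f y)
    refine pow_le_pow_left₀ (by linarith) (by linarith) 2
  have hFint : ∫ x in X..(2 * X), (∫ y in x..(x + K * h), f y ^ 2) ≤
      C0 * (K * h) * X * s ^ 2 := by
    have e1 := win_upper (g := fun y => f y ^ 2) hf.sq (fun y => sq_nonneg _)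
      (a := X) (b := 2 * X) (L := (K : ℝ) * h) (by linarith) hLpos.le
    refine le_trans e1 ?_
    have e2 : ∫ y in X..(2 * X + K * h), f y ^ 2 ≤ C0 * X * s ^ 2 :=
      le_trans (int_sub (g := fun y => f y ^ 2) hf.sq (fun y => sq_nonneg _) le_rfl (by linarith)
        (by linarith)) h2
    refine le_trans (mul_le_mul_of_nonneg_left e2 hLpos.le) (le_of_eq ?_)
    ring
  have hbig := big_set (M := fun x =>
      ((∫ y in x..(x + K * h), |f y|) - |∫ y in x..(x + K * h), f y|) / 2)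
    (F := fun x => ∫ y in x..(x + K * h), f y ^ 2) hMc hFc hF0 (X := X) (L := (K : ℝ) * h)
    (s := s) (c := c1) (B := C0) hX hLpos hs hc1p hC hMF (by rw [hc1]; exact hmm) hFint
  refine le_trans (mul_le_mul_of_nonneg_right hm1 hX.le) (le_trans hbig ?_)
  refine ENNReal.toReal_mono ?_ (measure_mono ?_)
  · refine ne_top_of_le_ne_top ?_ (measure_mono (fun y hy => hy.1 : _ ⊆ Icc X (2 * X)))
    rw [Real.volume_Icc]
    exact ENNReal.ofReal_ne_top
  · intro x hx
    obtain ⟨hx1, hx2, hx3⟩ := hx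
    rw [← ha] at hx2
    rw [← hB] at hx3
    have hmh : c * h ≤ a ^ 2 / (4 * B) * (K * h) := by
      refine le_trans (mul_le_mul_of_nonneg_right hm3 hh.le) (le_of_eq ?_)
      ring
    refine ⟨hx1, ?_, ?_⟩
    · exact many_aux hf hLpos hs hap hBp hx2 hx3 hm2 hmh
    · have e1 : a * (K * h * s) ≤
          ((∫ y in x..(x + K * h), |(-f y)|) - |∫ y in x..(x + K * h), (-f y)|) / 2 := by
        rw [intervalIntegral.integral_neg, abs_neg]
        simp only [abs_neg]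
        exact hx2
      have e2 : ∫ y in x..(x + K * h), (-f y) ^ 2 ≤ B * (K * h * s ^ 2) := by
        simp only [neg_sq]
        exact hx3
      have e3 := many_aux (f := fun y => -f y) hf.neg hLpos hs hap hBp e1 e2 hm2 hmh
      have e4 : {y | y ∈ Icc x (x + K * h) ∧ c * s ≤ -f y} =
          {y | y ∈ Icc x (x + K * h) ∧ f y ≤ -(c * s)} := by
        ext y
        simp only [mem_setOf_eq, le_neg (a := c * s)]
      rw [← e4]
      exact e3

end Pool.Agent.MP_a12917_nt_SC
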