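import Pool.Agent.Lib.MP_a12917_nt_SC.SReU
import Pool.Agent.Lib.MP_a12917_nt_SC.SReL
import Pool.Agent.Lib.MP_a12917_nt_SC.SWinB

/-!
# MP_a12917_nt, project SC, module SMain: assembly
-/

set_option autoImplicit false

noncomputable section

namespace Pool.Agent.MP_a12917_nt_SC

open Finset Pool.Agent.MP_a12917_nt_GT MeasureTheory Set

private theorem mono_a (f : ℝ → ℝ) (x L : ℝ) {a b : ℝ} (hab : b ≤ a) :
    (volume {y | y ∈ Icc x (x + L) ∧ a ≤ f y}).toReal ≤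
      (volume {y | y ∈ Icc x (x + L) ∧ b ≤ f y}).toReal := by
  refine ENNReal.toReal_mono ?_ (measure_mono fun y hy => ⟨hy.1, hab.trans hy.2⟩)
  exact ((measure_mono fun y hy => hy.1).trans_lt
    (show volume (Icc x (x + L)) < ⊤ from measure_Icc_lt_top)).ne

private theorem mono_b (f : ℝ → ℝ) (x L : ℝ) {a b : ℝ} (hab : b ≤ a) :
    (volume {y | y ∈ Icc x (x + L) ∧ f y ≤ -a}).toReal ≤
      (volume {y | y ∈ Icc x (x + L) ∧ f y ≤ -b}).toReal := by
  refine ENNReal.toReal_mono ?_ (measure_mono fun y hy => ⟨hy.1, hy.2.trans (by linarith)⟩)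
  exact ((measure_mono fun y hy => hy.1).trans_lt
    (show volume (Icc x (x + L)) < ⊤ from measure_Icc_lt_top)).ne

private theorem large (ε c : ℝ) (hε : 0 < ε) (hc : 0 < c) (K : ℕ) : ∃ X3 : ℝ, ∀ X H : ℝ,
    X3 ≤ X → X ^ ε ≤ H → H ≤ X ^ (1 / 4 - ε) →
    1 ≤ X ∧ 1 ≤ H ∧ H ≤ c * X ∧ 4 * H ^ 4 ≤ X ∧ 4 * (K * H) ^ 4 ≤ X := by
  have t1 := (tendsto_rpow_atTop (show 0 < 4 * ε by positivity)).eventually
    (Filter.eventually_ge_atTop (4 * ((K : ℝ) + 1) ^ 4))
  have t2 := (tendsto_rpow_atTop (show (0 : ℝ) < 3 / 4 by norm_num)).eventually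
    (Filter.eventually_ge_atTop (1 / c))
  obtain ⟨X3, h3⟩ := Filter.eventually_atTop.1
    (t1.and (t2.and (Filter.eventually_ge_atTop (1 : ℝ))))
  refine ⟨X3, fun X H hX h1 h2 => ?_⟩
  obtain ⟨a1, a2, a3⟩ := h3 X hX
  have hX0 : 0 < X := by linarith
  have hH1 : 1 ≤ H := (Real.one_le_rpow a3 hε.le).trans h1
  have hK0 : (0 : ℝ) ≤ K := Nat.cast_nonneg K
  have e1 : H ^ 4 ≤ X ^ (1 - 4 * ε) := by
    calc H ^ 4 ≤ (X ^ (1 / 4 - ε)) ^ 4 := pow_le_pow_left₀ (by linarith) h2 4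
      _ = X ^ (1 - 4 * ε) := by
          rw [← Real.rpow_natCast, ← Real.rpow_mul hX0.le]
          congr 1
          push_cast
          ring
  have e2 : X ^ (1 - 4 * ε) * X ^ (4 * ε) = X := by
    rw [← Real.rpow_add hX0]
    have : 1 - 4 * ε + 4 * ε = 1 := by ring
    rw [this, Real.rpow_one]
  have e3 : 4 * ((K : ℝ) + 1) ^ 4 * H ^ 4 ≤ X := by
    calc 4 * ((K : ℝ) + 1) ^ 4 * H ^ 4 ≤ X ^ (4 * ε) * X ^ (1 - 4 * ε) :=
          mul_le_mul a1 e1 (by positivity) (by positivity)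
      _ = X := by rw [mul_comm, e2]
  refine ⟨a3, hH1, ?_, ?_, ?_⟩
  · have e4 : H ≤ X ^ (1 / 4 : ℝ) :=
      h2.trans (Real.rpow_le_rpow_of_exponent_le a3 (by linarith))
    have e5 : X ^ (1 / 4 : ℝ) * X ^ (3 / 4 : ℝ) = X := by
      rw [← Real.rpow_add hX0]
      norm_num
    have e6 : 1 ≤ c * X ^ (3 / 4 : ℝ) := by
      rw [div_le_iff₀ hc] at a2
      linarith
    have e7 : (0 : ℝ) < X ^ (1 / 4 : ℝ) := Real.rpow_pos_of_pos hX0 _
    calc H ≤ X ^ (1 / 4 : ℝ) * 1 := by rw [mul_one]; exact e4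
      _ ≤ X ^ (1 / 4 : ℝ) * (c * X ^ (3 / 4 : ℝ)) := mul_le_mul_of_nonneg_left e6 e7.le
      _ = c * (X ^ (1 / 4 : ℝ) * X ^ (3 / 4 : ℝ)) := by ring
      _ = c * X := by rw [e5]
  · refine le_trans ?_ e3
    have : (1 : ℝ) ≤ ((K : ℝ) + 1) ^ 4 := one_le_pow₀ (by linarith)
    have h4 : 0 ≤ H ^ 4 := by positivity
    nlinarith
  · refine le_trans ?_ e3
    rw [mul_pow]
    have : (K : ℝ) ^ 4 ≤ ((K : ℝ) + 1) ^ 4 := pow_le_pow_left₀ hK0 (by linarith) 4
    have h4 : 0 ≤ H ^ 4 := by positivity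
    nlinarith [mul_le_mul_of_nonneg_right this h4]

/-- Proof: `window` for `f y = D (y+h) - D y`, `s = √(h log³ X)`, with the constants of `lower_re`
and `upper_re`; `∑_{k<K} f (y + k h) = D (y + K h) - D y` (telescoping), `upper_re` for `K h`; and
`σ ≤ √C s`. -/
theorem main (ε : ℝ) (hε : 0 < ε) : ∃ c K X0 : ℝ, 0 < c ∧ 0 < K ∧ 0 < X0 ∧ ∀ D : ℝ → ℝ, IsD D →
    ∀ X H : ℝ, X0 ≤ X → X ^ ε ≤ H → H ≤ X ^ (1 / 4 - ε) →
    0 < ∫ y in X..(2 * X), (D (y + H) - D y) ^ 2 ∧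
    c * X ≤ (volume {x | x ∈ Icc X (2 * X) ∧
      c * H ≤ (volume {y | y ∈ Icc x (x + K * H) ∧
        c * √((1 / X) * ∫ y in X..(2 * X), (D (y + H) - D y) ^ 2) ≤ D (y + H) - D y}).toReal ∧
      c * H ≤ (volume {y | y ∈ Icc x (x + K * H) ∧
        D (y + H) - D y ≤
          -(c * √((1 / X) * ∫ y in X..(2 * X), (D (y + H) - D y) ^ 2))}).toReal}).toReal := by
  obtain ⟨c1, X1, hc1, hX1, hlow⟩ := lower_re ε hε
  obtain ⟨C, X2, hC, hX2, hup⟩ := upper_re
  obtain ⟨K, c, hK, hc, hwin⟩ := window c1 C hc1 hC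
  obtain ⟨X3, hlarge⟩ := large ε c hε hc K
  have hsC : 0 < √C := Real.sqrt_pos.2 hC
  have hK1 : (1 : ℝ) ≤ K := by exact_mod_cast hK
  refine ⟨min c (c / √C), K, max X1 (max X2 X3), by positivity, by linarith, ?_, ?_⟩
  · have := le_max_left X1 (max X2 X3)
    linarith
  intro D hD X H hX h1 h2
  have hXX1 : X1 ≤ X := (le_max_left _ _).trans hX
  have hXX2 : X2 ≤ X := ((le_max_left _ _).trans (le_max_right _ _)).trans hX
  have hXX3 : X3 ≤ X := ((le_max_right _ _).trans (le_max_right _ _)).trans hX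
  obtain ⟨b1, b2, b3, b4, b5⟩ := hlarge X H hXX3 h1 h2
  have hX3 : 3 ≤ X := hX1.trans hXX1
  have hX0 : 0 < X := by linarith
  have hH0 : 0 < H := by linarith
  have hlog : 0 < Real.log X := Real.log_pos (by linarith)
  set f : ℝ → ℝ := fun y => D (y + H) - D y with hf
  have hLB : LB f := lb_f hD H
  set s : ℝ := √(H * Real.log X ^ 3) with hs
  have hs0 : 0 < s := Real.sqrt_pos.2 (by positivity)
  have hs2 : s ^ 2 = H * Real.log X ^ 3 := Real.sq_sqrt (by positivity)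
  have w1 : c1 * X * s ≤ ∫ y in X..(2 * X), |f y| := hlow D hD X H hXX1 h1 h2
  have w2 : ∫ y in X..(4 * X), f y ^ 2 ≤ C * X * s ^ 2 := by
    rw [hs2]
    exact hup D hD X H hXX2 b2 b4
  have w3 : ∫ y in X..(4 * X), (∑ k ∈ Finset.range K, f (y + k * H)) ^ 2 ≤
      C * K * X * s ^ 2 := by
    have e1 : ∀ y : ℝ, ∑ k ∈ Finset.range K, f (y + k * H) = D (y + K * H) - D y := by
      intro y
      have h3 := Finset.sum_range_sub (fun k : ℕ => D (y + k * H)) K
      have h4 : D (y + ((0 : ℕ) : ℝ) * H) = D y := by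
        congr 1
        push_cast
        ring
      rw [h4] at h3
      rw [← h3]
      refine Finset.sum_congr rfl fun k _ => ?_
      simp only [hf]
      congr 2
      push_cast
      ring
    simp only [e1]
    have h3 := hup D hD X (K * H) hXX2 (by nlinarith) b5
    refine h3.trans (le_of_eq ?_)
    rw [hs2]
    ring
  have key := hwin f X H s hLB hX0 hH0 hs0 b3 w1 w2 w3
  have hint0 : 0 < ∫ y in X..(2 * X), |f y| := lt_of_lt_of_le (by positivity) w1
  constructor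
  · have h3 := cs_int hLB (show X ≤ 2 * X by linarith)
    have h4 : 0 < (∫ y in X..(2 * X), |f y|) ^ 2 := by positivity
    have h5 : 0 < (2 * X - X) * ∫ y in X..(2 * X), f y ^ 2 := lt_of_lt_of_le h4 h3
    exact pos_of_mul_pos_right h5 (by linarith)
  · have hσ : √((1 / X) * ∫ y in X..(2 * X), f y ^ 2) ≤ √C * s := by
      have h3 : ∫ y in X..(2 * X), f y ^ 2 ≤ ∫ y in X..(4 * X), f y ^ 2 := by
        refine intervalIntegral.integral_mono_interval le_rfl (by linarith) (by linarith)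
          (Filter.Eventually.of_forall fun y => sq_nonneg _) (hLB.sq.ii X (4 * X))
      have h4 : (1 / X) * ∫ y in X..(2 * X), f y ^ 2 ≤ C * s ^ 2 := by
        rw [one_div_mul_eq_div, div_le_iff₀ hX0]
        linarith
      calc √((1 / X) * ∫ y in X..(2 * X), f y ^ 2) ≤ √(C * s ^ 2) := Real.sqrt_le_sqrt h4
        _ = √C * s := by rw [Real.sqrt_mul hC.le, Real.sqrt_sq hs0.le]
    have hcσ : min c (c / √C) * √((1 / X) * ∫ y in X..(2 * X), f y ^ 2) ≤ c * s := by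
      calc min c (c / √C) * √((1 / X) * ∫ y in X..(2 * X), f y ^ 2) ≤
          c / √C * (√C * s) := mul_le_mul (min_le_right _ _) hσ (Real.sqrt_nonneg _) (by positivity)
        _ = c * s := by field_simp
    have hcH : min c (c / √C) * H ≤ c * H := mul_le_mul_of_nonneg_right (min_le_left _ _) hH0.le
    have hcX : min c (c / √C) * X ≤ c * X := mul_le_mul_of_nonneg_right (min_le_left _ _) hX0.le
    refine hcX.trans (key.trans ?_)
    refine ENNReal.toReal_mono ?_ (measure_mono ?_)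
    · exact ((measure_mono fun y hy => hy.1).trans_lt
        (show volume (Icc X (2 * X)) < ⊤ from measure_Icc_lt_top)).ne
    · rintro x ⟨hx, hx1, hx2⟩
      exact ⟨hx, hcH.trans (hx1.trans (mono_a f x (K * H) hcσ)),
        hcH.trans (hx2.trans (mono_b f x (K * H) hcσ))⟩

end Pool.Agent.MP_a12917_nt_SC
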