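import Pool.Agent.Lib.MP_a12917_nt_SC.SLs
import Pool.Agent.Lib.MP_a12917_nt_GT.Cov
import Pool.Agent.Lib.MP_a12917_nt_GT.Per
import Pool.Agent.Lib.MP_a12917_nt_GT.LowA
import Pool.Agent.Lib.MP_a12917_nt_GT.LowB
import Pool.Agent.Lib.MP_a12917_nt_GT.Wt

/-!
# MP_a12917_nt, project SC, module SMu: upper bound of the mean square of `S z H`
-/

set_option autoImplicit false

noncomputable section

namespace Pool.Agent.MP_a12917_nt_SC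

open Finset Pool.Agent.MP_a12917_nt_GT

private theorem SMu_pt (z a b : ℕ) (ha : a ∈ Icc 1 z) (hb : b ∈ Icc 1 z) :
    1 / ((Nat.lcm a b : ℕ) : ℝ) ≤ ∑ g ∈ Icc 1 z, (g : ℝ) *
      ((if g ∣ a then 1 / (a : ℝ) else 0) * (if g ∣ b then 1 / (b : ℝ) else 0)) := by
  rw [mem_Icc] at ha hb
  have ha0 : 0 < a := ha.1
  have hb0 : 0 < b := hb.1
  have hg0 : 0 < Nat.gcd a b := Nat.gcd_pos_of_pos_left b ha0
  have hga : Nat.gcd a b ≤ a := Nat.gcd_le_left b ha0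
  have hmem : Nat.gcd a b ∈ Icc 1 z := mem_Icc.2 ⟨hg0, hga.trans ha.2⟩
  have hl0 : 0 < Nat.lcm a b := Nat.lcm_pos ha0 hb0
  have h1 : ((Nat.gcd a b : ℕ) : ℝ) * ((Nat.lcm a b : ℕ) : ℝ) = a * b := by
    exact_mod_cast Nat.gcd_mul_lcm a b
  have haR : (0 : ℝ) < a := by exact_mod_cast ha0
  have hbR : (0 : ℝ) < b := by exact_mod_cast hb0
  have hlR : (0 : ℝ) < ((Nat.lcm a b : ℕ) : ℝ) := by exact_mod_cast hl0
  have h2 : 1 / ((Nat.lcm a b : ℕ) : ℝ) = ((Nat.gcd a b : ℕ) : ℝ) *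
      ((if Nat.gcd a b ∣ a then 1 / (a : ℝ) else 0) *
        (if Nat.gcd a b ∣ b then 1 / (b : ℝ) else 0)) := by
    rw [if_pos (Nat.gcd_dvd_left a b), if_pos (Nat.gcd_dvd_right a b)]
    field_simp
    linarith
  rw [h2]
  refine single_le_sum (f := fun g : ℕ => (g : ℝ) *
      ((if g ∣ a then 1 / (a : ℝ) else 0) * (if g ∣ b then 1 / (b : ℝ) else 0)))
    (fun g _ => ?_) hmem
  refine mul_nonneg (Nat.cast_nonneg _) (mul_nonneg ?_ ?_)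
  · split_ifs
    · positivity
    · exact le_rfl
  · split_ifs
    · positivity
    · exact le_rfl

private theorem SMu_wt (z g : ℕ) :
    ∑ a ∈ Icc 1 z, (if g ∣ a then 1 / (a : ℝ) else 0) = wt z g := by
  unfold wt
  rw [sum_filter]

/-- Proof: `1/lcm(a,b) = gcd(a,b)/(ab) ≤ ∑_{g ≤ z, g ∣ a, g ∣ b} g/(ab)` (the term `g =
gcd(a,b)`), and with
`a = g a'`, `b = g b'`: `∑_{a,b ≤ z, g ∣ a, g ∣ b} g/(ab) = (1/g) hs(z/g)² ≤ (1/g) hs(z)²`; sum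
over
`g ≤ z`. -/
theorem lcm_sum (z : ℕ) :
    ∑ a ∈ Icc 1 z, ∑ b ∈ Icc 1 z, 1 / ((Nat.lcm a b : ℕ) : ℝ) ≤ hs z ^ 3 := by
  have h1 : ∑ a ∈ Icc 1 z, ∑ b ∈ Icc 1 z, 1 / ((Nat.lcm a b : ℕ) : ℝ) ≤
      ∑ a ∈ Icc 1 z, ∑ b ∈ Icc 1 z, ∑ g ∈ Icc 1 z, (g : ℝ) *
        ((if g ∣ a then 1 / (a : ℝ) else 0) * (if g ∣ b then 1 / (b : ℝ) else 0)) :=
    sum_le_sum fun a ha => sum_le_sum fun b hb => SMu_pt z a b ha hb
  have h2 : ∑ a ∈ Icc 1 z, ∑ b ∈ Icc 1 z, ∑ g ∈ Icc 1 z, (g : ℝ) *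
        ((if g ∣ a then 1 / (a : ℝ) else 0) * (if g ∣ b then 1 / (b : ℝ) else 0)) =
      ∑ g ∈ Icc 1 z, (g : ℝ) * (wt z g * wt z g) := by
    have h3 : ∀ a ∈ Icc 1 z, ∑ b ∈ Icc 1 z, ∑ g ∈ Icc 1 z, (g : ℝ) *
        ((if g ∣ a then 1 / (a : ℝ) else 0) * (if g ∣ b then 1 / (b : ℝ) else 0)) =
        ∑ g ∈ Icc 1 z, (g : ℝ) * ((if g ∣ a then 1 / (a : ℝ) else 0) * wt z g) := by
      intro a _
      rw [sum_comm]
      refine sum_congr rfl fun g _ => ?_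
      rw [← mul_sum, ← mul_sum, SMu_wt]
    rw [sum_congr rfl h3, sum_comm]
    refine sum_congr rfl fun g _ => ?_
    rw [← mul_sum, ← sum_mul, SMu_wt]
  rw [h2] at h1
  refine h1.trans ?_
  have h4 : ∀ g ∈ Icc 1 z, (g : ℝ) * (wt z g * wt z g) ≤ hs z ^ 2 * (1 / (g : ℝ)) := by
    intro g hg
    rw [mem_Icc] at hg
    have hgR : (0 : ℝ) < g := by exact_mod_cast hg.1
    have h5 := wt_le z g hg.1
    have h6 := wt_nonneg z g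
    have h7 : wt z g * wt z g ≤ (hs z / g) * (hs z / g) :=
      mul_le_mul h5 h5 h6 (h6.trans h5)
    calc (g : ℝ) * (wt z g * wt z g) ≤ g * ((hs z / g) * (hs z / g)) :=
          mul_le_mul_of_nonneg_left h7 hgR.le
      _ = hs z ^ 2 * (1 / (g : ℝ)) := by
          field_simp
  refine (sum_le_sum h4).trans ?_
  rw [← mul_sum]
  change hs z ^ 2 * hs z ≤ hs z ^ 3
  exact le_of_eq (by ring)

/-- Proof: `mean S² = ∑_{a,b ≤ z} mean (Ua a H * Ua b H)` (see the proof of `low_a`, module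
GT/LowA),
`cov_le` (module GT/Cov; `a ∣ Lm z` by `dvd_Lm`) and `lcm_sum`. -/
theorem mean_le (z H : ℕ) : mean (Lm z) (fun x => S z H x ^ 2) ≤ H * hs z ^ 3 := by
  have hL := Lm_pos z
  have hexp : mean (Lm z) (fun x => S z H x ^ 2) =
      ∑ u ∈ Icc 1 z ×ˢ Icc 1 z, mean (Lm z) (fun x => Ua u.1 H x * Ua u.2 H x) := by
    rw [← mean_sum]
    refine mean_congr _ _ _ fun x => ?_
    unfold S
    rw [sq, sum_mul_sum, sum_product]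
  have h1 : ∑ u ∈ Icc 1 z ×ˢ Icc 1 z, mean (Lm z) (fun x => Ua u.1 H x * Ua u.2 H x) ≤
      ∑ u ∈ Icc 1 z ×ˢ Icc 1 z, (H : ℝ) * (1 / ((Nat.lcm u.1 u.2 : ℕ) : ℝ)) := by
    refine sum_le_sum fun u hu => ?_
    rw [mem_product, mem_Icc, mem_Icc] at hu
    have h2 := cov_le u.1 u.2 H (Lm z) (dvd_Lm z u.1 hu.1.1 hu.1.2)
      (dvd_Lm z u.2 hu.2.1 hu.2.2) hL
    rwa [mul_one_div]
  rw [hexp]
  refine h1.trans ?_
  rw [← mul_sum, sum_product]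
  exact mul_le_mul_of_nonneg_left (lcm_sum z) (Nat.cast_nonneg _)

/-- Proof: `hs (8 Y) - hs Y = ∑_{Y < a ≤ 8Y} 1/a ≤ 7Y/Y`; `hs Y ≥ 1` (`one_le_hs`). -/
theorem hs_eight (Y : ℕ) (hY : 1 ≤ Y) : hs (8 * Y) ≤ 8 * hs Y := by
  have hYR : (0 : ℝ) < Y := by exact_mod_cast hY
  have h0 : hs (8 * Y) = hs Y + ∑ a ∈ Ioc Y (8 * Y), 1 / (a : ℝ) := by
    unfold hs
    have hd : Disjoint (Icc 1 Y) (Ioc Y (8 * Y)) := by
      rw [disjoint_left]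
      intro a h1 h2
      rw [mem_Icc] at h1
      rw [mem_Ioc] at h2
      omega
    rw [← sum_union hd]
    refine sum_congr ?_ fun _ _ => rfl
    ext a
    rw [mem_union, mem_Icc, mem_Icc, mem_Ioc]
    omega
  have h1 : ∑ a ∈ Ioc Y (8 * Y), 1 / (a : ℝ) ≤ ∑ a ∈ Ioc Y (8 * Y), 1 / (Y : ℝ) := by
    refine sum_le_sum fun a ha => ?_
    rw [mem_Ioc] at ha
    have : (Y : ℝ) ≤ a := by exact_mod_cast ha.1.le
    exact one_div_le_one_div_of_le hYR this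
  have h2 : ∑ a ∈ Ioc Y (8 * Y), 1 / (Y : ℝ) = 7 := by
    rw [sum_const, Nat.card_Ioc, nsmul_eq_mul]
    have : 8 * Y - Y = 7 * Y := by omega
    rw [this]
    push_cast
    field_simp
  have h3 := one_le_hs Y hY
  rw [h0]
  linarith

/-- Proof: `ls`, `mean_le`, `4Y + z⁴/Y ≤ 260 Y`. -/
theorem S_sq (z H Y : ℕ) (hz : 1 ≤ z) (hY : 1 ≤ Y) (h : z ^ 2 ≤ 16 * Y) :
    ∑ x ∈ Ico Y (2 * Y), S z H (x : ℤ) ^ 2 ≤ 260 * Y * (H * hs z ^ 3) := by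
  have hYR : (0 : ℝ) < Y := by exact_mod_cast hY
  have h1 := ls z H Y hz hY
  have h2 := mean_le z H
  have h3 : (z : ℝ) ^ 2 ≤ 16 * Y := by exact_mod_cast h
  have h4 : (z : ℝ) ^ 4 / Y ≤ 256 * Y := by
    rw [div_le_iff₀ hYR]
    have h5 : (z : ℝ) ^ 4 = (z : ℝ) ^ 2 * (z : ℝ) ^ 2 := by ring
    rw [h5]
    have h6 : (z : ℝ) ^ 2 * (z : ℝ) ^ 2 ≤ (16 * Y) * (16 * Y) :=
      mul_le_mul h3 h3 (by positivity) (by positivity)
    linarith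
  have h7 : 0 ≤ mean (Lm z) (fun x => S z H x ^ 2) := mean_nonneg _ _ fun x => sq_nonneg _
  refine h1.trans ?_
  have h8 : 4 * (Y : ℝ) + (z : ℝ) ^ 4 / Y ≤ 260 * Y := by linarith
  exact mul_le_mul h8 h2 h7 (by positivity)

end Pool.Agent.MP_a12917_nt_SC
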