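import Pool.Agent.Lib.MP_a12917_nt_SC.SDefs
import Pool.Agent.Lib.MP_a12917_nt_GT.Cov
import Pool.Agent.Lib.MP_a12917_nt_GT.Trans

/-!
# MP_a12917_nt, project SC, module SPair: sums over short intervals of a product `Ua a * Ua b`
-/

set_option autoImplicit false

noncomputable section

namespace Pool.Agent.MP_a12917_nt_SC

open Finset Pool.Agent.MP_a12917_nt_GT

/-- Proof: `L = lcm(a,b)`, `g = gcd(a,b)`, `|Ua a H x| ≤ na a H x + H/a` (`Cov.na` = the number of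
multiples). So the sum is at most
`L mean((na a + H/a)(na b + H/b)) = L (np g H / L + 3 H²/(ab)) = np g H + 3 H²/g ≤ H²/g + H +
3H²/g ≤ 5H²`
(`Cov.mean_nanb`, `Cov.mean_na`, `Cov.np_upper`, `g L = a b`). -/
theorem abs_sum (a b H : ℕ) (ha : 1 ≤ a) (hb : 1 ≤ b) (hH : 1 ≤ H) :
    ∑ x ∈ range (Nat.lcm a b), |Ua a H (x : ℤ) * Ua b H (x : ℤ)| ≤ 5 * (H : ℝ) ^ 2 := by
  have ha0 : (0 : ℝ) < a := by exact_mod_cast ha
  have hb0 : (0 : ℝ) < b := by exact_mod_cast hb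
  have hH1 : (1 : ℝ) ≤ H := by exact_mod_cast hH
  have hL0 : 0 < Nat.lcm a b := Nat.lcm_pos ha hb
  have hL : (0 : ℝ) < ((Nat.lcm a b : ℕ) : ℝ) := by exact_mod_cast hL0
  have hg0 : 0 < Nat.gcd a b := Nat.gcd_pos_of_pos_left b ha
  have hg : (0 : ℝ) < ((Nat.gcd a b : ℕ) : ℝ) := by exact_mod_cast hg0
  have hg1 : (1 : ℝ) ≤ ((Nat.gcd a b : ℕ) : ℝ) := by exact_mod_cast hg0
  have hgl : ((Nat.gcd a b : ℕ) : ℝ) * ((Nat.lcm a b : ℕ) : ℝ) = a * b := by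
    exact_mod_cast Nat.gcd_mul_lcm a b
  have hna : ∀ (c : ℕ) (x : ℤ), 0 ≤ Cov.na c H x := by
    intro c x
    unfold Cov.na
    refine sum_nonneg fun h _ => ?_
    split_ifs <;> norm_num
  have habs : ∀ (c : ℕ) (x : ℤ), |Ua c H x| ≤ Cov.na c H x + (H : ℝ) / c := by
    intro c x
    have h1 : Ua c H x = Cov.na c H x - (H : ℝ) / c := rfl
    have h2 : (0 : ℝ) ≤ (H : ℝ) / c := by positivity
    rw [h1, abs_le]
    constructor
    · linarith [hna c x]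
    · linarith [hna c x]
  have h1 : ∑ x ∈ range (Nat.lcm a b), |Ua a H (x : ℤ) * Ua b H (x : ℤ)| ≤
      ∑ x ∈ range (Nat.lcm a b), (Cov.na a H (x : ℤ) * Cov.na b H (x : ℤ) +
        ((H : ℝ) / b * Cov.na a H (x : ℤ) + ((H : ℝ) / a * Cov.na b H (x : ℤ) +
          (H : ℝ) / a * ((H : ℝ) / b)))) := by
    refine sum_le_sum fun x _ => ?_
    rw [abs_mul]
    have h2 := mul_le_mul (habs a x) (habs b x) (abs_nonneg _)
      (add_nonneg (hna a x) (by positivity))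
    calc _ ≤ _ := h2
      _ = _ := by ring
  have h2 : ∑ x ∈ range (Nat.lcm a b), (Cov.na a H (x : ℤ) * Cov.na b H (x : ℤ) +
        ((H : ℝ) / b * Cov.na a H (x : ℤ) + ((H : ℝ) / a * Cov.na b H (x : ℤ) +
          (H : ℝ) / a * ((H : ℝ) / b)))) =
      ((Nat.lcm a b : ℕ) : ℝ) * mean (Nat.lcm a b) (fun x => Cov.na a H x * Cov.na b H x +
        ((H : ℝ) / b * Cov.na a H x + ((H : ℝ) / a * Cov.na b H x +
          (H : ℝ) / a * ((H : ℝ) / b)))) := by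
    unfold mean
    rw [mul_div_cancel₀ _ hL.ne']
  rw [mean_add, Cov.mean_nanb a b H _ (Nat.dvd_lcm_left a b) (Nat.dvd_lcm_right a b) hL0,
    mean_add, mean_const_mul, Cov.mean_na a H _ (Nat.dvd_lcm_left a b) hL0, mean_add,
    mean_const_mul, Cov.mean_na b H _ (Nat.dvd_lcm_right a b) hL0, mean_const _ hL0] at h2
  have h3 := Cov.np_upper (Nat.gcd a b) H hg0
  have h4 : ((Nat.lcm a b : ℕ) : ℝ) * (Cov.np (Nat.gcd a b) H / ((Nat.lcm a b : ℕ) : ℝ) +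
      ((H : ℝ) / b * ((H : ℝ) / a) + ((H : ℝ) / a * ((H : ℝ) / b) +
        (H : ℝ) / a * ((H : ℝ) / b)))) = Cov.np (Nat.gcd a b) H +
          3 * ((H : ℝ) ^ 2 / ((Nat.gcd a b : ℕ) : ℝ)) := by
    have h5 : (H : ℝ) / b * ((H : ℝ) / a) = (H : ℝ) ^ 2 / (a * b) := by field_simp
    have h6 : (H : ℝ) / a * ((H : ℝ) / b) = (H : ℝ) ^ 2 / (a * b) := by field_simp
    rw [h5, h6, ← hgl]
    field_simp
    ring
  have h5 : (H : ℝ) ^ 2 / ((Nat.gcd a b : ℕ) : ℝ) ≤ (H : ℝ) ^ 2 :=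
    div_le_self (by positivity) hg1
  have h6 : (H : ℝ) ≤ (H : ℝ) ^ 2 := by nlinarith
  rw [h4] at h2
  rw [h2] at h1
  linarith

private theorem SPair_sum (Q : ℕ) (hQ : 0 < Q) (f : ℤ → ℝ) (hf : ∀ x, f (x + (Q : ℤ)) = f x)
    {T : ℝ} (hf1 : ∑ x ∈ range Q, |f (x : ℤ)| ≤ T) (n Y : ℕ) :
    |∑ j ∈ range n, f ((j : ℤ) + (Y : ℤ)) - n * mean Q f| ≤ 2 * T := by
  set F : ℤ → ℝ := fun x => f (x + (Y : ℤ)) with hF
  have hFp : ∀ x, F (x + (Q : ℤ)) = F x := by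
    intro x
    simp only [hF]
    rw [← hf (x + (Y : ℤ))]
    congr 1
    ring
  have hm : mean Q F = mean Q f := mean_shift Q f hf Y
  have hQr : (0 : ℝ) < (Q : ℝ) := by exact_mod_cast hQ
  have hFT : ∑ x ∈ range Q, |F (x : ℤ)| ≤ T := by
    have h1 : mean Q (fun x => |f (x + (Y : ℤ))|) = mean Q (fun x => |f x|) :=
      mean_shift Q (fun x => |f x|) (fun x => by rw [hf x]) Y
    unfold mean at h1
    have h2 := (div_left_inj' hQr.ne').1 h1
    calc ∑ x ∈ range Q, |F (x : ℤ)| = ∑ x ∈ range Q, |f (x : ℤ)| := h2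
      _ ≤ T := hf1
  have hn := Nat.div_add_mod n Q
  set k := n / Q with hk
  set r := n % Q with hr
  have hrQ : r < Q := Nat.mod_lt _ hQ
  have h1 : ∑ j ∈ range n, f ((j : ℤ) + (Y : ℤ)) =
      ∑ j ∈ range (Q * k), F j + ∑ j ∈ range r, F ((Q * k + j : ℕ) : ℤ) := by
    rw [← hn, sum_range_add]
  have h2 : ∑ j ∈ range (Q * k), F j = ((Q * k : ℕ) : ℝ) * mean Q f := by
    rcases Nat.eq_zero_or_pos k with h0 | h0
    · rw [h0]; simp
    · have hpos : 0 < Q * k := Nat.mul_pos hQ h0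
      have h3 := mean_of_dvd Q (Q * k) (dvd_mul_right Q k) hpos F hFp
      rw [hm] at h3
      unfold mean at h3 ⊢
      have hne : ((Q * k : ℕ) : ℝ) ≠ 0 := by
        have : (0 : ℝ) < ((Q * k : ℕ) : ℝ) := by exact_mod_cast hpos
        exact this.ne'
      rw [← h3]
      field_simp
  have h3 : |∑ j ∈ range r, F ((Q * k + j : ℕ) : ℤ)| ≤ T := by
    refine (abs_sum_le_sum_abs _ _).trans (le_trans ?_ hFT)
    have e1 : ∀ j ∈ range r, |F ((Q * k + j : ℕ) : ℤ)| = |F (j : ℤ)| := by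
      intro j _
      rw [← per_mul Q k F hFp (j : ℤ)]
      congr 2
      push_cast
      ring
    rw [sum_congr rfl e1]
    exact sum_le_sum_of_subset_of_nonneg (range_subset_range.2 hrQ.le)
      fun j _ _ => abs_nonneg _
  have h4 : |(r : ℝ) * mean Q f| ≤ T := by
    have e1 : |mean Q f| ≤ T / Q := by
      refine (abs_mean_le Q f).trans ?_
      unfold mean
      exact div_le_div_of_nonneg_right hf1 hQr.le
    have e2 : (r : ℝ) ≤ Q := by exact_mod_cast hrQ.le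
    rw [abs_mul, Nat.abs_cast]
    calc (r : ℝ) * |mean Q f| ≤ (Q : ℝ) * (T / Q) :=
        mul_le_mul e2 e1 (abs_nonneg _) hQr.le
      _ = T := by field_simp
  have h5 : (n : ℝ) = ((Q * k : ℕ) : ℝ) + r := by
    rw [← hn]
    push_cast
    ring
  rw [h1, h2, h5]
  have h6 : ((Q * k : ℕ) : ℝ) * mean Q f + ∑ j ∈ range r, F ((Q * k + j : ℕ) : ℤ) -
      (((Q * k : ℕ) : ℝ) + r) * mean Q f =
      ∑ j ∈ range r, F ((Q * k + j : ℕ) : ℤ) - r * mean Q f := by ring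
  rw [h6]
  have h9 := abs_sub (∑ j ∈ range r, F ((Q * k + j : ℕ) : ℤ)) ((r : ℝ) * mean Q f)
  linarith

/-- Proof: `L = lcm(a,b)`, `F x = Ua a H x * Ua b H x` is periodic mod `L` (`Ua_per`),
`B - A = k L + r`, `r < L`: the sum over the `k` full periods is `k L mean L F`, and
`k L mean L F ≥ (B - A) mean L F - L mean L F`, `L mean L F ≤ ∑_{x < L} |F x| ≤ 5H²` (`mean ≥ 0`
is not
needed); the sum over the remaining `r < L` elements is at least `-∑ |F|` over a full period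
(`≥ -5H²`). For full periods starting at `A` see `sum_sub_mean` in GT/Trans (`mean_shift`). -/
theorem pair (a b H : ℕ) (ha : 1 ≤ a) (hb : 1 ≤ b) (hH : 1 ≤ H) (A B : ℕ) (hAB : A ≤ B) :
    ((B : ℝ) - A) * mean (Nat.lcm a b) (fun x => Ua a H x * Ua b H x) - 10 * (H : ℝ) ^ 2 ≤
      ∑ x ∈ Ico A B, Ua a H (x : ℤ) * Ua b H (x : ℤ) := by
  have hL0 : 0 < Nat.lcm a b := Nat.lcm_pos ha hb
  have h1 := SPair_sum (Nat.lcm a b) hL0 (fun x => Ua a H x * Ua b H x)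
    (fun x => by
      show Ua a H (x + ((Nat.lcm a b : ℕ) : ℤ)) * Ua b H (x + ((Nat.lcm a b : ℕ) : ℤ)) = _
      rw [Ua_per a H _ (Nat.dvd_lcm_left a b), Ua_per b H _ (Nat.dvd_lcm_right a b)])
    (abs_sum a b H ha hb hH) (B - A) A
  have h2 : ∑ x ∈ Ico A B, Ua a H (x : ℤ) * Ua b H (x : ℤ) =
      ∑ j ∈ range (B - A), Ua a H ((j : ℤ) + (A : ℤ)) * Ua b H ((j : ℤ) + (A : ℤ)) := by
    rw [sum_Ico_eq_sum_range]
    refine sum_congr rfl fun j _ => ?_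
    rw [show (((A + j : ℕ)) : ℤ) = (j : ℤ) + (A : ℤ) by push_cast; ring]
  have h3 : ((B - A : ℕ) : ℝ) = (B : ℝ) - A := Nat.cast_sub hAB
  rw [h3] at h1
  rw [h2]
  have h4 := (abs_le.1 h1).1
  linarith

end Pool.Agent.MP_a12917_nt_SC
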