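import Mathlib

/-!
# MP_a12917_nt, project SC, module SWin: moving windows (real analysis only)

In all statements `f` is a measurable function which is bounded on bounded sets, so `f`, `|f|`,
`f²`,
`max f 0` are interval integrable on every interval.
-/

set_option autoImplicit false

noncomputable section

namespace Pool.Agent.MP_a12917_nt_SC

open Finset MeasureTheory Set

/-- measurable and bounded on bounded sets -/
def LB (f : ℝ → ℝ) : Prop := Measurable f ∧ ∀ R, ∃ M, ∀ y, |y| ≤ R → |f y| ≤ M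

/-- Proof: bounded and measurable on a bounded interval
(`Measure.integrableOn_of_bounded` or `IntervalIntegrable` from `Integrable.mono`). -/
theorem LB.ii {f : ℝ → ℝ} (hf : LB f) (a b : ℝ) : IntervalIntegrable f volume a b := by
  obtain ⟨hm, hb⟩ := hf
  obtain ⟨M, hM⟩ := hb (|a| + |b|)
  rw [intervalIntegrable_iff]
  refine Measure.integrableOn_of_bounded (M := M) ?_ hm.aestronglyMeasurable ?_
  · rw [uIoc, Real.volume_Ioc]
    exact ENNReal.ofReal_ne_top
  · rw [ae_restrict_iff' measurableSet_uIoc]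
    refine Filter.Eventually.of_forall fun y hy => ?_
    rw [Real.norm_eq_abs]
    apply hM
    rw [mem_uIoc] at hy
    have h1 := neg_abs_le a
    have h2 := neg_abs_le b
    have h3 := le_abs_self a
    have h4 := le_abs_self b
    have h5 := abs_nonneg a
    have h6 := abs_nonneg b
    rw [abs_le]
    rcases hy with hy | hy
    · constructor <;> linarith [hy.1, hy.2]
    · constructor <;> linarith [hy.1, hy.2]

theorem LB.abs {f : ℝ → ℝ} (hf : LB f) : LB (fun y => |f y|) := by
  obtain ⟨hm, hb⟩ := hf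
  refine ⟨hm.abs, fun R => ?_⟩
  obtain ⟨M, hM⟩ := hb R
  exact ⟨M, fun y hy => by rw [abs_abs]; exact hM y hy⟩

theorem LB.sq {f : ℝ → ℝ} (hf : LB f) : LB (fun y => f y ^ 2) := by
  obtain ⟨hm, hb⟩ := hf
  refine ⟨hm.pow_const 2, fun R => ?_⟩
  obtain ⟨M, hM⟩ := hb R
  refine ⟨M ^ 2, fun y hy => ?_⟩
  rw [abs_pow]
  exact pow_le_pow_left₀ (abs_nonneg _) (hM y hy) 2

theorem LB.neg {f : ℝ → ℝ} (hf : LB f) : LB (fun y => -f y) := by
  obtain ⟨hm, hb⟩ := hf
  refine ⟨hm.neg, fun R => ?_⟩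
  obtain ⟨M, hM⟩ := hb R
  exact ⟨M, fun y hy => by rw [abs_neg]; exact hM y hy⟩

theorem LB.pos {f : ℝ → ℝ} (hf : LB f) : LB (fun y => max (f y) 0) := by
  obtain ⟨hm, hb⟩ := hf
  refine ⟨hm.max measurable_const, fun R => ?_⟩
  obtain ⟨M, hM⟩ := hb R
  refine ⟨M, fun y hy => ?_⟩
  have h1 := hM y hy
  have h2 : |max (f y) 0| ≤ |f y| := by
    rw [abs_of_nonneg (le_max_right _ _)]
    exact max_le (le_abs_self _) (abs_nonneg _)
  exact h2.trans h1

/-- Proof: the bound for `|y| ≤ R + |K h|`. -/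
theorem LB.shift {f : ℝ → ℝ} (hf : LB f) (K : ℕ) (h : ℝ) :
    LB (fun y => ∑ k ∈ Finset.range K, f (y + k * h)) := by
  obtain ⟨hm, hb⟩ := hf
  refine ⟨Finset.measurable_sum _ fun k _ => hm.comp (measurable_id.add_const _), fun R => ?_⟩
  obtain ⟨M, hM⟩ := hb (R + K * |h|)
  refine ⟨∑ k ∈ Finset.range K, M, fun y hy => ?_⟩
  refine (Finset.abs_sum_le_sum_abs _ _).trans ?_
  refine Finset.sum_le_sum fun k hk => hM _ ?_
  refine (abs_add_le _ _).trans ?_
  have hk' : (k : ℝ) ≤ K := by exact_mod_cast (Finset.mem_range.1 hk).le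
  have h1 : |(k : ℝ) * h| ≤ K * |h| := by
    rw [abs_mul, abs_of_nonneg (Nat.cast_nonneg k)]
    exact mul_le_mul_of_nonneg_right hk' (abs_nonneg _)
  linarith

private theorem prim_cont {f : ℝ → ℝ} (hf : LB f) : Continuous (fun x => ∫ y in (0 : ℝ)..x, f y) :=
  intervalIntegral.continuous_primitive (fun a b => hf.ii a b) 0

private theorem win_eq {f : ℝ → ℝ} (hf : LB f) (a b : ℝ) :
    ∫ y in a..b, f y = (∫ y in (0 : ℝ)..b, f y) - ∫ y in (0 : ℝ)..a, f y := by
  rw [intervalIntegral.integral_interval_sub_left (hf.ii 0 b) (hf.ii 0 a)]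

/-- Proof: `∫_x^{x+L} f = G (x + L) - G x` with `G x = ∫_0^x f`, which is continuous
(`intervalIntegral.continuous_primitive`). -/
theorem win_cont {f : ℝ → ℝ} (hf : LB f) (L : ℝ) :
    Continuous (fun x => ∫ y in x..(x + L), f y) := by
  have h1 : (fun x => ∫ y in x..(x + L), f y) =
      fun x => (∫ y in (0 : ℝ)..(x + L), f y) - ∫ y in (0 : ℝ)..x, f y := by
    funext x
    exact win_eq hf x (x + L)
  rw [h1]
  exact ((prim_cont hf).comp (continuous_id.add continuous_const)).sub (prim_cont hf)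

private theorem prim_mono {g : ℝ → ℝ} (hg : LB g) (h0 : ∀ y, 0 ≤ g y) :
    Monotone (fun x => ∫ y in (0 : ℝ)..x, g y) := by
  intro x y hxy
  have h1 := win_eq hg x y
  have h2 : 0 ≤ ∫ t in x..y, g t := intervalIntegral.integral_nonneg hxy fun t _ => h0 t
  simp only
  linarith

private theorem win_double {g : ℝ → ℝ} (hg : LB g) (a b L : ℝ) :
    ∫ x in a..b, (∫ y in x..(x + L), g y) =
      (∫ x in b..(b + L), (∫ y in (0 : ℝ)..x, g y)) -
        ∫ x in a..(a + L), (∫ y in (0 : ℝ)..x, g y) := by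
  have hc := prim_cont hg
  have hi : ∀ u v : ℝ, IntervalIntegrable (fun x => ∫ y in (0 : ℝ)..x, g y) volume u v :=
    fun u v => hc.intervalIntegrable u v
  have h1 : ∫ x in a..b, (∫ y in x..(x + L), g y) =
      ∫ x in a..b, ((∫ y in (0 : ℝ)..(x + L), g y) - ∫ y in (0 : ℝ)..x, g y) := by
    refine intervalIntegral.integral_congr fun x _ => ?_
    exact win_eq hg x (x + L)
  have hs : IntervalIntegrable (fun x => ∫ y in (0 : ℝ)..(x + L), g y) volume a b :=
    (hc.comp (continuous_id.add continuous_const)).intervalIntegrable a b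
  rw [h1, intervalIntegral.integral_sub hs (hi a b)]
  have h2 : ∫ x in a..b, (∫ y in (0 : ℝ)..(x + L), g y) =
      ∫ x in (a + L)..(b + L), (∫ y in (0 : ℝ)..x, g y) :=
    intervalIntegral.integral_comp_add_right (fun x => ∫ y in (0 : ℝ)..x, g y) L
  rw [h2]
  have h3 := intervalIntegral.integral_add_adjacent_intervals (hi (a + L) b) (hi b (b + L))
  have h4 := intervalIntegral.integral_add_adjacent_intervals (hi a (a + L)) (hi (a + L) b)
  linarith

private theorem int_bounds {G : ℝ → ℝ} (hc : Continuous G) (hm : Monotone G) {u L : ℝ}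
    (hL : 0 ≤ L) : L * G u ≤ ∫ x in u..(u + L), G x ∧ ∫ x in u..(u + L), G x ≤ L * G (u + L) := by
  have hu : u ≤ u + L := by linarith
  constructor
  · have h1 : ∫ _x in u..(u + L), G u ≤ ∫ x in u..(u + L), G x :=
      intervalIntegral.integral_mono_on hu intervalIntegrable_const
        (hc.intervalIntegrable _ _) fun x hx => hm hx.1
    rw [intervalIntegral.integral_const, smul_eq_mul, add_sub_cancel_left] at h1
    exact h1
  · have h1 : ∫ x in u..(u + L), G x ≤ ∫ _x in u..(u + L), G (u + L) :=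
      intervalIntegral.integral_mono_on hu (hc.intervalIntegrable _ _)
        intervalIntegrable_const fun x hx => hm hx.2
    rw [intervalIntegral.integral_const, smul_eq_mul, add_sub_cancel_left] at h1
    exact h1

/-- Proof: `G x = ∫_0^x g` is continuous and monotone, the left side is
`∫_a^b (G (x+L) - G x) dx = ∫_b^{b+L} G - ∫_a^{a+L} G ≤ L G(b+L) - L G(a)`. -/
theorem win_upper {g : ℝ → ℝ} (hg : LB g) (h0 : ∀ y, 0 ≤ g y) {a b L : ℝ} (hab : a ≤ b)
    (hL : 0 ≤ L) :
    ∫ x in a..b, (∫ y in x..(x + L), g y) ≤ L * ∫ y in a..(b + L), g y := by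
  rw [win_double hg a b L, win_eq hg a (b + L)]
  have h1 := (int_bounds (prim_cont hg) (prim_mono hg h0) (u := b) hL).2
  have h2 := (int_bounds (prim_cont hg) (prim_mono hg h0) (u := a) hL).1
  rw [mul_sub]
  linarith

/-- Proof: as in `win_upper`: `∫_b^{b+L} G - ∫_a^{a+L} G ≥ L G(b) - L G(a+L)`. -/
theorem win_lower {g : ℝ → ℝ} (hg : LB g) (h0 : ∀ y, 0 ≤ g y) {a b L : ℝ} (hab : a ≤ b)
    (hL : 0 ≤ L) :
    L * ∫ y in (a + L)..b, g y ≤ ∫ x in a..b, (∫ y in x..(x + L), g y) := by
  rw [win_double hg a b L, win_eq hg (a + L) b]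
  have h1 := (int_bounds (prim_cont hg) (prim_mono hg h0) (u := b) hL).1
  have h2 := (int_bounds (prim_cont hg) (prim_mono hg h0) (u := a) hL).2
  rw [mul_sub]
  linarith

/-- Proof: Cauchy-Schwarz (`|∫ f| ≤ ∫ |f|`, and `(∫_a^b |f|)² ≤ (b-a) ∫_a^b f²`: for `t =
∫|f|/(b-a)`
integrate `0 ≤ (|f| - t)²`). -/
theorem cs_int {f : ℝ → ℝ} (hf : LB f) {a b : ℝ} (hab : a ≤ b) :
    (∫ y in a..b, |f y|) ^ 2 ≤ (b - a) * ∫ y in a..b, f y ^ 2 := by
  rcases hab.eq_or_lt with h | h
  · subst h
    simp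
  set I := ∫ y in a..b, |f y| with hI
  set Q := ∫ y in a..b, f y ^ 2 with hQ
  set t := I / (b - a) with ht
  have hpos : 0 < b - a := by linarith
  have h1 : 0 ≤ ∫ y in a..b, (|f y| - t) ^ 2 :=
    intervalIntegral.integral_nonneg hab fun y _ => sq_nonneg _
  have h2 : ∫ y in a..b, (|f y| - t) ^ 2 = Q - 2 * t * I + (b - a) * t ^ 2 := by
    have h3 : ∀ y, (|f y| - t) ^ 2 = (f y ^ 2 - 2 * t * |f y|) + t ^ 2 := by
      intro y
      rw [← sq_abs (f y)]
      ring
    simp_rw [h3]
    rw [intervalIntegral.integral_add ((hf.sq.ii a b).sub ((hf.abs.ii a b).const_mul _))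
      intervalIntegrable_const,
      intervalIntegral.integral_sub (hf.sq.ii a b) ((hf.abs.ii a b).const_mul _),
      intervalIntegral.integral_const_mul, intervalIntegral.integral_const, smul_eq_mul]
  rw [h2] at h1
  have h4 : t * (b - a) = I := by rw [ht]; field_simp
  have h5 : 0 ≤ (b - a) * (Q - 2 * t * I + (b - a) * t ^ 2) := mul_nonneg hpos.le h1
  have h6 : (b - a) * (Q - 2 * t * I + (b - a) * t ^ 2) =
      (b - a) * Q - 2 * (t * (b - a)) * I + (t * (b - a)) ^ 2 := by ring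
  rw [h6, h4] at h5
  nlinarith

/-- Proof: `∫_x^{x+h} ∑_k f (y + k h) dy = ∑_k ∫_{x+kh}^{x+(k+1)h} f`
(`intervalIntegral.integral_comp_add_right`,
`intervalIntegral.sum_integral_adjacent_intervals`). -/
theorem win_shift {f : ℝ → ℝ} (hf : LB f) (K : ℕ) (h x : ℝ) :
    ∫ y in x..(x + h), (∑ k ∈ Finset.range K, f (y + k * h)) = ∫ y in x..(x + K * h), f y := by
  induction K with
  | zero => simp
  | succ K ih =>
    have h1 : ∀ y, ∑ k ∈ Finset.range (K + 1), f (y + k * h) =
        (∑ k ∈ Finset.range K, f (y + k * h)) + f (y + K * h) :=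
      fun y => Finset.sum_range_succ _ _
    simp_rw [h1]
    have hK : LB (fun y => f (y + K * h)) := by
      refine ⟨hf.1.comp (measurable_id.add_const _), fun R => ?_⟩
      obtain ⟨M, hM⟩ := hf.2 (R + |(K : ℝ) * h|)
      exact ⟨M, fun y hy => hM _ ((abs_add_le _ _).trans (by linarith))⟩
    rw [intervalIntegral.integral_add ((hf.shift K h).ii x (x + h)) (hK.ii x (x + h)), ih,
      intervalIntegral.integral_comp_add_right (fun y => f y) (K * h)]
    have h2 : x + h + K * h = x + (K + 1 : ℕ) * h := by push_cast; ring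
    rw [h2]
    exact intervalIntegral.integral_add_adjacent_intervals (hf.ii _ _) (hf.ii _ _)

end Pool.Agent.MP_a12917_nt_SC
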