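import Pool.Agent.Lib.MP_a12917_nt_SC.SDefs
import Pool.Agent.Lib.MP_a12917_nt_SC.SWin

/-!
# MP_a12917_nt, project SC, module SRe: real variables, pointwise facts
-/

set_option autoImplicit false

noncomputable section

namespace Pool.Agent.MP_a12917_nt_SC

open Finset Pool.Agent.MP_a12917_nt_GT

/-- Proof: the sum is a step function of `⌊x⌋₊` (`measurable_from_nat` composed with
`Nat.measurable_floor`),
the rest is built from `Real.log` (`Real.measurable_log`). -/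
theorem meas_D {D : ℝ → ℝ} (hD : IsD D) : Measurable D := by
  have h1 : D = fun x => (fun m : ℕ => ∑ n ∈ Finset.Icc 1 m, ((Nat.divisors n).card : ℝ)) ⌊x⌋₊ -
      x * (Real.log x + 2 * Real.eulerMascheroniConstant - 1) := by
    funext x
    exact hD x
  rw [h1]
  refine Measurable.sub ?_ ?_
  · exact (measurable_from_nat
      (f := fun m : ℕ => ∑ n ∈ Finset.Icc 1 m, ((Nat.divisors n).card : ℝ))).comp
      Nat.measurable_floor
  · exact measurable_id.mul ((Real.measurable_log.add_const _).sub_const _)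

/-- Proof: for `|x| ≤ R` the sum is at most its value for `⌊R⌋₊`, and `x log x` is continuous
(`Real.continuous_mul_log`), so bounded on the compact interval `[-R, R]`. -/
theorem bdd_D {D : ℝ → ℝ} (hD : IsD D) (R : ℝ) : ∃ M, ∀ y, |y| ≤ R → |D y| ≤ M := by
  have hc : Continuous fun x : ℝ =>
      x * (Real.log x + 2 * Real.eulerMascheroniConstant - 1) := by
    have h2 : (fun x : ℝ => x * (Real.log x + 2 * Real.eulerMascheroniConstant - 1)) =
        fun x => x * Real.log x + x * (2 * Real.eulerMascheroniConstant - 1) := by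
      funext x
      ring
    rw [h2]
    exact Real.continuous_mul_log.add (continuous_id.mul continuous_const)
  obtain ⟨C, hC⟩ := (isCompact_Icc (a := -R) (b := R)).exists_bound_of_continuousOn
    hc.continuousOn
  refine ⟨(∑ n ∈ Finset.Icc 1 ⌊R⌋₊, ((Nat.divisors n).card : ℝ)) + C, fun y hy => ?_⟩
  have hy2 : y ∈ Set.Icc (-R) R := ⟨(abs_le.1 hy).1, (abs_le.1 hy).2⟩
  have h3 := hC y hy2
  rw [Real.norm_eq_abs] at h3
  have h4 : 0 ≤ ∑ n ∈ Finset.Icc 1 ⌊y⌋₊, ((Nat.divisors n).card : ℝ) :=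
    Finset.sum_nonneg fun n _ => Nat.cast_nonneg _
  have h5 : ∑ n ∈ Finset.Icc 1 ⌊y⌋₊, ((Nat.divisors n).card : ℝ) ≤
      ∑ n ∈ Finset.Icc 1 ⌊R⌋₊, ((Nat.divisors n).card : ℝ) := by
    refine Finset.sum_le_sum_of_subset_of_nonneg ?_ fun n _ _ => Nat.cast_nonneg _
    exact Finset.Icc_subset_Icc le_rfl (Nat.floor_le_floor hy2.2)
  rw [hD y]
  refine (abs_sub _ _).trans ?_
  rw [abs_of_nonneg h4]
  exact add_le_add h5 h3

/-- Proof: `meas_D`, `bdd_D` with `R + |h|`. -/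
theorem lb_f {D : ℝ → ℝ} (hD : IsD D) (h : ℝ) : LB (fun y => D (y + h) - D y) := by
  refine ⟨((meas_D hD).comp (measurable_id.add_const h)).sub (meas_D hD), fun R => ?_⟩
  obtain ⟨M, hM⟩ := bdd_D hD (R + |h|)
  refine ⟨M + M, fun y hy => ?_⟩
  refine (abs_sub _ _).trans (add_le_add (hM _ ?_) (hM _ ?_))
  · exact (abs_add_le _ _).trans (by linarith)
  · have := abs_nonneg h
    linarith

/-- Proof: `x ↦ F x = x (log x + 2γ - 1)` has the derivative `log x + 2γ` (`x > 0`), which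
increases; mean
value theorem (`exists_deriv_eq_slope` or monotonicity): `h (log y + 2γ) ≤ F (y+h) - F y ≤
h (log (y+h) + 2γ)`. With `x = ⌊y⌋₊ ≥ 1`, `H = ⌊h⌋₊`, `x ≤ y`, `H ≤ h < H + 1`, `y + h ≤ 3 x`
(`h ≤ y/4`, `y < x + 1 ≤ 2x`): `F (y+h) - F y - H (log x + 2γ) ≥ 0`, and it is at most
`(h - H)(log (3x) + 2γ) + H (log (y+h) - log x) ≤ log x + log 3 + 2γ + H (h+1)/x ≤ log x + 6`
(`log t ≤ t - 1`, `y + h - x ≤ h + 1`, `H (h + 1) ≤ 2h² ≤ y/2 ≤ x`, `γ < 2/3`, `log 3 ≤ 2`). -/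
theorem main_re {y h : ℝ} (hy : 1 ≤ y) (hh : 1 ≤ h) (hhy : 4 * h ^ 2 ≤ y) :
    |((y + h) * (Real.log (y + h) + 2 * Real.eulerMascheroniConstant - 1) -
        y * (Real.log y + 2 * Real.eulerMascheroniConstant - 1)) -
      (⌊h⌋₊ : ℝ) * (Real.log ⌊y⌋₊ + 2 * Real.eulerMascheroniConstant)| ≤ Real.log ⌊y⌋₊ + 6 := by
  have hγ0 : 0 < Real.eulerMascheroniConstant := by
    have := Real.one_half_lt_eulerMascheroniConstant
    linarith
  have hγ1 := Real.eulerMascheroniConstant_lt_two_thirds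
  set g := Real.eulerMascheroniConstant with hg
  have hx1 : 1 ≤ ⌊y⌋₊ := Nat.le_floor (by exact_mod_cast hy)
  have hx : (1 : ℝ) ≤ (⌊y⌋₊ : ℝ) := by exact_mod_cast hx1
  have hxy : (⌊y⌋₊ : ℝ) ≤ y := Nat.floor_le (by linarith)
  have hxy2 : y < (⌊y⌋₊ : ℝ) + 1 := Nat.lt_floor_add_one y
  have hH1 : (⌊h⌋₊ : ℝ) ≤ h := Nat.floor_le (by linarith)
  have hH2 : h < (⌊h⌋₊ : ℝ) + 1 := Nat.lt_floor_add_one h
  have hH0 : (0 : ℝ) ≤ (⌊h⌋₊ : ℝ) := Nat.cast_nonneg _
  set x : ℝ := (⌊y⌋₊ : ℝ) with hxd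
  set H : ℝ := (⌊h⌋₊ : ℝ) with hHd
  have hh2 : h ≤ h ^ 2 := by nlinarith
  have hy0 : 0 < y := by linarith
  have hx0 : 0 < x := by linarith
  have hyh : 0 < y + h := by linarith
  have hlx : 0 ≤ Real.log x := Real.log_nonneg hx
  have hlxy : Real.log x ≤ Real.log y := Real.log_le_log hx0 hxy
  -- the two tangent inequalities
  have hq : Real.log (y + h) - Real.log y = Real.log ((y + h) / y) :=
    (Real.log_div hyh.ne' hy0.ne').symm
  have hlow : h ≤ (y + h) * (Real.log (y + h) - Real.log y) := by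
    have h1 : Real.log (y / (y + h)) ≤ y / (y + h) - 1 :=
      Real.log_le_sub_one_of_pos (by positivity)
    rw [Real.log_div hy0.ne' hyh.ne'] at h1
    have h2 : (y + h) * (y / (y + h) - 1) = -h := by
      field_simp
      ring
    have h3 := mul_le_mul_of_nonneg_left h1 hyh.le
    rw [h2] at h3
    linarith
  have hup : y * (Real.log (y + h) - Real.log y) ≤ h := by
    have h1 : Real.log ((y + h) / y) ≤ (y + h) / y - 1 :=
      Real.log_le_sub_one_of_pos (by positivity)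
    rw [← hq] at h1
    have h2 : y * ((y + h) / y - 1) = h := by
      field_simp
      ring
    have h3 := mul_le_mul_of_nonneg_left h1 hy0.le
    rw [h2] at h3
    exact h3
  have h3x : y + h ≤ 3 * x := by nlinarith
  have hl3 : Real.log (y + h) ≤ Real.log x + 2 := by
    have h1 : Real.log (y + h) ≤ Real.log (3 * x) := Real.log_le_log hyh h3x
    rw [Real.log_mul (by norm_num) hx0.ne'] at h1
    have h2 : Real.log 3 ≤ 3 - 1 := Real.log_le_sub_one_of_pos (by norm_num)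
    linarith
  have hlast : H * (Real.log (y + h) - Real.log x) ≤ 1 := by
    have h1 : Real.log ((y + h) / x) ≤ (y + h) / x - 1 :=
      Real.log_le_sub_one_of_pos (by positivity)
    rw [Real.log_div hyh.ne' hx0.ne'] at h1
    have h2 : (y + h) / x - 1 = (y + h - x) / x := by
      field_simp
    have h3 : H * (Real.log (y + h) - Real.log x) ≤ H * ((y + h - x) / x) :=
      mul_le_mul_of_nonneg_left (h1.trans h2.le) hH0
    refine h3.trans ?_
    rw [← mul_div_assoc, div_le_one hx0]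
    have h4 : H * (y + h - x) ≤ h * (h + 1) :=
      mul_le_mul hH1 (by linarith) (by linarith) (by linarith)
    nlinarith
  have hA0 : 0 ≤ ((y + h) * (Real.log (y + h) + 2 * g - 1) - y * (Real.log y + 2 * g - 1)) -
      H * (Real.log x + 2 * g) := by
    have h1 : ((y + h) * (Real.log (y + h) + 2 * g - 1) - y * (Real.log y + 2 * g - 1)) =
        (y + h) * (Real.log (y + h) - Real.log y) - h + h * (Real.log y + 2 * g) := by ring
    have h2 : H * (Real.log x + 2 * g) ≤ h * (Real.log y + 2 * g) :=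
      mul_le_mul hH1 (by linarith) (by linarith) (by linarith)
    rw [h1]
    linarith
  rw [abs_of_nonneg hA0]
  have h1 : ((y + h) * (Real.log (y + h) + 2 * g - 1) - y * (Real.log y + 2 * g - 1)) =
      y * (Real.log (y + h) - Real.log y) - h + h * (Real.log (y + h) + 2 * g) := by ring
  have h2 : (h - H) * (Real.log (y + h) + 2 * g) ≤ 1 * (Real.log x + 2 + 2 * g) :=
    mul_le_mul (by linarith) (by linarith)
      (by
        have : 0 ≤ Real.log (y + h) := Real.log_nonneg (by linarith)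
        linarith) (by norm_num)
  have h3 : h * (Real.log (y + h) + 2 * g) - H * (Real.log x + 2 * g) =
      (h - H) * (Real.log (y + h) + 2 * g) + H * (Real.log (y + h) - Real.log x) := by ring
  rw [h1]
  linarith

private theorem sum_split (f : ℕ → ℝ) (x H : ℕ) :
    ∑ n ∈ Finset.Icc 1 (x + H), f n = (∑ n ∈ Finset.Icc 1 x, f n) +
      ∑ j ∈ Finset.Icc 1 H, f (x + j) := by
  induction H with
  | zero => simp
  | succ H ih =>
    rw [← add_assoc, Finset.sum_Icc_succ_top (by omega), ih,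
      Finset.sum_Icc_succ_top (by omega : 1 ≤ H + 1)]
    ring_nf

/-- Proof: with `x = ⌊y⌋₊`, `H = ⌊h⌋₊`: `⌊y + h⌋₊` is `x + H` or `x + H + 1`, so the sum of `d(n)`
over
`x < n ≤ ⌊y+h⌋₊` is `∑_{j=1}^H d(x+j)` or this plus `d(x+H+1)`; `main_re`. -/
theorem re_pt {D : ℝ → ℝ} (hD : IsD D) {y h : ℝ} (hy : 1 ≤ y) (hh : 1 ≤ h)
    (hhy : 4 * h ^ 2 ≤ y) :
    |(D (y + h) - D y) - Di ⌊h⌋₊ ⌊y⌋₊| ≤
      ((Nat.divisors (⌊y⌋₊ + ⌊h⌋₊ + 1)).card : ℝ) + (Real.log ⌊y⌋₊ + 6) := by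
  have hm := main_re hy hh hhy
  have hxy : (⌊y⌋₊ : ℝ) ≤ y := Nat.floor_le (by linarith)
  have hxy2 : y < (⌊y⌋₊ : ℝ) + 1 := Nat.lt_floor_add_one y
  have hH1 : (⌊h⌋₊ : ℝ) ≤ h := Nat.floor_le (by linarith)
  have hH2 : h < (⌊h⌋₊ : ℝ) + 1 := Nat.lt_floor_add_one h
  have hfl : ⌊y + h⌋₊ = ⌊y⌋₊ + ⌊h⌋₊ ∨ ⌊y + h⌋₊ = ⌊y⌋₊ + ⌊h⌋₊ + 1 := by
    have h1 : ⌊y⌋₊ + ⌊h⌋₊ ≤ ⌊y + h⌋₊ := by
      apply Nat.le_floor
      push_cast
      linarith
    have h2 : ⌊y + h⌋₊ < ⌊y⌋₊ + ⌊h⌋₊ + 2 := by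
      rw [Nat.floor_lt (by linarith)]
      push_cast
      linarith
    omega
  have hd0 : (0 : ℝ) ≤ ((Nat.divisors (⌊y⌋₊ + ⌊h⌋₊ + 1)).card : ℝ) := Nat.cast_nonneg _
  have key : ∃ e : ℝ, 0 ≤ e ∧ e ≤ ((Nat.divisors (⌊y⌋₊ + ⌊h⌋₊ + 1)).card : ℝ) ∧
      ∑ n ∈ Finset.Icc 1 ⌊y + h⌋₊, ((Nat.divisors n).card : ℝ) =
        (∑ n ∈ Finset.Icc 1 ⌊y⌋₊, ((Nat.divisors n).card : ℝ)) +
          (∑ j ∈ Finset.Icc 1 ⌊h⌋₊, ((Nat.divisors (⌊y⌋₊ + j)).card : ℝ)) + e := by
    rcases hfl with h1 | h1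
    · refine ⟨0, le_rfl, hd0, ?_⟩
      rw [h1, sum_split (fun n => ((Nat.divisors n).card : ℝ))]
      ring
    · refine ⟨_, hd0, le_rfl, ?_⟩
      rw [h1, Finset.sum_Icc_succ_top (by omega),
        sum_split (fun n => ((Nat.divisors n).card : ℝ))]
  obtain ⟨e, he0, he1, he⟩ := key
  have hval : (D (y + h) - D y) - Di ⌊h⌋₊ ⌊y⌋₊ =
      e - (((y + h) * (Real.log (y + h) + 2 * Real.eulerMascheroniConstant - 1) -
        y * (Real.log y + 2 * Real.eulerMascheroniConstant - 1)) -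
      (⌊h⌋₊ : ℝ) * (Real.log ⌊y⌋₊ + 2 * Real.eulerMascheroniConstant)) := by
    rw [hD (y + h), hD y, Di, he]
    ring
  rw [hval]
  refine (abs_sub _ _).trans ?_
  rw [abs_of_nonneg he0]
  linarith

end Pool.Agent.MP_a12917_nt_SC
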