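import Pool.Agent.Lib.MP_a12917_nt_SC.SMu
import Pool.Agent.Lib.MP_a12917_nt_SC.SHyp
import Pool.Agent.Lib.MP_a12917_nt_SC.SFib
import Pool.Agent.Lib.MP_a12917_nt_GT.LowB

/-!
# MP_a12917_nt, project SC, module SUpp: upper bound for the mean square, integer variables
-/

set_option autoImplicit false

noncomputable section

namespace Pool.Agent.MP_a12917_nt_SC

open Finset Pool.Agent.MP_a12917_nt_GT

private theorem SUpp_three {d a b : ℝ} (h : |d - (a + b)| ≤ 4) :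
    d ^ 2 ≤ 3 * (a ^ 2 + b ^ 2 + 16) := by
  have h1 := abs_le.1 h
  have h2 : (d - (a + b)) ^ 2 ≤ 16 := by nlinarith [h1.1, h1.2]
  nlinarith [sq_nonneg (a - b), sq_nonneg (a - (d - (a + b))), sq_nonneg (b - (d - (a + b)))]

private theorem SUpp_S (z H Y : ℕ) (hz : 1 ≤ z) (hY : 1 ≤ Y) (h : z ^ 2 ≤ 16 * Y)
    (h8 : z ≤ 8 * Y) :
    ∑ x ∈ Ico Y (2 * Y), S z H (x : ℤ) ^ 2 ≤ 133120 * (Y * (H * hs Y ^ 3)) := by
  refine (S_sq z H Y hz hY h).trans ?_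
  have h1 : hs z ≤ 8 * hs Y := (hs_mono _ _ h8).trans (hs_eight Y hY)
  have h2 : hs z ^ 3 ≤ (8 * hs Y) ^ 3 := pow_le_pow_left₀ (hs_nonneg z) h1 3
  have h3 : (260 * Y * H : ℝ) * hs z ^ 3 ≤ (260 * Y * H : ℝ) * (8 * hs Y) ^ 3 :=
    mul_le_mul_of_nonneg_left h2 (by positivity)
  calc 260 * (Y : ℝ) * (H * hs z ^ 3) = (260 * Y * H : ℝ) * hs z ^ 3 := by ring
    _ ≤ (260 * Y * H : ℝ) * (8 * hs Y) ^ 3 := h3
    _ = 133120 * (Y * (H * hs Y ^ 3)) := by ring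

private theorem SUpp_div (Y H : ℕ) (hH : 1 ≤ H) (hY : H ^ 4 ≤ Y) :
    1 ≤ Nat.sqrt Y ∧ Nat.sqrt Y ^ 2 ≤ Y ∧ Y ≤ 3 * Nat.sqrt Y ^ 2 ∧ H ≤ Nat.sqrt Y ∧
      ∀ x D, Y ≤ x → Nat.sqrt Y ≤ D → D < 2 * Nat.sqrt Y → H ≤ x / D := by
  have h1 : Nat.sqrt Y ^ 2 ≤ Y := Nat.sqrt_le' Y
  have h2 : H ^ 2 ≤ Nat.sqrt Y := by
    rw [Nat.le_sqrt']
    calc (H ^ 2) ^ 2 = H ^ 4 := by ring
      _ ≤ Y := hY
  have h3 : 1 ≤ H ^ 2 := Nat.one_le_pow _ _ hH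
  have h4 : 1 ≤ Nat.sqrt Y := h3.trans h2
  have h5 : Y < (Nat.sqrt Y + 1) ^ 2 := Nat.lt_succ_sqrt' Y
  have h6 : H ≤ Nat.sqrt Y := (Nat.le_self_pow (by norm_num) H).trans h2
  refine ⟨h4, h1, by nlinarith, h6, ?_⟩
  intro x D hx hD hD2
  rw [Nat.le_div_iff_mul_le (by omega)]
  refine le_trans ?_ (h1.trans hx)
  rcases Nat.eq_or_lt_of_le hH with h | h
  · rw [← h, one_mul]
    nlinarith
  · have h7 : 2 * H ≤ Nat.sqrt Y := by nlinarith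
    calc H * D ≤ H * (2 * Nat.sqrt Y) := Nat.mul_le_mul_left _ hD2.le
      _ = (2 * H) * Nat.sqrt Y := by ring
      _ ≤ Nat.sqrt Y * Nat.sqrt Y := Nat.mul_le_mul_right _ h7
      _ = Nat.sqrt Y ^ 2 := by ring

/-- Proof: `D0 = Nat.sqrt Y`, so `D0² ≤ Y ≤ D0² + 2 D0 ≤ 3 D0²`, and `H² ≤ D0` (`Nat.le_sqrt`).
For
`x ∈ [Y,2Y)`, `D ∈ [D0, 2 D0)`: `H ≤ D` and `H ≤ x / D` (`H D ≤ H (2 D0 - 1) ≤ D0² ≤ x`: clear if
`H = 1`, and
for `H ≥ 2` `H ≤ D0/2`), so by `hyp` `Di² ≤ 3 (S_D² + S_{x/D}² + 16)`. Sum over `D`: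
`D0 ∑_x Di² ≤ 3 ∑_D ∑_x S_D² + 3 ∑_x ∑_D S_{x/D}(x)² + 48 D0 Y`. By `S_sq` (`D² < 4 D0² ≤ 4 Y`)
the first sum is
`≤ D0 260 Y H hs(8Y)³`. By `fib` (with `G z = S z H x ^ 2`) the second one is `≤ 4 ∑_{z ≤ 2Y/D0}
∑_x S_z(x)²`,
and `z ≤ 2Y/D0` gives `z² ≤ 4Y²/D0² ≤ 12 Y`, `2Y/D0 ≤ 6 D0`, so it is `≤ 24 D0 260 Y H hs(8Y)³`;
`hs(8Y) ≤ 8 hs Y` (`hs_eight`), `hs_mono`, `1 ≤ H * hs Y ^ 3`. -/
theorem upper : ∃ C : ℝ, 0 < C ∧ ∀ Y H : ℕ, 1 ≤ H → H ^ 4 ≤ Y →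
    ∑ x ∈ Ico Y (2 * Y), Di H x ^ 2 ≤ C * Y * (H * hs Y ^ 3) := by
  refine ⟨75 * 133120 + 48, by norm_num, fun Y H hH hY => ?_⟩
  obtain ⟨hD1, hDY, hY3, hHD, hdiv⟩ := SUpp_div Y H hH hY
  generalize hD0 : Nat.sqrt Y = D0 at hD1 hDY hY3 hHD hdiv
  have hY1 : 1 ≤ Y := (Nat.one_le_pow _ _ hD1).trans hDY
  have hh1 : 1 ≤ hs Y := one_le_hs Y hY1
  set K : ℝ := (Y : ℝ) * (H * hs Y ^ 3) with hK
  have hKY : (Y : ℝ) ≤ K := by
    have e1 : (1 : ℝ) ≤ H := by exact_mod_cast hH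
    have e2 : (1 : ℝ) ≤ hs Y ^ 3 := one_le_pow₀ hh1
    have e3 : (1 : ℝ) ≤ H * hs Y ^ 3 := by nlinarith
    calc (Y : ℝ) = Y * 1 := by ring
      _ ≤ Y * (H * hs Y ^ 3) := mul_le_mul_of_nonneg_left e3 (by positivity)
  have hK0 : 0 ≤ K := le_trans (by positivity) hKY
  have hcardD : ((Ico D0 (2 * D0)).card : ℝ) = D0 := by
    rw [Nat.card_Ico]
    congr 1
    omega
  have hcardY : ((Ico Y (2 * Y)).card : ℝ) = Y := by
    rw [Nat.card_Ico]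
    congr 1
    omega
  -- the pointwise bound
  have hpt : ∀ x ∈ Ico Y (2 * Y), ∀ D ∈ Ico D0 (2 * D0), Di H x ^ 2 ≤
      3 * (S D H (x : ℤ) ^ 2 + S (x / D) H (x : ℤ) ^ 2 + 16) := by
    intro x hx D hD
    rw [mem_Ico] at hx hD
    exact SUpp_three (hyp H D x hH (hHD.trans hD.1) (hdiv x D hx.1 hD.1 hD.2))
  -- the first sum
  have hA : ∑ D ∈ Ico D0 (2 * D0), ∑ x ∈ Ico Y (2 * Y), S D H (x : ℤ) ^ 2 ≤
      D0 * (133120 * K) := by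
    have : ∑ D ∈ Ico D0 (2 * D0), ∑ x ∈ Ico Y (2 * Y), S D H (x : ℤ) ^ 2 ≤
        ∑ D ∈ Ico D0 (2 * D0), 133120 * K := by
      refine sum_le_sum fun D hD => ?_
      rw [mem_Ico] at hD
      exact SUpp_S D H Y (hD1.trans hD.1) hY1 (by nlinarith) (by nlinarith)
    rwa [sum_const, nsmul_eq_mul, hcardD] at this
  -- the second sum
  have hB : ∑ x ∈ Ico Y (2 * Y), ∑ D ∈ Ico D0 (2 * D0), S (x / D) H (x : ℤ) ^ 2 ≤
      24 * (D0 * (133120 * K)) := by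
    have h1 : ∑ x ∈ Ico Y (2 * Y), ∑ D ∈ Ico D0 (2 * D0), S (x / D) H (x : ℤ) ^ 2 ≤
        ∑ x ∈ Ico Y (2 * Y), 4 * ∑ z ∈ Icc 1 (2 * Y / D0), S z H (x : ℤ) ^ 2 := by
      refine sum_le_sum fun x hx => ?_
      rw [mem_Ico] at hx
      exact fib Y x D0 hD1 hDY hx.1 hx.2 (fun z => S z H (x : ℤ) ^ 2) fun z => sq_nonneg _
    have hq : ∀ z, z ≤ 2 * Y / D0 → z * D0 ≤ 2 * Y := fun z hz =>
      (Nat.mul_le_mul_right _ hz).trans (Nat.div_mul_le_self _ _)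
    have h2 : ∀ z ∈ Icc 1 (2 * Y / D0), ∑ x ∈ Ico Y (2 * Y), S z H (x : ℤ) ^ 2 ≤
        133120 * K := by
      intro z hz
      rw [mem_Icc] at hz
      have h3 := hq z hz.2
      refine SUpp_S z H Y hz.1 hY1 ?_ ?_
      · have h4 : z ^ 2 * D0 ^ 2 ≤ (12 * Y) * D0 ^ 2 := by
          calc z ^ 2 * D0 ^ 2 = (z * D0) * (z * D0) := by ring
            _ ≤ (2 * Y) * (2 * Y) := Nat.mul_le_mul h3 h3
            _ = (4 * Y) * Y := by ring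
            _ ≤ (4 * Y) * (3 * D0 ^ 2) := Nat.mul_le_mul_left _ hY3
            _ = (12 * Y) * D0 ^ 2 := by ring
        have h5 : z ^ 2 ≤ 12 * Y := Nat.le_of_mul_le_mul_right h4 (by positivity)
        omega
      · have h4 : z * 1 ≤ z * D0 := Nat.mul_le_mul_left _ hD1
        omega
    have hcz : ((Icc 1 (2 * Y / D0)).card : ℝ) ≤ 6 * D0 := by
      rw [Nat.card_Icc, Nat.add_sub_cancel]
      have h4 := hq _ le_rfl
      have h5 : 2 * Y / D0 * D0 ≤ (6 * D0) * D0 := by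
        calc 2 * Y / D0 * D0 ≤ 2 * Y := h4
          _ ≤ 2 * (3 * D0 ^ 2) := Nat.mul_le_mul_left _ hY3
          _ = (6 * D0) * D0 := by ring
      have h6 : 2 * Y / D0 ≤ 6 * D0 := Nat.le_of_mul_le_mul_right h5 (by omega)
      exact_mod_cast h6
    calc _ ≤ _ := h1
      _ = 4 * ∑ z ∈ Icc 1 (2 * Y / D0), ∑ x ∈ Ico Y (2 * Y), S z H (x : ℤ) ^ 2 := by
        rw [← mul_sum, sum_comm]
      _ ≤ 4 * ∑ z ∈ Icc 1 (2 * Y / D0), 133120 * K :=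
        mul_le_mul_of_nonneg_left (sum_le_sum h2) (by norm_num)
      _ = 4 * (((Icc 1 (2 * Y / D0)).card : ℝ) * (133120 * K)) := by
        rw [sum_const, nsmul_eq_mul]
      _ ≤ 4 * ((6 * D0) * (133120 * K)) :=
        mul_le_mul_of_nonneg_left (mul_le_mul_of_nonneg_right hcz (by positivity)) (by norm_num)
      _ = 24 * (D0 * (133120 * K)) := by ring
  -- summation over D
  have hmain : (D0 : ℝ) * ∑ x ∈ Ico Y (2 * Y), Di H x ^ 2 ≤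
      D0 * ((75 * 133120 + 48) * K) := by
    have h1 : (D0 : ℝ) * ∑ x ∈ Ico Y (2 * Y), Di H x ^ 2 =
        ∑ x ∈ Ico Y (2 * Y), ∑ D ∈ Ico D0 (2 * D0), Di H x ^ 2 := by
      rw [mul_sum]
      refine sum_congr rfl fun x _ => ?_
      rw [sum_const, nsmul_eq_mul, hcardD]
    have h2 : ∑ x ∈ Ico Y (2 * Y), ∑ D ∈ Ico D0 (2 * D0), Di H x ^ 2 ≤
        ∑ x ∈ Ico Y (2 * Y), ∑ D ∈ Ico D0 (2 * D0),
          3 * (S D H (x : ℤ) ^ 2 + S (x / D) H (x : ℤ) ^ 2 + 16) :=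
      sum_le_sum fun x hx => sum_le_sum fun D hD => hpt x hx D hD
    have h3 : ∑ x ∈ Ico Y (2 * Y), ∑ D ∈ Ico D0 (2 * D0),
        3 * (S D H (x : ℤ) ^ 2 + S (x / D) H (x : ℤ) ^ 2 + 16) =
        3 * (∑ x ∈ Ico Y (2 * Y), ∑ D ∈ Ico D0 (2 * D0), S D H (x : ℤ) ^ 2 +
          ∑ x ∈ Ico Y (2 * Y), ∑ D ∈ Ico D0 (2 * D0), S (x / D) H (x : ℤ) ^ 2 +
          D0 * (Y * 16)) := by
      simp only [← mul_sum, sum_add_distrib, sum_const, nsmul_eq_mul, hcardD, hcardY]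
    have h4 : ∑ x ∈ Ico Y (2 * Y), ∑ D ∈ Ico D0 (2 * D0), S D H (x : ℤ) ^ 2 =
        ∑ D ∈ Ico D0 (2 * D0), ∑ x ∈ Ico Y (2 * Y), S D H (x : ℤ) ^ 2 := sum_comm
    rw [h1]
    refine h2.trans ?_
    rw [h3, h4]
    have h5 : (D0 : ℝ) * (Y * 16) ≤ D0 * (K * 16) :=
      mul_le_mul_of_nonneg_left (by linarith) (by positivity)
    nlinarith
  have hD0' : (0 : ℝ) < D0 := by exact_mod_cast hD1
  have := le_of_mul_le_mul_left hmain hD0'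
  calc _ ≤ _ := this
    _ = _ := by rw [hK]; ring

/-- Proof: `[Y, 16Y)` is the union of `[Y,2Y)`, `[2Y,4Y)`, `[4Y,8Y)`, `[8Y,16Y)`; `upper` and
`hs (8Y) ≤ 8 hs Y` (`hs_mono`). -/
theorem upper16 : ∃ C : ℝ, 0 < C ∧ ∀ Y H : ℕ, 1 ≤ H → H ^ 4 ≤ Y →
    ∑ x ∈ Ico Y (16 * Y), Di H x ^ 2 ≤ C * Y * (H * hs Y ^ 3) := by
  obtain ⟨C, hC, h⟩ := upper
  refine ⟨15 * 512 * C, by positivity, fun Y H hH hY => ?_⟩
  have hY1 : 1 ≤ Y := (Nat.one_le_pow _ _ hH).trans hY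
  have key : ∀ m : ℕ, 1 ≤ m → m ≤ 8 → ∑ x ∈ Ico (m * Y) (2 * (m * Y)), Di H x ^ 2 ≤
      m * (512 * C * Y * (H * hs Y ^ 3)) := by
    intro m hm hm8
    have h1 : Y ≤ m * Y := Nat.le_mul_of_pos_left _ hm
    have h2 := h (m * Y) H hH (hY.trans h1)
    refine h2.trans ?_
    have h3 : hs (m * Y) ≤ 8 * hs Y :=
      (hs_mono _ _ (Nat.mul_le_mul_right _ hm8)).trans (hs_eight Y hY1)
    have h4 : hs (m * Y) ^ 3 ≤ (8 * hs Y) ^ 3 := pow_le_pow_left₀ (hs_nonneg _) h3 3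
    have h5 := mul_le_mul_of_nonneg_left h4 (show 0 ≤ C * m * Y * H by positivity)
    calc C * ((m * Y : ℕ) : ℝ) * (H * hs (m * Y) ^ 3)
        = C * m * Y * H * hs (m * Y) ^ 3 := by push_cast; ring
      _ ≤ C * m * Y * H * (8 * hs Y) ^ 3 := h5
      _ = m * (512 * C * Y * (H * hs Y ^ 3)) := by ring
  have e1 := key 1 (by norm_num) (by norm_num)
  have e2 := key 2 (by norm_num) (by norm_num)
  have e4 := key 4 (by norm_num) (by norm_num)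
  have e8 := key 8 (by norm_num) (by norm_num)
  have r1 : 2 * (1 * Y) = 2 * Y := by ring
  have r2 : 2 * (2 * Y) = 4 * Y := by ring
  have r4 : 2 * (4 * Y) = 8 * Y := by ring
  have r8 : 2 * (8 * Y) = 16 * Y := by ring
  rw [r1, one_mul] at e1
  rw [r2] at e2
  rw [r4] at e4
  rw [r8] at e8
  have s1 := sum_Ico_consecutive (fun x => Di H x ^ 2) (show Y ≤ 2 * Y by omega)
    (show 2 * Y ≤ 4 * Y by omega)
  have s2 := sum_Ico_consecutive (fun x => Di H x ^ 2) (show Y ≤ 4 * Y by omega)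
    (show 4 * Y ≤ 8 * Y by omega)
  have s3 := sum_Ico_consecutive (fun x => Di H x ^ 2) (show Y ≤ 8 * Y by omega)
    (show 8 * Y ≤ 16 * Y by omega)
  push_cast at e1 e2 e4 e8
  rw [← s3, ← s2, ← s1]
  linarith

/-- Proof: `d(n+1) = Di 1 n + log n + 2γ`, so `d(n+1)² ≤ 2 (Di 1 n)² + 2 (log n + 2)²` for `n = x
+ H`,
`Y ≤ n < 16 Y` (`H ≤ H⁴ ≤ Y`), `upper16` for `H = 1`, and `log n ≤ hs (16Y) ≤ 64 hs Y`
(`log_le_hs` in
GT/LowB, `hs_eight` twice), `γ < 2/3` (`Real.eulerMascheroniConstant_lt_two_thirds`),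
`(hs Y)² ≤ (hs Y)³`. -/
theorem div8 : ∃ C : ℝ, 0 < C ∧ ∀ Y H : ℕ, 1 ≤ H → H ^ 4 ≤ Y →
    ∑ x ∈ Ico Y (8 * Y), ((Nat.divisors (x + H + 1)).card : ℝ) ^ 2 ≤ C * Y * hs Y ^ 3 := by
  obtain ⟨C, hC, h⟩ := upper16
  refine ⟨2 * C + 7 * (2 * 4356), by positivity, fun Y H hH hY => ?_⟩
  have hHY : H ≤ Y := (Nat.le_self_pow (by norm_num) H).trans hY
  have hY1 : 1 ≤ Y := hH.trans hHY
  have hh1 : 1 ≤ hs Y := one_le_hs Y hY1
  have hh0 : 0 ≤ hs Y := hs_nonneg Y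
  have h64 : hs (16 * Y) ≤ 64 * hs Y := by
    have h1 : hs (8 * Y) ≤ 8 * hs Y := hs_eight Y hY1
    have h2 : hs (8 * (8 * Y)) ≤ 8 * hs (8 * Y) := hs_eight (8 * Y) (by omega)
    have h3 : hs (16 * Y) ≤ hs (8 * (8 * Y)) := hs_mono _ _ (by omega)
    linarith
  have hlog : ∀ n : ℕ, Y ≤ n → n < 16 * Y →
      ((Nat.divisors (n + 1)).card : ℝ) ^ 2 ≤ 2 * Di 1 n ^ 2 + 2 * (4356 * hs Y ^ 3) := by
    intro n hn hn2
    have hn0 : (1 : ℝ) ≤ n := by exact_mod_cast hY1.trans hn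
    have h1 : Di 1 n = ((Nat.divisors (n + 1)).card : ℝ) -
        (Real.log n + 2 * Real.eulerMascheroniConstant) := by
      unfold Di
      simp
    have h2 : Real.log n ≤ 64 * hs Y := by
      have e1 : Real.log n ≤ Real.log ((n : ℝ) + 1) :=
        Real.log_le_log (by linarith) (by linarith)
      have e2 := log_le_hs n
      have e3 : hs n ≤ hs (16 * Y) := hs_mono _ _ hn2.le
      linarith
    have h3 : 0 ≤ Real.log n := Real.log_nonneg hn0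
    have h4 := Real.eulerMascheroniConstant_lt_two_thirds
    have h5 := Real.one_half_lt_eulerMascheroniConstant
    set t : ℝ := Real.log n + 2 * Real.eulerMascheroniConstant with ht
    have h6 : 0 ≤ t := by linarith
    have h7 : t ≤ 66 * hs Y := by linarith
    have h8 : t ^ 2 ≤ 4356 * hs Y ^ 3 := by
      have e1 : t ^ 2 ≤ (66 * hs Y) ^ 2 := pow_le_pow_left₀ h6 h7 2
      have e2 : hs Y ^ 2 ≤ hs Y ^ 3 := pow_le_pow_right₀ hh1 (by norm_num)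
      nlinarith
    have h9 : ((Nat.divisors (n + 1)).card : ℝ) = Di 1 n + t := by rw [h1]; ring
    rw [h9]
    nlinarith [sq_nonneg (Di 1 n - t)]
  have hsum : ∑ x ∈ Ico Y (8 * Y), ((Nat.divisors (x + H + 1)).card : ℝ) ^ 2 ≤
      ∑ x ∈ Ico Y (8 * Y), (2 * Di 1 (x + H) ^ 2 + 2 * (4356 * hs Y ^ 3)) := by
    refine sum_le_sum fun x hx => ?_
    rw [mem_Ico] at hx
    exact hlog (x + H) (by omega) (by omega)
  have hshift : ∑ x ∈ Ico Y (8 * Y), Di 1 (x + H) ^ 2 ≤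
      ∑ x ∈ Ico Y (16 * Y), Di 1 x ^ 2 := by
    have h1 : ∑ x ∈ Ico Y (8 * Y), Di 1 (x + H) ^ 2 =
        ∑ x ∈ Ico (Y + H) (8 * Y + H), Di 1 x ^ 2 :=
      sum_Ico_add' (fun x => Di 1 x ^ 2) Y (8 * Y) H
    rw [h1]
    refine sum_le_sum_of_subset_of_nonneg ?_ fun x _ _ => sq_nonneg _
    exact Ico_subset_Ico (by omega) (by omega)
  have h1 := h Y 1 le_rfl (by simpa using hY1)
  have hcard : ((Ico Y (8 * Y)).card : ℝ) = 7 * Y := by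
    rw [Nat.card_Ico]
    have : 8 * Y - Y = 7 * Y := by omega
    rw [this]
    push_cast
    ring
  have h2 : ∑ x ∈ Ico Y (8 * Y), (2 * Di 1 (x + H) ^ 2 + 2 * (4356 * hs Y ^ 3)) =
      2 * ∑ x ∈ Ico Y (8 * Y), Di 1 (x + H) ^ 2 + 7 * Y * (2 * (4356 * hs Y ^ 3)) := by
    rw [sum_add_distrib, ← mul_sum, sum_const, nsmul_eq_mul, hcard]
  rw [h2] at hsum
  push_cast at h1
  rw [one_mul] at h1
  have h3 : (2 * C + 7 * (2 * 4356)) * (Y : ℝ) * hs Y ^ 3 =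
      2 * (C * Y * hs Y ^ 3) + 7 * Y * (2 * (4356 * hs Y ^ 3)) := by ring
  rw [h3]
  linarith

end Pool.Agent.MP_a12917_nt_SC
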