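import Pool.Agent.Lib.MP_a12917_nt_SC.SRe
import Pool.Agent.Lib.MP_a12917_nt_SC.SReS
import Pool.Agent.Lib.MP_a12917_nt_SC.SUpp

/-!
# MP_a12917_nt, project SC, module SReU: upper bound for the mean square, real variables
-/

set_option autoImplicit false

noncomputable section

namespace Pool.Agent.MP_a12917_nt_SC

open Finset Pool.Agent.MP_a12917_nt_GT MeasureTheory

private theorem SReU_hs (n : ℕ) : hs n ≤ 1 + Real.log n := by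
  have h1 := harmonic_le_one_add_log n
  rw [harmonic_eq_sum_Icc] at h1
  push_cast at h1
  unfold hs
  simpa using h1

private theorem SReU_pt {D : ℝ → ℝ} (hD : IsD D) {y h : ℝ} (hy : 1 ≤ y) (hh : 1 ≤ h)
    (hhy : 4 * h ^ 2 ≤ y) :
    (D (y + h) - D y) ^ 2 ≤ 4 * (Di ⌊h⌋₊ ⌊y⌋₊ ^ 2 +
      ((Nat.divisors (⌊y⌋₊ + ⌊h⌋₊ + 1)).card : ℝ) ^ 2 + Real.log ⌊y⌋₊ ^ 2 + 36) := by
  have h1 := abs_le.1 (re_pt hD hy hh hhy)
  set a := Di ⌊h⌋₊ ⌊y⌋₊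
  set b := ((Nat.divisors (⌊y⌋₊ + ⌊h⌋₊ + 1)).card : ℝ) with hb
  have hb0 : 0 ≤ b := Nat.cast_nonneg _
  have hc0 : 0 ≤ Real.log (⌊y⌋₊ : ℝ) := Real.log_natCast_nonneg _
  set c := Real.log (⌊y⌋₊ : ℝ)
  set t := D (y + h) - D y
  have h2 : |t| ≤ |a| + b + c + 6 := by
    rw [abs_le]
    constructor
    · linarith [h1.1, neg_abs_le a]
    · linarith [h1.2, le_abs_self a]
  have h3 : t ^ 2 ≤ (|a| + b + c + 6) ^ 2 := by
    rw [← sq_abs t]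
    exact pow_le_pow_left₀ (abs_nonneg _) h2 2
  have h4 : a ^ 2 = |a| ^ 2 := (sq_abs a).symm
  rw [h4]
  nlinarith [sq_nonneg (|a| - b), sq_nonneg (|a| - c), sq_nonneg (|a| - 6), sq_nonneg (b - c),
    sq_nonneg (b - 6), sq_nonneg (c - 6)]

/-- Proof: `Y = ⌊X⌋₊ ≥ 1`, `[X, 4X] ⊆ [Y, 8Y]` (`X < Y + 1 ≤ 2Y`). For `y ∈ [X,4X]`, `x = ⌊y⌋₊`,
`H = ⌊h⌋₊` (`H ≥ 1`, `H⁴ ≤ h⁴ ≤ X`, so `H⁴ ≤ Y`; `4h² ≤ 4h⁴ ≤ X ≤ y`): by `re_pt`
`(D (y+h) - D y)² ≤ 4 (Di H x ^ 2 + d(x+H+1)² + (log x)² + 36)`. By `int_le_sum` and `upper16`,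
`div8`, `x ≤ 8Y`,
the integral is `≤ C Y (H hs(Y)³ + hs(Y)³ + (log (8Y))² + 36)`, and `hs Y ≤ 1 + log Y ≤ 2 log X`,
`log (8Y) ≤ 4 log X` for `X ≥ 3`, `log X ≥ 1`, `H ≤ h`, `1 ≤ h`. -/
theorem upper_re : ∃ C X0 : ℝ, 0 < C ∧ 3 ≤ X0 ∧ ∀ D : ℝ → ℝ, IsD D → ∀ X h : ℝ, X0 ≤ X → 1 ≤ h →
    4 * h ^ 4 ≤ X →
    ∫ y in X..(4 * X), (D (y + h) - D y) ^ 2 ≤ C * X * (h * Real.log X ^ 3) := by
  obtain ⟨C1, hC1, h16⟩ := upper16
  obtain ⟨C2, hC2, h8⟩ := div8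
  refine ⟨4 * (8 * C1 + 8 * C2 + 364), 3, by positivity, le_rfl, fun D hD X h hX hh hhX => ?_⟩
  have hX0 : 0 < X := by linarith
  set Y := ⌊X⌋₊ with hY
  set H := ⌊h⌋₊ with hH
  have hYX : (Y : ℝ) ≤ X := Nat.floor_le hX0.le
  have hXY : X < Y + 1 := Nat.lt_floor_add_one X
  have hY3 : 3 ≤ Y := Nat.le_floor (by exact_mod_cast hX)
  have hY3' : (3 : ℝ) ≤ Y := by exact_mod_cast hY3
  have hHh : (H : ℝ) ≤ h := Nat.floor_le (by linarith)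
  have hH1 : 1 ≤ H := Nat.le_floor (by exact_mod_cast hh)
  have hH4 : H ^ 4 ≤ Y := by
    refine Nat.le_floor ?_
    push_cast
    have h1 : (H : ℝ) ^ 4 ≤ h ^ 4 := pow_le_pow_left₀ (Nat.cast_nonneg _) hHh 4
    have h2 : 0 ≤ h ^ 4 := by positivity
    linarith
  have h24 : 4 * h ^ 2 ≤ X := by
    have h1 : h ^ 2 ≤ h ^ 4 := pow_le_pow_right₀ hh (by norm_num)
    linarith
  set G : ℕ → ℝ := fun x => 4 * (Di H x ^ 2 + ((Nat.divisors (x + H + 1)).card : ℝ) ^ 2 +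
    Real.log x ^ 2 + 36) with hG
  have hint : ∫ y in X..(4 * X), (D (y + h) - D y) ^ 2 ≤ ∑ x ∈ Ico Y (8 * Y), G x := by
    refine int_le_sum (fun y => (D (y + h) - D y) ^ 2) (lb_f hD h).sq (fun y => sq_nonneg _) Y
      (8 * Y) (by omega) X (4 * X) (by linarith) hYX ?_ G ?_ ?_
    · push_cast
      linarith
    · intro y hy _
      exact SReU_pt hD (by linarith) hh (by linarith)
    · intro x
      simp only [hG]
      positivity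
  have hsum : ∑ x ∈ Ico Y (8 * Y), G x = 4 * (∑ x ∈ Ico Y (8 * Y), Di H x ^ 2 +
      ∑ x ∈ Ico Y (8 * Y), ((Nat.divisors (x + H + 1)).card : ℝ) ^ 2 +
      ∑ x ∈ Ico Y (8 * Y), (Real.log x ^ 2 + 36)) := by
    simp only [hG]
    rw [← Finset.mul_sum, ← Finset.sum_add_distrib, ← Finset.sum_add_distrib]
    congr 1
    exact Finset.sum_congr rfl fun x _ => by ring
  have hl1 : 1 ≤ Real.log X := by
    rw [Real.le_log_iff_exp_le hX0]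
    have := Real.exp_one_lt_d9
    linarith
  set l := Real.log X with hl
  have hlY : Real.log Y ≤ l := Real.log_le_log (by linarith) hYX
  have hhs : hs Y ≤ 2 * l := by
    have := SReU_hs Y
    linarith
  have hhs0 : 0 ≤ hs Y := hs_nonneg Y
  have hhs3 : hs Y ^ 3 ≤ 8 * l ^ 3 := by
    calc hs Y ^ 3 ≤ (2 * l) ^ 3 := pow_le_pow_left₀ hhs0 hhs 3
      _ = 8 * l ^ 3 := by ring
  have hlog8 : Real.log (8 * Y) ≤ 4 * l := by
    rw [Real.log_mul (by norm_num) (by linarith)]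
    have h1 : Real.log 8 = 3 * Real.log 2 := by
      rw [show (8 : ℝ) = 2 ^ 3 by norm_num, Real.log_pow]
      norm_num
    have h2 := Real.log_two_lt_d9
    linarith
  have s1 : ∑ x ∈ Ico Y (8 * Y), Di H x ^ 2 ≤ C1 * X * (h * (8 * l ^ 3)) := by
    calc ∑ x ∈ Ico Y (8 * Y), Di H x ^ 2 ≤ ∑ x ∈ Ico Y (16 * Y), Di H x ^ 2 := by
          refine Finset.sum_le_sum_of_subset_of_nonneg ?_ fun _ _ _ => sq_nonneg _
          exact Finset.Ico_subset_Ico_right (by omega)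
      _ ≤ C1 * Y * (H * hs Y ^ 3) := h16 Y H hH1 hH4
      _ ≤ C1 * X * (h * (8 * l ^ 3)) := by gcongr
  have s2 : ∑ x ∈ Ico Y (8 * Y), ((Nat.divisors (x + H + 1)).card : ℝ) ^ 2 ≤
      C2 * X * (8 * l ^ 3) := by
    calc _ ≤ C2 * Y * hs Y ^ 3 := h8 Y H hH1 hH4
      _ ≤ C2 * X * (8 * l ^ 3) := by gcongr
  have s3 : ∑ x ∈ Ico Y (8 * Y), (Real.log x ^ 2 + 36) ≤ 7 * X * ((4 * l) ^ 2 + 36) := by
    have h1 : ∀ x ∈ Ico Y (8 * Y), (Real.log x ^ 2 + 36) ≤ (4 * l) ^ 2 + 36 := by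
      intro x hx
      rw [Finset.mem_Ico] at hx
      have h2 : Real.log x ≤ 4 * l := by
        refine (Real.log_le_log ?_ ?_).trans hlog8
        · have : 0 < x := by omega
          exact_mod_cast this
        · exact_mod_cast hx.2.le
      have h3 : 0 ≤ Real.log x := Real.log_natCast_nonneg _
      have h4 := pow_le_pow_left₀ h3 h2 2
      linarith
    refine (Finset.sum_le_card_nsmul _ _ _ h1).trans ?_
    rw [Nat.card_Ico, nsmul_eq_mul]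
    have h5 : ((8 * Y - Y : ℕ) : ℝ) = 7 * Y := by
      rw [Nat.cast_sub (by omega)]
      push_cast
      ring
    rw [h5]
    have h6 : 7 * (Y : ℝ) ≤ 7 * X := by linarith
    exact mul_le_mul_of_nonneg_right h6 (by positivity)
  refine hint.trans ?_
  rw [hsum]
  have hl3 : l ^ 2 ≤ l ^ 3 := pow_le_pow_right₀ hl1 (by norm_num)
  have hl30 : 1 ≤ l ^ 3 := one_le_pow₀ hl1
  have hhl : l ^ 3 ≤ h * l ^ 3 := le_mul_of_one_le_left (by positivity) hh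
  have t2 : C2 * X * (8 * l ^ 3) ≤ C2 * X * (8 * (h * l ^ 3)) := by gcongr
  have t3 : 7 * X * ((4 * l) ^ 2 + 36) ≤ 7 * X * (52 * (h * l ^ 3)) := by
    refine mul_le_mul_of_nonneg_left ?_ (by positivity)
    nlinarith
  calc 4 * (∑ x ∈ Ico Y (8 * Y), Di H x ^ 2 +
      ∑ x ∈ Ico Y (8 * Y), ((Nat.divisors (x + H + 1)).card : ℝ) ^ 2 +
      ∑ x ∈ Ico Y (8 * Y), (Real.log x ^ 2 + 36))
      ≤ 4 * (C1 * X * (h * (8 * l ^ 3)) + C2 * X * (8 * (h * l ^ 3)) +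
        7 * X * (52 * (h * l ^ 3))) := by linarith
    _ = 4 * (8 * C1 + 8 * C2 + 364) * X * (h * l ^ 3) := by ring

end Pool.Agent.MP_a12917_nt_SC
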