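import Pool.Agent.Lib.MP_a12917_nt_SC.SWin

/-!
# MP_a12917_nt, project SC, module SWinM: many points and many windows
-/

set_option autoImplicit false

noncomputable section

namespace Pool.Agent.MP_a12917_nt_SC

open Finset MeasureTheory Set

private theorem le_of_sq_le_sq {u v : ℝ} (h : u ^ 2 ≤ v ^ 2) (hv : 0 ≤ v) : u ≤ v :=
  (abs_le_of_sq_le_sq' h hv).2

private theorem int_ind {E : Set ℝ} (hE : MeasurableSet E) {u v : ℝ} (huv : u ≤ v)
    (hfin : volume E ≠ ⊤) :
    ∫ y in u..v, E.indicator (1 : ℝ → ℝ) y ≤ (volume E).toReal := by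
  rw [intervalIntegral.integral_of_le huv, integral_indicator_one hE,
    measureReal_restrict_apply hE]
  exact measureReal_mono Set.inter_subset_left hfin

private theorem ii_ind {E : Set ℝ} (hE : MeasurableSet E) (u v : ℝ) :
    IntervalIntegrable (E.indicator (1 : ℝ → ℝ)) volume u v := by
  have h1 : IntervalIntegrable (fun _ : ℝ => (1 : ℝ)) volume u v := intervalIntegrable_const
  rw [intervalIntegrable_iff] at h1 ⊢
  exact h1.indicator hE

private theorem fin_of_sub {E : Set ℝ} {u v : ℝ} (h : E ⊆ Icc u v) : volume E ≠ ⊤ := by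
  refine ne_of_lt (lt_of_le_of_lt (measure_mono h) ?_)
  rw [Real.volume_Icc]
  exact ENNReal.ofReal_lt_top

/-- Proof: with `E = {y ∈ [x, x+L] : (a/2) s ≤ f y}` and `t = B s/a`: pointwise
`max (f y) 0 ≤ (a/2) s + t 1_E(y) + f(y)²/(4t)` (`u ≤ t + u²/(4t)`). Integrate over `[x, x+L]`:
`a L s ≤ (a/2) s L + t |E| + B L s²/(4t)`, and `B L s²/(4t) = a L s/4`; so `|E| ≥ (a/4) L s/t = a²
L/(4B)`. -/
theorem many {f : ℝ → ℝ} (hf : LB f) {x L s a B : ℝ} (hL : 0 < L) (hs : 0 < s) (ha : 0 < a)
    (hB : 0 < B) (h1 : a * L * s ≤ ∫ y in x..(x + L), max (f y) 0)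
    (h2 : ∫ y in x..(x + L), f y ^ 2 ≤ B * L * s ^ 2) :
    a ^ 2 / (4 * B) * L ≤
      (volume {y | y ∈ Icc x (x + L) ∧ a / 2 * s ≤ f y}).toReal := by
  set E : Set ℝ := {y | y ∈ Icc x (x + L) ∧ a / 2 * s ≤ f y} with hEdef
  have hE : MeasurableSet E := by
    have e1 : MeasurableSet (Icc x (x + L)) := measurableSet_Icc
    have e2 : MeasurableSet {y | a / 2 * s ≤ f y} := measurableSet_le measurable_const hf.1
    exact e1.inter e2
  have hfin : volume E ≠ ⊤ := fin_of_sub (fun y hy => hy.1)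
  have hx : x ≤ x + L := by linarith
  set t : ℝ := B * s / a with ht
  have ht0 : 0 < t := by positivity
  have hpt : ∀ y ∈ Icc x (x + L), max (f y) 0 ≤
      a / 2 * s + t * E.indicator (1 : ℝ → ℝ) y + (1 / (4 * t)) * f y ^ 2 := by
    intro y hy
    have hsq : 0 ≤ (1 / (4 * t)) * f y ^ 2 := by positivity
    have hc0 : 0 ≤ a / 2 * s := by positivity
    by_cases hfy : a / 2 * s ≤ f y
    · have hyE : y ∈ E := ⟨hy, hfy⟩
      have h3 : E.indicator (1 : ℝ → ℝ) y = 1 := by
        rw [Set.indicator_of_mem hyE]; rfl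
      rw [h3, mul_one]
      have h4 : f y ≤ t + (1 / (4 * t)) * f y ^ 2 := by
        have h5 : 0 ≤ (1 / (4 * t)) * (f y - 2 * t) ^ 2 := by positivity
        have h6 : (1 / (4 * t)) * (f y - 2 * t) ^ 2 =
            (1 / (4 * t)) * f y ^ 2 - f y + t := by
          field_simp
          ring
        linarith
      exact max_le (by linarith) (by linarith)
    · push Not at hfy
      have h3 : 0 ≤ E.indicator (1 : ℝ → ℝ) y :=
        Set.indicator_nonneg (fun _ _ => zero_le_one) y
      have h4 : 0 ≤ t * E.indicator (1 : ℝ → ℝ) y := mul_nonneg ht0.le h3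
      exact max_le (by linarith) (by linarith)
  have hi1 : IntervalIntegrable (fun _ : ℝ => a / 2 * s) volume x (x + L) :=
    intervalIntegrable_const
  have hi2 : IntervalIntegrable (fun y => t * E.indicator (1 : ℝ → ℝ) y) volume x (x + L) :=
    (ii_ind hE x (x + L)).const_mul t
  have hi3 : IntervalIntegrable (fun y => (1 / (4 * t)) * f y ^ 2) volume x (x + L) :=
    (hf.sq.ii x (x + L)).const_mul _
  have hmono := intervalIntegral.integral_mono_on hx (hf.pos.ii x (x + L))
    ((hi1.add hi2).add hi3) hpt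
  have hval : ∫ y in x..(x + L), (a / 2 * s + t * E.indicator (1 : ℝ → ℝ) y +
      (1 / (4 * t)) * f y ^ 2) = L * (a / 2 * s) +
      t * (∫ y in x..(x + L), E.indicator (1 : ℝ → ℝ) y) +
      (1 / (4 * t)) * ∫ y in x..(x + L), f y ^ 2 := by
    rw [intervalIntegral.integral_add (hi1.add hi2) hi3, intervalIntegral.integral_add hi1 hi2,
      intervalIntegral.integral_const, intervalIntegral.integral_const_mul,
      intervalIntegral.integral_const_mul, smul_eq_mul]
    ring
  have hmono' : ∫ y in x..(x + L), max (f y) 0 ≤ L * (a / 2 * s) +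
      t * (∫ y in x..(x + L), E.indicator (1 : ℝ → ℝ) y) +
      (1 / (4 * t)) * ∫ y in x..(x + L), f y ^ 2 := by
    rw [← hval]; exact hmono
  have hind := int_ind hE hx hfin
  have h7 : t * (∫ y in x..(x + L), E.indicator (1 : ℝ → ℝ) y) ≤ t * (volume E).toReal :=
    mul_le_mul_of_nonneg_left hind ht0.le
  have h8 : (1 / (4 * t)) * ∫ y in x..(x + L), f y ^ 2 ≤ (1 / (4 * t)) * (B * L * s ^ 2) :=
    mul_le_mul_of_nonneg_left h2 (by positivity)
  have h9 : (1 / (4 * t)) * (B * L * s ^ 2) = a * L * s / 4 := by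
    rw [ht]; field_simp
  have h10 : a * L * s / 4 ≤ t * (volume E).toReal := by linarith
  have h11 : a ^ 2 / (4 * B) * L = (a * L * s / 4) / t := by
    rw [ht]; field_simp
  rw [h11, div_le_iff₀ ht0]
  linarith

/-- Proof: let `A` be the set and `t = 2B/c`. Pointwise on `[X, 2X]`
`M x ≤ (c/4) L s + t L s 1_A(x) + F x/(t s)`: this is clear if `M x ≤ (c/4) L s`; if `x ∈ A`, then
`M x ≤ √(L F x) ≤ √(L t² L s²) = t L s`; otherwise `F x > t² L s²` and
`M x ≤ √(L F x) ≤ F x/(t s)`. Integrate over `[X, 2X]`: `c L X s ≤ (c/4) L X s + t L s |A| + B L X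
s²/(t s)`
and `B L X s/t = (c/2) L X s`. So `|A| ≥ (c/4) X/t = c² X/(8B)`. -/
theorem big_set {M F : ℝ → ℝ} (hM : Continuous M) (hF : Continuous F) (hF0 : ∀ x, 0 ≤ F x)
    {X L s c B : ℝ} (hX : 0 < X) (hL : 0 < L) (hs : 0 < s) (hc : 0 < c) (hB : 0 < B)
    (h1 : ∀ x, M x ^ 2 ≤ L * F x) (h2 : c * L * X * s ≤ ∫ x in X..(2 * X), M x)
    (h3 : ∫ x in X..(2 * X), F x ≤ B * L * X * s ^ 2) :
    c ^ 2 / (8 * B) * X ≤ (volume {x | x ∈ Icc X (2 * X) ∧ c / 4 * (L * s) ≤ M x ∧
      F x ≤ (2 * B / c) ^ 2 * (L * s ^ 2)}).toReal := by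
  set t : ℝ := 2 * B / c with ht
  have ht0 : 0 < t := by positivity
  set A : Set ℝ := {x | x ∈ Icc X (2 * X) ∧ c / 4 * (L * s) ≤ M x ∧
      F x ≤ t ^ 2 * (L * s ^ 2)} with hAdef
  have hA : MeasurableSet A := by
    have e1 : MeasurableSet (Icc X (2 * X)) := measurableSet_Icc
    have e2 : MeasurableSet {y | c / 4 * (L * s) ≤ M y} :=
      measurableSet_le measurable_const hM.measurable
    have e3 : MeasurableSet {y | F y ≤ t ^ 2 * (L * s ^ 2)} :=
      measurableSet_le hF.measurable measurable_const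
    exact e1.inter (e2.inter e3)
  have hfin : volume A ≠ ⊤ := fin_of_sub (fun y hy => hy.1)
  have hx : X ≤ 2 * X := by linarith
  have hpt : ∀ y ∈ Icc X (2 * X), M y ≤
      c / 4 * (L * s) + t * (L * s) * A.indicator (1 : ℝ → ℝ) y + (1 / (t * s)) * F y := by
    intro y hy
    have hF1 : 0 ≤ (1 / (t * s)) * F y := mul_nonneg (by positivity) (hF0 y)
    have hc0 : 0 ≤ c / 4 * (L * s) := by positivity
    have h3 : 0 ≤ A.indicator (1 : ℝ → ℝ) y :=
      Set.indicator_nonneg (fun _ _ => zero_le_one) y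
    have h4 : 0 ≤ t * (L * s) * A.indicator (1 : ℝ → ℝ) y :=
      mul_nonneg (by positivity) h3
    by_cases hMy : c / 4 * (L * s) ≤ M y
    · by_cases hFy : F y ≤ t ^ 2 * (L * s ^ 2)
      · have hyA : y ∈ A := ⟨hy, hMy, hFy⟩
        have h5 : A.indicator (1 : ℝ → ℝ) y = 1 := by
          rw [Set.indicator_of_mem hyA]; rfl
        have h6 : M y ≤ t * (L * s) := by
          have h7 : M y ^ 2 ≤ (t * (L * s)) ^ 2 := by
            calc M y ^ 2 ≤ L * F y := h1 y
              _ ≤ L * (t ^ 2 * (L * s ^ 2)) := mul_le_mul_of_nonneg_left hFy hL.le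
              _ = (t * (L * s)) ^ 2 := by ring
          exact le_of_sq_le_sq h7 (by positivity)
        rw [h5, mul_one]
        linarith
      · push Not at hFy
        have h6 : M y ≤ (1 / (t * s)) * F y := by
          have h7 : M y ^ 2 ≤ ((1 / (t * s)) * F y) ^ 2 := by
            calc M y ^ 2 ≤ L * F y := h1 y
              _ = (1 / (t * s)) ^ 2 * (F y * (t ^ 2 * (L * s ^ 2))) := by
                field_simp
              _ ≤ (1 / (t * s)) ^ 2 * (F y * F y) :=
                mul_le_mul_of_nonneg_left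
                  (mul_le_mul_of_nonneg_left hFy.le (hF0 y)) (by positivity)
              _ = ((1 / (t * s)) * F y) ^ 2 := by ring
          exact le_of_sq_le_sq h7 hF1
        linarith
    · push Not at hMy
      linarith
  have hi1 : IntervalIntegrable (fun _ : ℝ => c / 4 * (L * s)) volume X (2 * X) :=
    intervalIntegrable_const
  have hi2 : IntervalIntegrable (fun y => t * (L * s) * A.indicator (1 : ℝ → ℝ) y) volume
      X (2 * X) := (ii_ind hA X (2 * X)).const_mul _
  have hi3 : IntervalIntegrable (fun y => (1 / (t * s)) * F y) volume X (2 * X) :=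
    (hF.intervalIntegrable X (2 * X)).const_mul _
  have hmono := intervalIntegral.integral_mono_on hx (hM.intervalIntegrable X (2 * X))
    ((hi1.add hi2).add hi3) hpt
  have hval : ∫ y in X..(2 * X), (c / 4 * (L * s) + t * (L * s) *
      A.indicator (1 : ℝ → ℝ) y + (1 / (t * s)) * F y) = X * (c / 4 * (L * s)) +
      t * (L * s) * (∫ y in X..(2 * X), A.indicator (1 : ℝ → ℝ) y) +
      (1 / (t * s)) * ∫ y in X..(2 * X), F y := by
    rw [intervalIntegral.integral_add (hi1.add hi2) hi3, intervalIntegral.integral_add hi1 hi2,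
      intervalIntegral.integral_const, intervalIntegral.integral_const_mul,
      intervalIntegral.integral_const_mul, smul_eq_mul]
    ring
  have hmono' : ∫ y in X..(2 * X), M y ≤ X * (c / 4 * (L * s)) +
      t * (L * s) * (∫ y in X..(2 * X), A.indicator (1 : ℝ → ℝ) y) +
      (1 / (t * s)) * ∫ y in X..(2 * X), F y := by
    rw [← hval]; exact hmono
  have hind := int_ind hA hx hfin
  have h7 : t * (L * s) * (∫ y in X..(2 * X), A.indicator (1 : ℝ → ℝ) y) ≤
      t * (L * s) * (volume A).toReal :=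
    mul_le_mul_of_nonneg_left hind (by positivity)
  have h8 : (1 / (t * s)) * ∫ y in X..(2 * X), F y ≤ (1 / (t * s)) * (B * L * X * s ^ 2) :=
    mul_le_mul_of_nonneg_left h3 (by positivity)
  have h9 : (1 / (t * s)) * (B * L * X * s ^ 2) = c / 2 * L * X * s := by
    rw [ht]; field_simp
  have h10 : c / 4 * L * X * s ≤ t * (L * s) * (volume A).toReal := by
    have e1 : X * (c / 4 * (L * s)) = c / 4 * L * X * s := by ring
    have e2 : c * L * X * s = c / 4 * L * X * s + c / 4 * L * X * s + c / 2 * L * X * s := by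
      ring
    linarith
  have h11 : c ^ 2 / (8 * B) * X = (c / 4 * L * X * s) / (t * (L * s)) := by
    rw [ht]; field_simp; ring
  rw [h11, div_le_iff₀ (by positivity)]
  linarith

end Pool.Agent.MP_a12917_nt_SC
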